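import Pool.Agent.Work.MP_cda452_an.Space

set_option autoImplicit false
set_option linter.unusedSectionVars false

namespace Pool.Agent.Work.MP_cda452_an

open Filter Topology

/-- Lebesgue-number lemma for covers of `X`. -/
theorem lebesgue (α : Finset (Set X)) (ho : ∀ U ∈ α, IsOpen U) (hc : ∀ x : X, ∃ U ∈ α, x ∈ U) :
    ∃ n : ℕ, ∀ D : X, ∃ U ∈ α, ∀ D' : X, (∀ i : ℤ, |i| ≤ n → ∀ c < Nj n,
      |D.1 i c - D'.1 i c| ≤ 1 / ((n : ℝ) + 1)) → D' ∈ U := by
  by_contra hcon
  push Not at hcon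
  choose D hD using hcon
  obtain ⟨Dl, -, φ, hφ, hlim⟩ :=
    (isCompact_univ (X := X)).tendsto_subseq (x := D) (fun _ => Set.mem_univ _)
  obtain ⟨U, hU, hDU⟩ := hc Dl
  choose D' hD' using fun n => hD n U hU
  have hlim' : Tendsto (fun n => D' (φ n)) atTop (𝓝 Dl) := by
    rw [tendsto_subtype_rng, tendsto_pi_nhds]
    intro i
    rw [tendsto_pi_nhds]
    intro c
    have h1 : Tendsto (fun n => (D (φ n)).1 i c) atTop (𝓝 (Dl.1 i c)) := by
      have := tendsto_subtype_rng.1 hlim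
      rw [tendsto_pi_nhds] at this
      exact (tendsto_pi_nhds.1 (this i)) c
    have h2 : Tendsto (fun n => (D (φ n)).1 i c - (D' (φ n)).1 i c) atTop (𝓝 0) := by
      apply squeeze_zero_norm' (a := fun n : ℕ => 1 / ((n : ℝ) + 1))
      · filter_upwards [eventually_ge_atTop (max i.natAbs c)] with n hn
        have hn2 : n ≤ φ n := hφ.id_le n
        rw [Real.norm_eq_abs]
        refine ((hD' (φ n)).1 i ?_ c ?_).trans ?_
        · have : i.natAbs ≤ φ n := (le_max_left _ _).trans (hn.trans hn2)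
          rw [Int.abs_eq_natAbs]
          exact_mod_cast this
        · have : c ≤ φ n := (le_max_right _ _).trans (hn.trans hn2)
          exact this.trans_lt (lt_Nj _)
        · apply one_div_le_one_div_of_le (by positivity)
          have : (n : ℝ) ≤ φ n := by exact_mod_cast hn2
          linarith
      · exact tendsto_one_div_add_atTop_nhds_zero_nat
    have h3 := h1.sub h2
    simpa using h3
  have h4 : ∀ᶠ n in atTop, D' (φ n) ∈ U := hlim'.eventually ((ho U hU).mem_nhds hDU)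
  obtain ⟨n, hn⟩ := h4.exists
  exact (hD' (φ n)).2 hn

/-- The rounding cells. -/
def VV (J j B K : ℕ) (l : Fin (K + 1)) (g : Fin B → Fin (Nj (j + 1)) → Fin (Rj j + 1)) : Set X :=
  {D | ∀ (b : Fin B) (m : Fin (Nj (j + 1))), Nj j ≤ m.1 →
    ((g b m).1 : ℝ) - 1 + ((l.1 : ℝ) + 1) / (K + 2) <
      Rj j * D.1 (-(J : ℤ) + b.1 * nj j) m.1 ∧
    Rj j * D.1 (-(J : ℤ) + b.1 * nj j) m.1 < (g b m).1 + ((l.1 : ℝ) + 1) / (K + 2)}

theorem isOpen_VV (J j B K : ℕ) (l : Fin (K + 1))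
    (g : Fin B → Fin (Nj (j + 1)) → Fin (Rj j + 1)) : IsOpen (VV J j B K l g) := by
  unfold VV
  simp only [Set.ofPred_forall]
  refine isOpen_iInter_of_finite (fun b => isOpen_iInter_of_finite (fun m => ?_))
  by_cases hm : Nj j ≤ m.1
  · have hcont : Continuous (fun D : X => (Rj j : ℝ) * D.1 (-(J : ℤ) + b.1 * nj j) m.1) := by
      apply Continuous.mul continuous_const
      have h1 : Continuous (fun D : ℤ → ℕ → ℝ => D (-(J : ℤ) + b.1 * nj j) m.1) := by fun_prop
      exact h1.comp continuous_subtype_val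
    simp only [hm, Set.iInter_true]
    exact (isOpen_lt continuous_const hcont).inter (isOpen_lt hcont continuous_const)
  · simp only [hm, Set.iInter_of_empty, Set.iInter_false]
    exact isOpen_univ

theorem theta_bounds {K : ℕ} (l : Fin (K + 1)) :
    0 < ((l.1 : ℝ) + 1) / (K + 2) ∧ ((l.1 : ℝ) + 1) / (K + 2) < 1 := by
  constructor
  · positivity
  · rw [div_lt_one (by positivity)]
    have : (l.1 : ℝ) + 1 ≤ K + 1 := by exact_mod_cast l.2
    linarith

theorem VV_cover (J j B : ℕ) (D : X) :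
    ∃ l g, D ∈ VV J j B (B * kj j) l g := by
  classical
  set K := B * kj j with hK
  let y : Fin B → ℕ → ℝ := fun b m => Rj j * D.1 (-(J : ℤ) + b.1 * nj j) m
  have hy0 : ∀ b m, 0 ≤ y b m := fun b m => mul_nonneg (by positivity) (D.2.1 _ _).1
  have hy1 : ∀ b m, y b m ≤ Rj j := by
    intro b m
    have := (D.2.1 (-(J : ℤ) + b.1 * nj j) m).2
    have hR : (0 : ℝ) ≤ Rj j := by positivity
    simp only [y]
    nlinarith
  -- soft coordinates
  let S : Finset (Fin B × ℕ) := (Finset.univ : Finset (Fin B)).sigma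
    (fun b => (Finset.Ico (Nj j) (Nj (j + 1))).filter
      (fun m => ¬ Mul (Rj j) (D.1 (-(J : ℤ) + b.1 * nj j) m))) |>.image (fun x => (x.1, x.2))
  have hS : S.card ≤ K := by
    refine Finset.card_image_le.trans ?_
    rw [Finset.card_sigma]
    calc ∑ b : Fin B, ((Finset.Ico (Nj j) (Nj (j + 1))).filter
          (fun m => ¬ Mul (Rj j) (D.1 (-(J : ℤ) + b.1 * nj j) m))).card
        ≤ ∑ b : Fin B, kj j := by
          apply Finset.sum_le_sum
          intro b _
          exact D.2.2.2 _ j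
      _ = K := by simp [hK]
  have hSmem : ∀ b m, Nj j ≤ m → m < Nj (j + 1) →
      ¬ Mul (Rj j) (D.1 (-(J : ℤ) + b.1 * nj j) m) → (b, m) ∈ S := by
    intro b m h1 h2 h3
    simp only [S, Finset.mem_image, Finset.mem_sigma, Finset.mem_univ, true_and,
      Finset.mem_filter, Finset.mem_Ico]
    exact ⟨⟨b, m⟩, ⟨⟨h1, h2⟩, h3⟩, rfl⟩
  obtain ⟨l, hl⟩ : ∃ l : Fin (K + 1), ∀ x ∈ S, Int.fract (y x.1 x.2) ≠
      ((l.1 : ℝ) + 1) / (K + 2) := by
    by_contra hcon
    push Not at hcon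
    choose x hx1 hx2 using hcon
    have hinj : Function.Injective x := by
      intro a b hab
      have h1 := hx2 a
      rw [hab, hx2 b] at h1
      have h2 : ((b.1 : ℝ) + 1) = (a.1 : ℝ) + 1 := by
        have h3 : ((K : ℝ) + 2) ≠ 0 := by positivity
        field_simp at h1
        exact h1
      have h3 : (b.1 : ℝ) = a.1 := by linarith
      exact Fin.ext (by exact_mod_cast h3.symm)
    have h4 : (Finset.univ.image x) ⊆ S := by
      intro z hz
      rw [Finset.mem_image] at hz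
      obtain ⟨l, -, rfl⟩ := hz
      exact hx1 l
    have h5 := Finset.card_le_card h4
    rw [Finset.card_image_of_injective _ hinj, Finset.card_univ, Fintype.card_fin] at h5
    omega
  have hl' : ∀ b m, Nj j ≤ m → m < Nj (j + 1) →
      Int.fract (y b m) ≠ ((l.1 : ℝ) + 1) / (K + 2) := by
    intro b m h1 h2
    by_cases h3 : Mul (Rj j) (D.1 (-(J : ℤ) + b.1 * nj j) m)
    · obtain ⟨z, hz⟩ := h3
      have : Int.fract (y b m) = 0 := by
        simp only [y]
        rw [hz, Int.fract_intCast]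
      rw [this]
      exact (theta_bounds l).1.ne
    · exact hl _ (hSmem b m h1 h2 h3)
  have hθ := theta_bounds l
  set θ : ℝ := ((l.1 : ℝ) + 1) / (K + 2) with hθ'
  have hg : ∀ (b : Fin B) (m : Fin (Nj (j + 1))), ∃ g : Fin (Rj j + 1), Nj j ≤ m.1 →
      (g.1 : ℝ) - 1 + θ < y b m.1 ∧ y b m.1 < g.1 + θ := by
    intro b m
    by_cases hm : Nj j ≤ m.1
    · have h1 := hl' b m.1 hm m.2
      have h0 := hy0 b m.1
      have hR := hy1 b m.1
      have hfl := Nat.floor_le h0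
      have hfr : Int.fract (y b m.1) = y b m.1 - ⌊y b m.1⌋₊ := by
        have h2 := Int.self_sub_floor (y b m.1)
        rw [← h2]
        congr 1
        rw [← natCast_floor_eq_intCast_floor h0]
      have hfl2 := Nat.lt_floor_add_one (y b m.1)
      rcases lt_or_gt_of_ne h1 with h2 | h2
      · refine ⟨⟨⌊y b m.1⌋₊, ?_⟩, fun _ => ⟨?_, ?_⟩⟩
        · have : (⌊y b m.1⌋₊ : ℝ) ≤ Rj j := hfl.trans hR
          have : ⌊y b m.1⌋₊ ≤ Rj j := by exact_mod_cast this
          omega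
        · simp only
          linarith
        · simp only
          linarith
      · refine ⟨⟨⌊y b m.1⌋₊ + 1, ?_⟩, fun _ => ⟨?_, ?_⟩⟩
        · have : (⌊y b m.1⌋₊ : ℝ) < Rj j := by linarith
          have : ⌊y b m.1⌋₊ < Rj j := by exact_mod_cast this
          omega
        · simp only
          push_cast
          linarith
        · simp only
          push_cast
          linarith
    · exact ⟨0, fun h => absurd h hm⟩
  choose g hg using hg
  exact ⟨l, g, fun b m hm => hg b m hm⟩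

theorem VV_eq {J j B K : ℕ} {l : Fin (K + 1)}
    {g g' : Fin B → Fin (Nj (j + 1)) → Fin (Rj j + 1)} {D : X}
    (h : D ∈ VV J j B K l g) (h' : D ∈ VV J j B K l g') : VV J j B K l g = VV J j B K l g' := by
  have key : ∀ (b : Fin B) (m : Fin (Nj (j + 1))), Nj j ≤ m.1 → g b m = g' b m := by
    intro b m hm
    have h1 := h b m hm
    have h2 := h' b m hm
    have h3 : ((g b m).1 : ℝ) < (g' b m).1 + 1 := by linarith [h1.1, h2.2]
    have h4 : ((g' b m).1 : ℝ) < (g b m).1 + 1 := by linarith [h2.1, h1.2]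
    have h5 : (g b m).1 < (g' b m).1 + 1 := by exact_mod_cast h3
    have h6 : (g' b m).1 < (g b m).1 + 1 := by exact_mod_cast h4
    exact Fin.ext (by omega)
  ext E
  simp only [VV, Set.mem_ofPred_eq]
  constructor
  · intro hE b m hm
    rw [← key b m hm]
    exact hE b m hm
  · intro hE b m hm
    rw [key b m hm]
    exact hE b m hm

/-- Points in the same cell are close. -/
theorem VV_close {J j B K : ℕ} (hJ : 3 * (J + 1) ≤ j) {n : ℕ} (hB : n + 2 * J < B * nj j)
    {l : Fin (K + 1)}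
    {g : Fin B → Fin (Nj (j + 1)) → Fin (Rj j + 1)} {D D' : X}
    (h : D ∈ VV J j B K l g) (h' : D' ∈ VV J j B K l g) (i : ℤ) (hi1 : -(J : ℤ) ≤ i)
    (hi2 : i < n + J) (c : ℕ) (hc : c < Nj J) :
    |D.1 i c - D'.1 i c| ≤ 1 / ((J : ℝ) + 1) := by
  have hn : 0 < nj j := nj_pos j
  obtain ⟨u, hu⟩ : ∃ u : ℕ, i = -(J : ℤ) + u := ⟨(i + J).toNat, by omega⟩
  have hu2 : u < n + 2 * J := by omega
  have hb : u / nj j < B := by
    rw [Nat.div_lt_iff_lt_mul hn]
    omega
  set b : Fin B := ⟨u / nj j, hb⟩ with hbdef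
  set τ := u % nj j with hτdef
  have hτ : τ < nj j := Nat.mod_lt _ hn
  have hi : i = (-(J : ℤ) + (b.1 : ℤ) * nj j) + τ := by
    rw [hu]
    have h1 : ((u / nj j : ℕ) : ℤ) * (nj j : ℤ) + ((u % nj j : ℕ) : ℤ) = u := by
      have := Nat.div_add_mod u (nj j)
      rw [mul_comm] at this
      exact_mod_cast this
    rw [hbdef, hτdef]
    simp only
    linarith
  have hcj : c < Nj j := hc.trans_le (Nj_mono (by omega))
  obtain ⟨hm1, hm2⟩ := idx_bounds hτ hcj
  have e1 := D.2.2.1 (-(J : ℤ) + (b.1 : ℤ) * nj j) j τ c hτ hcj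
  have e2 := D'.2.2.1 (-(J : ℤ) + (b.1 : ℤ) * nj j) j τ c hτ hcj
  have e3 := h b ⟨_, hm2⟩ hm1
  have e4 := h' b ⟨_, hm2⟩ hm1
  rw [← hi] at e1 e2
  simp only at e3 e4
  set a := D.1 (-(J : ℤ) + (b.1 : ℤ) * nj j) (Nj j * (1 + τ) + c)
  set a' := D'.1 (-(J : ℤ) + (b.1 : ℤ) * nj j) (Nj j * (1 + τ) + c)
  have hR : (j : ℝ) + 1 ≤ Rj j := by
    have : j + 1 ≤ Rj j := by
      unfold Rj
      exact Nat.le_mul_of_pos_right _ (Lj_pos j)
    exact_mod_cast this
  have hj : (0 : ℝ) < (j : ℝ) + 1 := by positivity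
  have e5 : |a - a'| ≤ 1 / ((j : ℝ) + 1) := by
    rw [le_div_iff₀ hj]
    have h5 : |Rj j * a - Rj j * a'| ≤ 1 := by
      rw [abs_le]; constructor <;> linarith [e3.1, e3.2, e4.1, e4.2]
    rw [← mul_sub, abs_mul, abs_of_nonneg (by positivity)] at h5
    calc |a - a'| * ((j : ℝ) + 1) ≤ |a - a'| * Rj j := by gcongr
      _ = Rj j * |a - a'| := by ring
      _ ≤ 1 := h5
  have e6 : 3 * (1 / ((j : ℝ) + 1)) ≤ 1 / ((J : ℝ) + 1) := by
    have h7 : (3 : ℝ) * ((J : ℝ) + 1) ≤ (j : ℝ) + 1 := by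
      have : 3 * (J + 1) ≤ j + 1 := by omega
      exact_mod_cast this
    rw [mul_one_div, div_le_div_iff₀ hj (by positivity)]
    linarith
  have e7 : |D.1 i c - D'.1 i c| ≤ |a - D.1 i c| + |a - a'| + |a' - D'.1 i c| := by
    have : D.1 i c - D'.1 i c = -(a - D.1 i c) + (a - a') + (a' - D'.1 i c) := by ring
    rw [this]
    calc |-(a - D.1 i c) + (a - a') + (a' - D'.1 i c)|
        ≤ |-(a - D.1 i c) + (a - a')| + |a' - D'.1 i c| := abs_add_le _ _
      _ ≤ |-(a - D.1 i c)| + |a - a'| + |a' - D'.1 i c| := by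
          gcongr; exact abs_add_le _ _
      _ = _ := by rw [abs_neg]
  linarith

/-- `X` has mean dimension zero (open cover form). -/
theorem mdim_zero (α : Finset (Set X)) (ho : ∀ U ∈ α, IsOpen U) (hc : ∀ x : X, ∃ U ∈ α, x ∈ U)
    (ε : ℝ) (hε : 0 < ε) : ∀ᶠ n : ℕ in atTop, ∃ γ : Finset (Set X),
        (∀ V ∈ γ, IsOpen V) ∧ (∀ x : X, ∃ V ∈ γ, x ∈ V) ∧
        (∀ V ∈ γ, ∃ c : (Fin 1 → ℤ) → Set X,
          (∀ g : Fin 1 → ℤ, (∀ i, 0 ≤ g i ∧ g i < (n : ℤ)) → c g ∈ α) ∧
          ∀ x ∈ V, ∀ g : Fin 1 → ℤ, (∀ i, 0 ≤ g i ∧ g i < (n : ℤ)) → g +ᵥ x ∈ c g) ∧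
        ∀ x : X, ∀ t ⊆ γ, (∀ V ∈ t, x ∈ V) → (t.card : ℝ) ≤ 1 + ε * (n : ℝ) ^ 1 := by
  classical
  obtain ⟨J, hJ⟩ := lebesgue α ho hc
  obtain ⟨j0, hj0⟩ := exists_nat_gt (2 / ε)
  set j := max (3 * (J + 1)) j0 with hj
  have hkj : 2 / ε < kj j := by
    have h1 : j0 ≤ j := le_max_right _ _
    have h2 : j < kj j := by
      unfold kj
      calc j < 2 ^ j := Nat.lt_two_pow_self
        _ ≤ 2 ^ (j + 4) := Nat.pow_le_pow_right (by norm_num) (by omega)
    have h3 : (j0 : ℝ) ≤ kj j := by exact_mod_cast h1.trans h2.le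
    linarith
  have hkpos : (0 : ℝ) < kj j := by exact_mod_cast kj_pos j
  have hk2 : 1 / (kj j : ℝ) ≤ ε / 2 := by
    rw [div_lt_iff₀ hε] at hkj
    rw [div_le_div_iff₀ hkpos (by norm_num)]
    nlinarith
  obtain ⟨n0, hn0⟩ := exists_nat_gt ((ε * J + kj j) * 2 / ε)
  filter_upwards [eventually_ge_atTop n0] with n hn
  set B := (n + 2 * J) / nj j + 1 with hB
  have hnpos := nj_pos j
  have hBn : n + 2 * J < B * nj j := by
    rw [hB]
    have := Nat.lt_div_mul_add (a := n + 2 * J) hnpos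
    rw [add_mul, one_mul]
    exact this
  set K := B * kj j with hK
  have hKn : (K : ℝ) ≤ ε * n := by
    have h1 : (B : ℝ) ≤ (n + 2 * J) / nj j + 1 := by
      rw [hB]
      push_cast
      have := @Nat.cast_div_le ℝ _ _ _ (n + 2 * J) (nj j)
      push_cast at this
      linarith
    have h2 : (nj j : ℝ) = kj j * kj j := by
      unfold nj; push_cast; ring
    have h3 : (K : ℝ) ≤ (n + 2 * J) * (1 / kj j) + kj j := by
      rw [hK]
      push_cast
      calc (B : ℝ) * kj j ≤ ((n + 2 * J) / nj j + 1) * kj j := by gcongr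
        _ = (n + 2 * J) * (1 / kj j) + kj j := by rw [h2]; field_simp
    have h4 : ((n : ℝ) + 2 * J) * (1 / kj j) ≤ (n + 2 * J) * (ε / 2) := by gcongr
    have h5 : (ε * J + kj j) * 2 / ε ≤ n := by
      have : (n0 : ℝ) ≤ n := by exact_mod_cast hn
      linarith
    rw [div_le_iff₀ hε] at h5
    nlinarith
  let γ : Finset (Set X) := ((Finset.univ : Finset (Fin (K + 1) ×
    (Fin B → Fin (Nj (j + 1)) → Fin (Rj j + 1)))).image (fun x => VV J j B K x.1 x.2)).filter
    (fun V => V.Nonempty)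
  have hγ : ∀ V ∈ γ, (∃ l g, V = VV J j B K l g) ∧ V.Nonempty := by
    intro V hV
    simp only [γ, Finset.mem_filter, Finset.mem_image, Finset.mem_univ, true_and] at hV
    obtain ⟨⟨x, rfl⟩, hne⟩ := hV
    exact ⟨⟨x.1, x.2, rfl⟩, hne⟩
  refine ⟨γ, ?_, ?_, ?_, ?_⟩
  · intro V hV
    obtain ⟨⟨l, g, rfl⟩, -⟩ := hγ V hV
    exact isOpen_VV J j B K l g
  · intro x
    obtain ⟨l, g, h⟩ := VV_cover J j B x
    refine ⟨VV J j B K l g, ?_, h⟩
    simp only [γ, Finset.mem_filter, Finset.mem_image, Finset.mem_univ, true_and]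
    exact ⟨⟨(l, g), rfl⟩, ⟨x, h⟩⟩
  · intro V hV
    obtain ⟨⟨l, g, rfl⟩, D, hD⟩ := hγ V hV
    choose U hU1 hU2 using hJ
    refine ⟨fun h => U (h +ᵥ D), fun h _ => hU1 _, ?_⟩
    intro x hx h hh
    apply hU2
    intro i hi c hc
    rw [vadd_val, vadd_val]
    simp only [sft]
    have h1 := hh 0
    rw [abs_le] at hi
    exact VV_close (n := n) (le_max_left _ _) hBn hD hx (i + h 0) (by omega) (by omega) c hc
  · intro x t ht hxt
    have h1 : ∀ V ∈ t, ∃ l : Fin (K + 1), ∃ g, V = VV J j B K l g := fun V hV => (hγ V (ht hV)).1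
    choose! l g hlg using h1
    have h2 : t.card ≤ K + 1 := by
      have h3 : (t.image l).card ≤ (Finset.univ : Finset (Fin (K + 1))).card :=
        Finset.card_le_card (Finset.subset_univ _)
      rw [Finset.card_univ, Fintype.card_fin] at h3
      rwa [Finset.card_image_of_injOn] at h3
      intro V hV W hW hVW
      simp only [Finset.mem_coe] at hV hW
      have hxV := hxt V hV
      have hxW := hxt W hW
      rw [hlg V hV] at hxV
      rw [hlg W hW, ← hVW] at hxW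
      rw [hlg V hV, hlg W hW, ← hVW]
      exact VV_eq hxV hxW
    have h4 : (t.card : ℝ) ≤ K + 1 := by exact_mod_cast h2
    rw [pow_one]
    linarith

end Pool.Agent.Work.MP_cda452_an
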