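import Mathlib

set_option autoImplicit false

namespace Pool.Agent.Work.MP_cda452_an

/-- The `D`-skeleton of the standard simplex on `m` vertices. -/
theorem exists_skeleton (m D : ℕ) :
    ∃ P : Geometry.SimplicialComplex ℝ (Fin m → ℝ), P.faces.Finite ∧
      (∀ s ∈ P.faces, s.card ≤ D + 1) ∧
      ∀ w : Fin m → ℝ, (∀ i, 0 ≤ w i) → ∑ i, w i = 1 →
        (Finset.univ.filter (fun i => w i ≠ 0)).card ≤ D + 1 → w ∈ P.space := by
  classical
  let e : Fin m → (Fin m → ℝ) := fun i => Pi.single i 1
  have hinj : Function.Injective e := by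
    intro i j h
    by_contra hne
    have h1 := congrFun h i
    simp only [e, Pi.single_eq_same] at h1
    rw [Pi.single_eq_of_ne hne] at h1
    exact one_ne_zero h1
  have hli : LinearIndependent ℝ e := by
    have := (Pi.basisFun ℝ (Fin m)).linearIndependent
    have h2 : (⇑(Pi.basisFun ℝ (Fin m)) : Fin m → (Fin m → ℝ)) = e := by
      funext i
      simp [e]
    rwa [h2] at this
  let K : PreAbstractSimplicialComplex (Fin m → ℝ) :=
    { faces := {s | s.Nonempty ∧ s ⊆ Finset.univ.image e ∧ s.card ≤ D + 1}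
      isRelLowerSet_faces := by
        rintro s ⟨h1, h2, h3⟩
        refine ⟨h1, fun t ht ht2 => ⟨ht2, ht.trans h2, (Finset.card_le_card ht).trans h3⟩⟩ }
  have hK : AffineIndependent ℝ (Subtype.val : (⋃ s ∈ K.faces, (s : Set (Fin m → ℝ))) →
      (Fin m → ℝ)) := by
    refine hli.affineIndependent.range.mono ?_
    intro x hx
    simp only [Set.mem_iUnion] at hx
    obtain ⟨s, hs, hxs⟩ := hx
    have := hs.2.1 hxs
    rw [Finset.mem_image] at this
    obtain ⟨i, -, rfl⟩ := this
    exact ⟨i, rfl⟩
  refine ⟨Geometry.SimplicialComplex.ofAffineIndependent K hK, ?_, ?_, ?_⟩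
  · refine (Finset.finite_toSet (Finset.univ.image e).powerset).subset ?_
    intro s hs
    exact Finset.mem_coe.2 (Finset.mem_powerset.2 hs.2.1)
  · intro s hs
    exact hs.2.2
  · intro w hw0 hw1 hcard
    rw [Geometry.SimplicialComplex.mem_space_iff]
    refine ⟨(Finset.univ.filter (fun i => w i ≠ 0)).image e, ⟨?_, ?_, ?_⟩, ?_⟩
    · rw [Finset.image_nonempty]
      by_contra hne
      rw [Finset.not_nonempty_iff_eq_empty, Finset.filter_eq_empty_iff] at hne
      have : ∑ i, w i = 0 := Finset.sum_eq_zero (fun i hi => by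
        have := hne hi
        simpa using this)
      rw [this] at hw1
      exact zero_ne_one hw1
    · exact Finset.image_subset_image (Finset.filter_subset _ _)
    · exact Finset.card_image_le.trans hcard
    · have h1 : w = ∑ i ∈ Finset.univ.filter (fun i => w i ≠ 0), w i • e i := by
        funext j
        rw [Finset.sum_apply, Finset.sum_filter]
        rw [Finset.sum_eq_single j]
        · by_cases h : w j = 0
          · simp [h]
          · simp [h, e]
        · intro i _ hij
          by_cases h : w i = 0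
          · simp [h]
          · simp only [h, ne_eq, not_false_eq_true, if_true, Pi.smul_apply, smul_eq_mul, e]
            rw [Pi.single_eq_of_ne (Ne.symm hij), mul_zero]
        · intro h
          exact absurd (Finset.mem_univ j) h
      have h2 : ∑ i ∈ Finset.univ.filter (fun i => w i ≠ 0), w i • e i ∈
          convexHull ℝ (((Finset.univ.filter (fun i => w i ≠ 0)).image e : Finset (Fin m → ℝ)) :
            Set (Fin m → ℝ)) := by
        refine (convex_convexHull ℝ _).sum_mem (fun i _ => hw0 i) ?_ ?_
        · rw [Finset.sum_filter_ne_zero]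
          exact hw1
        · intro i hi
          apply subset_convexHull
          rw [Finset.mem_coe, Finset.mem_image]
          exact ⟨i, hi, rfl⟩
      rwa [← h1] at h2

/-- A finite open cover of multiplicity at most `D + 1` gives a map to a finite complex of
dimension at most `D` whose fibres lie in members of the cover. -/
theorem exists_nerve_map {X : Type*} [TopologicalSpace X] [NormalSpace X] (γ : Finset (Set X))
    (ho : ∀ V ∈ γ, IsOpen V) (hc : ∀ x : X, ∃ V ∈ γ, x ∈ V) (D : ℕ)
    (hD : ∀ x : X, ∀ t ⊆ γ, (∀ V ∈ t, x ∈ V) → t.card ≤ D + 1) :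
    ∃ (m : ℕ) (P : Geometry.SimplicialComplex ℝ (Fin m → ℝ)), P.faces.Finite ∧
      (∀ s ∈ P.faces, s.card ≤ D + 1) ∧ ∃ f : X → P.space, Continuous f ∧
        ∀ x y, f x = f y → ∃ V ∈ γ, x ∈ V ∧ y ∈ V := by
  classical
  obtain ⟨P, hP1, hP2, hP3⟩ := exists_skeleton γ.card D
  let u : Fin γ.card ≃ γ := γ.equivFin.symm
  obtain ⟨ρ, hρ⟩ := PartitionOfUnity.exists_isSubordinate_of_locallyFinite
    (isClosed_univ (X := X)) (fun i : Fin γ.card => (u i).1) (fun i => ho _ (u i).2)
    (locallyFinite_of_finite _) (by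
      intro x _
      obtain ⟨V, hV, hx⟩ := hc x
      rw [Set.mem_iUnion]
      exact ⟨u.symm ⟨V, hV⟩, by simpa using hx⟩)
  have hmem : ∀ i x, ρ i x ≠ 0 → x ∈ (u i).1 := by
    intro i x h
    exact hρ i (subset_tsupport _ h)
  have hsum : ∀ x, ∑ i, ρ i x = 1 := by
    intro x
    rw [← ρ.sum_eq_one (Set.mem_univ x), finsum_eq_sum_of_fintype]
  have hcard : ∀ x, (Finset.univ.filter (fun i => ρ i x ≠ 0)).card ≤ D + 1 := by
    intro x
    refine le_trans ?_ (hD x ((Finset.univ.filter (fun i => ρ i x ≠ 0)).image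
      (fun i => (u i).1)) ?_ ?_)
    · rw [Finset.card_image_of_injective]
      intro i j hij
      exact u.injective (Subtype.ext hij)
    · intro V hV
      rw [Finset.mem_image] at hV
      obtain ⟨i, -, rfl⟩ := hV
      exact (u i).2
    · intro V hV
      rw [Finset.mem_image] at hV
      obtain ⟨i, hi, rfl⟩ := hV
      rw [Finset.mem_filter] at hi
      exact hmem i x hi.2
  refine ⟨γ.card, P, hP1, hP2, fun x => ⟨fun i => ρ i x,
    hP3 _ (fun i => ρ.nonneg i x) (hsum x) (hcard x)⟩, ?_, ?_⟩
  · refine Continuous.subtype_mk ?_ _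
    exact continuous_pi (fun i => (ρ i).continuous)
  · intro x y hxy
    have h1 : ∀ i, ρ i x = ρ i y := fun i => congrFun (Subtype.ext_iff.1 hxy) i
    obtain ⟨i, hi⟩ : ∃ i, ρ i x ≠ 0 := by
      by_contra hcon
      push Not at hcon
      have := hsum x
      rw [Finset.sum_eq_zero (fun i _ => hcon i)] at this
      exact zero_ne_one this
    exact ⟨(u i).1, (u i).2, hmem i x hi, hmem i y (by rw [← h1 i]; exact hi)⟩

end Pool.Agent.Work.MP_cda452_an
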