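import Pool.Agent.Work.MP_cda452_an.Main

set_option autoImplicit false
set_option linter.unusedSectionVars false

namespace Pool.Agent.Work.MP_cda452_an

open Filter

/-- The prime step. -/
theorem prime_step {p : ℕ} [Fact p.Prime] {G : (ℤ → ℕ → ℝ) → ℝ} (hG : Continuous G)
    (h01 : ∀ D, 0 ≤ G D ∧ G D ≤ 1)
    (hG0 : ∀ D ∈ XX, D 0 0 ≤ 1 / 3 → G D = 0) (hG1 : ∀ D ∈ XX, 2 / 3 ≤ D 0 0 → G D = 1)
    {l : ℕ} (hl : 2 ^ 26 ≤ l) (hlp : l ≤ p) (hp16 : 16 ≤ p) (n : ℕ) (hn : 2 ≤ n) (c3 : ℝ)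
    (hc3 : c3 = 1 / (8192 * (Fintype.card (Fin l → Bool) : ℝ) ^ 2)) (hcp : 4 ≤ c3 * p)
    (ε : ℝ) (hε : 0 < ε)
    (hε2 : 128 * (Fintype.card (Fin l → Bool) : ℝ) ^ 3 * n ^ 2 * l ^ 2 * ε < c3)
    (s : Finset (Set (ℤ → ℕ → ℝ))) (hs1 : (s.card : ℝ) * 2 ^ p < (n : ℝ) ^ (⌈c3 * p / 2⌉₊))
    (hs2 : ∀ D ∈ XX, ∃ V ∈ s, D ∈ V)
    (hs3 : ∀ V ∈ s, ∀ D ∈ V, ∀ D' ∈ V, ∀ i < p, |G (sft (i : ℤ) D) - G (sft (i : ℤ) D')| < ε) :
    False := by
  classical
  have hp := p_pos p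
  have hRr : (0 : ℝ) < Fintype.card (Fin l → Bool) := by
    exact_mod_cast (Fintype.card_pos : 0 < Fintype.card (Fin l → Bool))
  set R : ℝ := (Fintype.card (Fin l → Bool) : ℝ) with hR
  set B := p / 16 + 1 with hB
  set a := ⌈c3 * p / 2⌉₊ with ha
  have hBp : B ≤ p := by omega
  have hnpos : 0 < n := by omega
  have : Nonempty (Fin n) := ⟨⟨0, hnpos⟩⟩
  -- representatives
  let P : Set (ℤ → ℕ → ℝ) → Prop := fun V => ∃ t ∈ Sph p, t ∈ Zs p G l ∧ Om (nm t) ∈ V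
  let rep : Set (ℤ → ℕ → ℝ) → Pt p := fun V => if h : P V then h.choose else 0
  have hrep : ∀ V, P V → rep V ∈ Sph p ∧ rep V ∈ Zs p G l ∧ Om (nm (rep V)) ∈ V := by
    intro V hV
    simp only [rep, dif_pos hV]
    exact hV.choose_spec
  let T : Finset (Pt p) := (s.filter P).image rep
  have hTcard : T.card ≤ s.card := Finset.card_image_le.trans (Finset.card_filter_le _ _)
  have hT : ∀ t ∈ T, t ∈ Sph p ∧ t ∈ Zs p G l := by
    intro t ht
    simp only [T, Finset.mem_image, Finset.mem_filter] at ht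
    obtain ⟨V, ⟨-, hV⟩, rfl⟩ := ht
    exact ⟨(hrep V hV).1, (hrep V hV).2.1⟩
  let E : Pt p → (Fin l → Bool) → ZMod p → ℝ := fun t q i => EQ G q (rot i t)
  let Good : Pt p → Finset (Fin B) := fun t => Finset.univ.filter (fun d : Fin B => 1 ≤ d.1 ∧
    (p : ℝ) / 8 ≤ FF (E t) ((d : ℕ) : ZMod p))
  have hGood : ∀ t ∈ Zs p G l, c3 * p ≤ ((Good t).card : ℝ) := by
    intro t ht
    rw [hc3]
    exact good_many h01 hG0 hG1 hl hlp ht
  set ρ : ℝ := Real.sqrt (p / 8 / R) with hρ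
  have hρ2 : ρ ^ 2 = p / 8 / R := Real.sq_sqrt (by positivity)
  have hρ0 : 0 ≤ ρ := Real.sqrt_nonneg _
  let Bad : Pt p → Fin B → Finset ((Fin l → Bool) → Fin n) := fun t d =>
    Finset.univ.filter (fun γ => ‖∑ q, ((γ q : ℕ) : ℂ) *
      FT (fun i => (E t q i : ℂ)) ((d : ℕ) : ZMod p)‖ < ρ / 2)
  obtain ⟨g, hg⟩ := union_bound (Γ := (Fin l → Bool) → Fin n) T B n a Bad Good (by
    intro t ht d hd
    simp only [Good, Finset.mem_filter, Finset.mem_univ, true_and] at hd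
    obtain ⟨q0, hq0⟩ := exists_large
      (fun q => FT (fun i => (E t q i : ℂ)) ((d : ℕ) : ZMod p)) (p / 8) hd.2
    exact small_ball n _ ρ q0 hq0) (by
    have h1 : ((T.card * 2 ^ B : ℕ) : ℝ) < ((n ^ a : ℕ) : ℝ) := by
      push_cast
      calc (T.card : ℝ) * 2 ^ B ≤ s.card * 2 ^ p := by
            gcongr
            norm_num
        _ < _ := hs1
    exact_mod_cast h1)
  -- the band
  let f : ℕ → Pt p → ℂ := fun c t => if h : c + 1 < B then
    ∑ q, ((g ⟨c + 1, h⟩ q : ℕ) : ℂ) * ((EQ G q t : ℝ) : ℂ) else 0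
  have hband : Cut p (p / 16) {t | ∀ c < p / 16, FT (EE (f c) t) ((c + 1 : ℕ) : ZMod p) = 0} := by
    apply cut_lin (p / 16) (fun c => ((c + 1 : ℕ) : ZMod p)) f
    · intro c hc
      have hc2 : c + 1 < B := by omega
      simp only [f, dif_pos hc2]
      apply continuousOn_finsetSum
      intro q _
      exact continuousOn_const.mul (Complex.continuous_ofReal.comp_continuousOn (EQ_cont hG q))
    · intro c hc
      exact nat_cast_ne_zero (Nat.succ_pos _) (by omega)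
  have hcut := (cut_Zs hG h01 l).inter hband
  have hempty : ∀ t ∈ Sph p, t ∈ Zs p G l ∩
      {t | ∀ c < p / 16, FT (EE (f c) t) ((c + 1 : ℕ) : ZMod p) = 0} → t ∈ (∅ : Set (Pt p)) := by
    rintro t htS ⟨htZ, htb⟩
    exfalso
    obtain ⟨V, hV, htV⟩ := hs2 _ htZ.1
    have hPV : P V := ⟨t, htS, htZ, htV⟩
    obtain ⟨hr1, hr2, hr3⟩ := hrep V hPV
    set t' := rep V with ht'
    have ht'T : t' ∈ T := by
      simp only [T, Finset.mem_image, Finset.mem_filter]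
      exact ⟨V, ⟨hV, hPV⟩, rfl⟩
    -- band functions vanish at t
    have hzero : ∀ d : Fin B, 1 ≤ d.1 → ∑ q, ((g d q : ℕ) : ℂ) *
        FT (fun i => (E t q i : ℂ)) ((d : ℕ) : ZMod p) = 0 := by
      intro d hd
      have h1 := htb (d.1 - 1) (by have := d.2; omega)
      have h2 : d.1 - 1 + 1 = d.1 := by omega
      rw [h2] at h1
      rw [← h1, ← FT_sum]
      congr 1
      funext i
      have h3 : d.1 - 1 + 1 < B := by rw [h2]; exact d.2
      have h4 : (⟨d.1 - 1 + 1, h3⟩ : Fin B) = d := Fin.ext h2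
      simp only [EE, f, dif_pos h3, h4, E]
    -- few bad frequencies at t'
    set A0 := (Good t').filter (fun d => g d ∈ Bad t' d) with hA0
    have hA0card : A0.card < a := by
      by_contra hcon
      push Not at hcon
      obtain ⟨A, hA1, hA2⟩ := Finset.exists_subset_card_eq hcon
      obtain ⟨d, hd, hd2⟩ := hg t' ht'T A (hA1.trans (Finset.filter_subset _ _)) hA2
      have := hA1 hd
      simp only [hA0, Finset.mem_filter] at this
      exact hd2 this.2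
    set Gd := (Good t').filter (fun d => ¬ g d ∈ Bad t' d) with hGd
    have hsum : A0.card + Gd.card = (Good t').card :=
      Finset.card_filter_add_card_filter_not _
    have hGdcard : c3 * p / 4 ≤ (Gd.card : ℝ) := by
      have h1 := hGood t' hr2
      have h2 : (a : ℝ) < c3 * p / 2 + 1 := Nat.ceil_lt_add_one (by linarith)
      have h3 : (A0.card : ℝ) + 1 ≤ a := by exact_mod_cast hA0card
      have h4 : (A0.card : ℝ) + Gd.card = (Good t').card := by exact_mod_cast hsum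
      linarith
    have hlow : ∀ d ∈ Gd, ρ ^ 2 / 4 ≤ ‖∑ q, ((g d q : ℕ) : ℂ) *
        (FT (fun i => (E t' q i : ℂ)) ((d : ℕ) : ZMod p) -
        FT (fun i => (E t q i : ℂ)) ((d : ℕ) : ZMod p))‖ ^ 2 := by
      intro d hd
      simp only [hGd, Bad, Good, Finset.mem_filter, Finset.mem_univ, true_and, not_lt] at hd
      have h1 : ∑ q, ((g d q : ℕ) : ℂ) * (FT (fun i => (E t' q i : ℂ)) ((d : ℕ) : ZMod p) -
        FT (fun i => (E t q i : ℂ)) ((d : ℕ) : ZMod p)) = ∑ q, ((g d q : ℕ) : ℂ) *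
        FT (fun i => (E t' q i : ℂ)) ((d : ℕ) : ZMod p) := by
        simp only [mul_sub]
        rw [Finset.sum_sub_distrib, hzero d hd.1.1, sub_zero]
      rw [h1]
      have h2 := hd.2
      calc ρ ^ 2 / 4 = (ρ / 2) ^ 2 := by ring
        _ ≤ _ := pow_le_pow_left₀ (by positivity) h2 2
    have hup := variation (E t) (E t') n B hBp g ((l : ℝ) ^ 2 * ε) (by
      intro q i
      apply EQ_diff h01
      intro k hk
      exact hs3 V hV _ hr3 _ htV k hk) Gd
    have h1 : (Gd.card : ℝ) * (ρ ^ 2 / 4) ≤ R ^ 2 * n ^ 2 * p ^ 2 * ((l : ℝ) ^ 2 * ε) := by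
      refine le_trans ?_ hup
      rw [← nsmul_eq_mul]
      exact Finset.card_nsmul_le_sum _ _ _ hlow
    rw [hρ2] at h1
    have h2 : c3 * p / 4 * (p / 8 / R / 4) ≤ R ^ 2 * n ^ 2 * p ^ 2 * ((l : ℝ) ^ 2 * ε) := by
      refine le_trans ?_ h1
      apply mul_le_mul_of_nonneg_right hGdcard (by positivity)
    have h3 : c3 * p / 4 * (p / 8 / R / 4) = c3 * p ^ 2 / (128 * R) := by
      field_simp
      ring
    rw [h3, div_le_iff₀ (by positivity)] at h2
    have h4 : c3 * (p : ℝ) ^ 2 ≤ (128 * R ^ 3 * n ^ 2 * l ^ 2 * ε) * p ^ 2 := by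
      calc c3 * (p : ℝ) ^ 2 ≤ R ^ 2 * n ^ 2 * p ^ 2 * ((l : ℝ) ^ 2 * ε) * (128 * R) := h2
        _ = _ := by ring
    have h5 : c3 ≤ 128 * R ^ 3 * n ^ 2 * l ^ 2 * ε :=
      le_of_mul_le_mul_right h4 (by positivity)
    linarith
  have hfin := borsuk_ulam (hcut.mono hempty)
  have := count_bound p l hp16
  omega

theorem no_G (G : (ℤ → ℕ → ℝ) → ℝ) (h : ℝ) (hG : Continuous G) (h01 : ∀ D, 0 ≤ G D ∧ G D ≤ 1)
    (hG0 : ∀ D ∈ XX, D 0 0 ≤ 1 / 3 → G D = 0) (hG1 : ∀ D ∈ XX, 2 / 3 ≤ D 0 0 → G D = 1)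
    (hcell : ∀ ε > 0, ∃ N : ℕ, ∀ n ≥ N, ∃ s : Finset (Set (ℤ → ℕ → ℝ)),
        (s.card : ℝ) ≤ Real.exp (h * n) ∧ (∀ D ∈ XX, ∃ V ∈ s, D ∈ V) ∧
        ∀ V ∈ s, ∀ D ∈ V, ∀ D' ∈ V, ∀ i < n, |G (sft (i : ℤ) D) - G (sft (i : ℤ) D')| < ε) :
    False := by
  obtain ⟨l, hl⟩ : ∃ l : ℕ, 2 ^ 26 ≤ l := ⟨_, le_rfl⟩
  have hRr : (0 : ℝ) < Fintype.card (Fin l → Bool) := by
    exact_mod_cast (Fintype.card_pos : 0 < Fintype.card (Fin l → Bool))
  set R : ℝ := (Fintype.card (Fin l → Bool) : ℝ) with hR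
  set c3 : ℝ := 1 / (8192 * R ^ 2) with hc3
  have hc3pos : 0 < c3 := by positivity
  obtain ⟨n0, hn0⟩ := exists_nat_gt (Real.exp ((h + Real.log 2) / (c3 / 2)))
  set n := n0 + 2 with hn
  have hnr : (0 : ℝ) < n := by rw [hn]; positivity
  have hlogn : (h + Real.log 2) / (c3 / 2) < Real.log n := by
    rw [Real.lt_log_iff_exp_lt hnr]
    refine hn0.trans ?_
    rw [hn]; push_cast; linarith
  have hlogn0 : 0 < Real.log n := by
    apply Real.log_pos
    rw [hn]; push_cast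
    have : (0 : ℝ) ≤ n0 := by positivity
    linarith
  have hlpos : (0 : ℝ) < l := by
    have : 0 < l := lt_of_lt_of_le (by norm_num) hl
    exact_mod_cast this
  set ε : ℝ := c3 / (256 * R ^ 3 * n ^ 2 * l ^ 2) with hε
  have hεpos : 0 < ε := by positivity
  obtain ⟨N, hN⟩ := hcell ε hεpos
  obtain ⟨m, hm⟩ := exists_nat_gt (4 / c3)
  obtain ⟨p, hpge, hpprime⟩ := Nat.exists_infinite_primes (max (max N l) (max 16 m))
  have : Fact p.Prime := ⟨hpprime⟩
  have hpr := p_pos p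
  have hpN : N ≤ p := ((le_max_left _ _).trans (le_max_left _ _)).trans hpge
  have hpl : l ≤ p := ((le_max_right _ _).trans (le_max_left _ _)).trans hpge
  have hp16 : 16 ≤ p := ((le_max_left _ _).trans (le_max_right _ _)).trans hpge
  have hpm : m ≤ p := ((le_max_right _ _).trans (le_max_right _ _)).trans hpge
  obtain ⟨s, hs1, hs2, hs3⟩ := hN p hpN
  refine prime_step hG h01 hG0 hG1 hl hpl hp16 n (by omega) c3 hc3 ?_ ε hεpos ?_ s ?_ hs2 hs3
  · have h1 : 4 / c3 ≤ p := by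
      have : (m : ℝ) ≤ p := by exact_mod_cast hpm
      linarith
    rw [div_le_iff₀ hc3pos] at h1
    linarith
  · have h1 : 128 * R ^ 3 * n ^ 2 * l ^ 2 * ε = c3 / 2 := by
      rw [hε]
      field_simp
      norm_num
    rw [h1]
    linarith
  · have h1 : (h + Real.log 2) < Real.log n * (c3 / 2) := by
      rwa [div_lt_iff₀ (by positivity)] at hlogn
    have h2 : c3 * p / 2 ≤ (⌈c3 * p / 2⌉₊ : ℝ) := Nat.le_ceil _
    calc (s.card : ℝ) * 2 ^ p ≤ Real.exp (h * p) * 2 ^ p := by gcongr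
      _ = Real.exp (p * (h + Real.log 2)) := by
          have : (2 : ℝ) ^ p = Real.exp (p * Real.log 2) := by
            rw [Real.exp_nat_mul, Real.exp_log (by norm_num)]
          rw [this, ← Real.exp_add]
          congr 1
          ring
      _ < Real.exp (p * (Real.log n * (c3 / 2))) := by
          apply Real.exp_lt_exp.2
          exact mul_lt_mul_of_pos_left h1 hpr
      _ = Real.exp ((c3 * p / 2) * Real.log n) := by
          congr 1
          ring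
      _ ≤ Real.exp ((⌈c3 * p / 2⌉₊ : ℝ) * Real.log n) := by
          apply Real.exp_le_exp.2
          exact mul_le_mul_of_nonneg_right h2 hlogn0.le
      _ = (n : ℝ) ^ (⌈c3 * p / 2⌉₊) := by
          rw [Real.exp_nat_mul, Real.exp_log hnr]

end Pool.Agent.Work.MP_cda452_an
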