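import Pool.Agent.Work.MP_cda452_an.Label

set_option autoImplicit false
set_option linter.unusedSectionVars false

namespace Pool.Agent.Work.MP_cda452_an

open Real

section
variable {p : ℕ} [Fact p.Prime]

/-- Normalised angle. -/
noncomputable def th (p : ℕ) (z : ℂ) : ℝ := p * (Complex.arg z / (2 * π))

theorem arg_of_exp {z : ℂ} (hz : z ≠ 0) {a : ℝ}
    (h : z = ‖z‖ * Complex.exp (a * Complex.I)) : ∃ n : ℤ, Complex.arg z = a + n * (2 * π) := by
  have h1 : Complex.exp (Complex.arg z * Complex.I) = Complex.exp (a * Complex.I) := by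
    have h2 := Complex.norm_mul_exp_arg_mul_I z
    have h3 : (‖z‖ : ℂ) ≠ 0 := by simpa using hz
    apply mul_left_cancel₀ h3
    rw [h2, ← h]
  rw [Complex.exp_eq_exp_iff_exists_int] at h1
  obtain ⟨n, hn⟩ := h1
  refine ⟨n, ?_⟩
  have h4 : (Complex.arg z : ℂ) = a + n * (2 * π) := by
    have hI : Complex.I ≠ 0 := Complex.I_ne_zero
    apply mul_right_cancel₀ hI
    rw [hn]; ring
  exact_mod_cast h4

theorem stdAddChar_exp (ξ : ZMod p) :
    (ZMod.stdAddChar ξ : ℂ) = Complex.exp ((2 * π * (ξ.val / p) : ℝ) * Complex.I) := by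
  rw [ZMod.stdAddChar_apply, ZMod.toCircle_apply]
  congr 1
  push_cast
  ring

theorem norm_stdAddChar (ξ : ZMod p) : ‖(ZMod.stdAddChar ξ : ℂ)‖ = 1 := by
  rw [ZMod.stdAddChar_apply]
  simp

theorem th_mul_char {z : ℂ} (hz : z ≠ 0) (ξ : ZMod p) :
    ∃ n : ℤ, th p (ZMod.stdAddChar ξ * z) = th p z + ξ.val + p * n := by
  have hw : (ZMod.stdAddChar ξ * z : ℂ) ≠ 0 := by
    apply mul_ne_zero _ hz
    rw [← norm_ne_zero_iff, norm_stdAddChar]
    norm_num
  have h1 : (ZMod.stdAddChar ξ * z : ℂ) = ‖(ZMod.stdAddChar ξ * z : ℂ)‖ *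
      Complex.exp (((Complex.arg z + 2 * π * (ξ.val / p) : ℝ) : ℂ) * Complex.I) := by
    rw [norm_mul, norm_stdAddChar, one_mul]
    push_cast
    rw [add_mul, Complex.exp_add]
    conv_lhs => rw [← Complex.norm_mul_exp_arg_mul_I z]
    rw [stdAddChar_exp]
    push_cast
    ring
  obtain ⟨n, hn⟩ := arg_of_exp hw h1
  refine ⟨n, ?_⟩
  have hp : (p : ℝ) ≠ 0 := by
    have := (Fact.out : p.Prime).pos
    positivity
  unfold th
  rw [hn]
  field_simp

theorem th_close (p : ℕ) [Fact p.Prime] : ∃ κ > 0, ∀ z z' : ℂ, z ≠ 0 → z' ≠ 0 →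
    ‖z' - z‖ ≤ κ * ‖z‖ → ∃ n : ℤ, ∃ τ : ℝ, |τ| < 1 / 2 ∧ th p z' = th p z + τ + p * n := by
  have hp : (0 : ℝ) < p := by exact_mod_cast (Fact.out : p.Prime).pos
  have hc : ContinuousAt Complex.arg 1 := by
    apply Complex.continuousAt_arg
    simp [Complex.slitPlane]
  rw [Metric.continuousAt_iff] at hc
  obtain ⟨δ, hδ, h⟩ := hc (π / p) (by positivity)
  refine ⟨δ / 2, by positivity, ?_⟩
  intro z z' hz hz' hzz
  have hw : z' / z ≠ 0 := div_ne_zero hz' hz
  have h1 : dist (z' / z) 1 < δ := by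
    rw [dist_eq_norm]
    have : z' / z - 1 = (z' - z) / z := by field_simp
    rw [this, norm_div]
    have hzn : 0 < ‖z‖ := norm_pos_iff.2 hz
    calc ‖z' - z‖ / ‖z‖ ≤ δ / 2 * ‖z‖ / ‖z‖ := by gcongr
      _ = δ / 2 := by field_simp
      _ < δ := by linarith
  have h2 := h h1
  rw [Complex.arg_one, Real.dist_eq, sub_zero] at h2
  have h3 : z' = ‖z'‖ * Complex.exp (((Complex.arg z + Complex.arg (z' / z) : ℝ) : ℂ) *
      Complex.I) := by
    push_cast
    rw [add_mul, Complex.exp_add]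
    have e1 := Complex.norm_mul_exp_arg_mul_I z
    have e2 := Complex.norm_mul_exp_arg_mul_I (z' / z)
    have e3 : (‖z'‖ : ℂ) = ‖z‖ * ‖z' / z‖ := by
      rw [norm_div]
      have : (‖z‖ : ℂ) ≠ 0 := by simpa using hz
      push_cast
      field_simp
    rw [e3]
    calc z' = z * (z' / z) := by field_simp
      _ = (‖z‖ * Complex.exp (z.arg * Complex.I)) *
          (‖z' / z‖ * Complex.exp ((z' / z).arg * Complex.I)) := by rw [e1, e2]
      _ = _ := by ring
  obtain ⟨n, hn⟩ := arg_of_exp hz' h3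
  refine ⟨n, p * (Complex.arg (z' / z) / (2 * π)), ?_, ?_⟩
  · rw [abs_mul, abs_div, abs_of_pos hp, abs_of_pos (by positivity : 0 < 2 * π)]
    rw [lt_div_iff₀ hp] at h2
    rw [← mul_div_assoc, div_lt_div_iff₀ (by positivity) (by norm_num)]
    nlinarith
  · unfold th
    rw [hn]
    field_simp

/-- Type of a nonzero complex number. -/
noncomputable def ty (p : ℕ) (z : ℂ) : ℕ := if Int.fract (th p z) < 1 / 2 then 0 else 1

/-- Phase of a nonzero complex number. -/
noncomputable def ph (p : ℕ) (z : ℂ) : ZMod p := (⌊th p z⌋ : ZMod p)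

theorem ty_mul_char {z : ℂ} (hz : z ≠ 0) (ξ : ZMod p) :
    ty p (ZMod.stdAddChar ξ * z) = ty p z := by
  obtain ⟨n, hn⟩ := th_mul_char hz ξ
  unfold ty
  have : Int.fract (th p (ZMod.stdAddChar ξ * z)) = Int.fract (th p z) := by
    rw [hn, Int.fract_eq_fract]
    exact ⟨ξ.val + p * n, by push_cast; ring⟩
  rw [this]

theorem ph_mul_char {z : ℂ} (hz : z ≠ 0) (ξ : ZMod p) :
    ph p (ZMod.stdAddChar ξ * z) = ph p z + ξ := by
  obtain ⟨n, hn⟩ := th_mul_char hz ξ
  unfold ph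
  have : ⌊th p (ZMod.stdAddChar ξ * z)⌋ = ⌊th p z⌋ + ((ξ.val : ℤ) + p * n) := by
    rw [hn]
    have : th p z + (ξ.val : ℝ) + p * n = th p z + (((ξ.val : ℤ) + p * n : ℤ) : ℝ) := by
      push_cast; ring
    rw [this, Int.floor_add_intCast]
  rw [this]
  push_cast
  simp

theorem ph_close (p : ℕ) [Fact p.Prime] : ∃ κ > 0, ∀ z z' : ℂ, z ≠ 0 → z' ≠ 0 →
    ‖z' - z‖ ≤ κ * ‖z‖ → ty p z = ty p z' → ph p z = ph p z' := by
  obtain ⟨κ, hκ, h⟩ := th_close p
  refine ⟨κ, hκ, ?_⟩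
  intro z z' hz hz' hzz hty
  obtain ⟨n, τ, hτ, hn⟩ := h z z' hz hz' hzz
  have hf : |Int.fract (th p z') - Int.fract (th p z)| < 1 / 2 := by
    have a1 := Int.fract_nonneg (th p z)
    have a2 := Int.fract_nonneg (th p z')
    have a3 := Int.fract_lt_one (th p z)
    have a4 := Int.fract_lt_one (th p z')
    unfold ty at hty
    rw [abs_lt]
    by_cases b1 : Int.fract (th p z) < 1 / 2 <;> by_cases b2 : Int.fract (th p z') < 1 / 2
    · constructor <;> linarith
    · rw [if_pos b1, if_neg b2] at hty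
      exact absurd hty (by norm_num)
    · rw [if_neg b1, if_pos b2] at hty
      exact absurd hty (by norm_num)
    · push Not at b1 b2
      constructor <;> linarith
  have e1 := Int.floor_add_fract (th p z)
  have e2 := Int.floor_add_fract (th p z')
  have hk : |((⌊th p z'⌋ - ⌊th p z⌋ - p * n : ℤ) : ℝ)| < 1 := by
    have : ((⌊th p z'⌋ - ⌊th p z⌋ - p * n : ℤ) : ℝ) =
        τ - (Int.fract (th p z') - Int.fract (th p z)) := by
      push_cast
      linarith
    rw [this]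
    calc |τ - (Int.fract (th p z') - Int.fract (th p z))| ≤
        |τ| + |Int.fract (th p z') - Int.fract (th p z)| := abs_sub _ _
      _ < 1 := by linarith
  have hk2 : ⌊th p z'⌋ - ⌊th p z⌋ - p * n = 0 := by
    rw [← Int.abs_lt_one_iff]
    exact_mod_cast hk
  unfold ph
  have hk3 : ⌊th p z'⌋ = ⌊th p z⌋ + p * n := by linarith
  rw [hk3]
  push_cast
  simp

end

end Pool.Agent.Work.MP_cda452_an
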