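import Pool.Agent.Work.MP_cda452_an.Angle

set_option autoImplicit false
set_option linter.unusedSectionVars false

namespace Pool.Agent.Work.MP_cda452_an

section
variable {p : ℕ} [Fact p.Prime]

/-- `Cut m Z`: there are `m` continuous equivariant complex functions, with nontrivial
characters, on the boundary of the simplex, whose common zeros lie in `Z`. -/
def Cut (p : ℕ) [Fact p.Prime] (m : ℕ) (Z : Set (Pt p)) : Prop :=
  ∃ (ψ : ℕ → Pt p → ℂ) (ξ : ℕ → ZMod p), (∀ c < m, ContinuousOn (ψ c) (Sph p)) ∧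
    (∀ c < m, ξ c ≠ 0) ∧
    (∀ c < m, ∀ t ∈ Sph p, ψ c (rot 1 t) = ZMod.stdAddChar (ξ c) * ψ c t) ∧
    ∀ t ∈ Sph p, (∀ c < m, ψ c t = 0) → t ∈ Z

theorem Cut.mono {m : ℕ} {Z Z' : Set (Pt p)} (h : Cut p m Z)
    (hZ : ∀ t ∈ Sph p, t ∈ Z → t ∈ Z') : Cut p m Z' := by
  obtain ⟨ψ, ξ, h1, h2, h3, h4⟩ := h
  exact ⟨ψ, ξ, h1, h2, h3, fun t ht h => hZ t ht (h4 t ht h)⟩

theorem Cut.inter {m m' : ℕ} {Z Z' : Set (Pt p)} (h : Cut p m Z) (h' : Cut p m' Z') :
    Cut p (m + m') (Z ∩ Z') := by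
  obtain ⟨ψ, ξ, h1, h2, h3, h4⟩ := h
  obtain ⟨ψ', ξ', h1', h2', h3', h4'⟩ := h'
  refine ⟨fun c => if c < m then ψ c else ψ' (c - m), fun c => if c < m then ξ c else ξ' (c - m),
    ?_, ?_, ?_, ?_⟩
  · intro c hc
    by_cases hcm : c < m
    · simp only [hcm, if_true]; exact h1 c hcm
    · simp only [hcm, if_false]; exact h1' _ (by omega)
  · intro c hc
    by_cases hcm : c < m
    · simp only [hcm, if_true]; exact h2 c hcm
    · simp only [hcm, if_false]; exact h2' _ (by omega)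
  · intro c hc
    by_cases hcm : c < m
    · simp only [hcm, if_true]; exact h3 c hcm
    · simp only [hcm, if_false]; exact h3' _ (by omega)
  · intro t ht h
    refine ⟨h4 t ht ?_, h4' t ht ?_⟩
    · intro c hc
      have := h c (by omega)
      simpa [hc] using this
    · intro c hc
      have := h (c + m) (by omega)
      simpa using this

theorem Cut.univ : Cut p 0 Set.univ :=
  ⟨fun _ _ => 0, fun _ => 0, fun c hc => absurd hc (Nat.not_lt_zero c),
    fun c hc => absurd hc (Nat.not_lt_zero c), fun c hc => absurd hc (Nat.not_lt_zero c),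
    fun _ _ _ => trivial⟩

theorem Cut.iInter {J : ℕ} {m : ℕ → ℕ} {Z : ℕ → Set (Pt p)} (h : ∀ j < J, Cut p (m j) (Z j)) :
    Cut p (∑ j ∈ Finset.range J, m j) {t | ∀ j < J, t ∈ Z j} := by
  induction J with
  | zero => simpa using (Cut.univ (p := p))
  | succ J ih =>
    rw [Finset.sum_range_succ]
    refine ((ih (fun j hj => h j (by omega))).inter (h J (Nat.lt_succ_self J))).mono ?_
    rintro t _ ⟨h1, h2⟩ j hj
    rcases Nat.lt_succ_iff_lt_or_eq.1 hj with h3 | rfl
    · exact h1 j h3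
    · exact h2

theorem isCompact_Sph : IsCompact (Sph p) := by
  have h1 : IsClosed (Sph p) := by
    have : Sph p = ({t | ∀ i, 0 ≤ t i} ∩ {t | ∑ i, t i = 1}) ∩ ⋃ i : ZMod p, {t | t i = 0} := by
      ext t
      simp only [Sph, Set.mem_inter_iff, Set.mem_iUnion, Set.mem_ofPred_eq]
      tauto
    rw [this]
    refine (IsClosed.inter ?_ ?_).inter ?_
    · simp only [Set.ofPred_forall]
      exact isClosed_iInter (fun i => isClosed_le continuous_const (continuous_apply i))
    · exact isClosed_eq (continuous_finsetSum _ (fun i _ => continuous_apply i)) continuous_const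
    · exact isClosed_iUnion_of_finite (fun i => isClosed_eq (continuous_apply i) continuous_const)
  have h2 : Sph p ⊆ Set.Icc (fun _ => 0) (fun _ => 1) := by
    intro t ht
    refine ⟨fun i => ht.1 i, fun i => ?_⟩
    rw [← ht.2.1]
    exact Finset.single_le_sum (fun j _ => ht.1 j) (Finset.mem_univ i)
  exact isCompact_Icc.of_isClosed_subset h1 h2

/-- The `Z_p` Borsuk–Ulam theorem. -/
theorem borsuk_ulam {m : ℕ} (h : Cut p m ∅) : p < 2 * m + 2 := by
  by_contra hm
  push Not at hm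
  obtain ⟨ψ, ξ, h1, h2, h3, h4⟩ := h
  obtain ⟨κ, hκ, hclose⟩ := ph_close p
  -- a uniform lower bound
  obtain ⟨η, hη, hlow⟩ : ∃ η > 0, ∀ t ∈ Sph p, ∃ c < m, η ≤ ‖ψ c t‖ := by
    rcases Set.eq_empty_or_nonempty (Sph p) with he | hne
    · exact ⟨1, one_pos, fun t ht => by rw [he] at ht; exact absurd ht (Set.notMem_empty t)⟩
    · have hcont : ContinuousOn (fun t => ∑ c ∈ Finset.range m, ‖ψ c t‖) (Sph p) :=
        continuousOn_finsetSum _ (fun c hc => (h1 c (Finset.mem_range.1 hc)).norm)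
      obtain ⟨t0, ht0, hmin⟩ := isCompact_Sph.exists_isMinOn hne hcont
      have hpos : 0 < ∑ c ∈ Finset.range m, ‖ψ c t0‖ := by
        by_contra hle
        push Not at hle
        have hz : ∑ c ∈ Finset.range m, ‖ψ c t0‖ = 0 :=
          le_antisymm hle (Finset.sum_nonneg (fun _ _ => norm_nonneg _))
        rw [Finset.sum_eq_zero_iff_of_nonneg (fun _ _ => norm_nonneg _)] at hz
        exact h4 t0 ht0 (fun c hc => norm_eq_zero.1 (hz c (Finset.mem_range.2 hc)))
      refine ⟨(∑ c ∈ Finset.range m, ‖ψ c t0‖) / (m + 1), by positivity, ?_⟩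
      intro t ht
      by_contra hcon
      push Not at hcon
      have h5 : ∑ c ∈ Finset.range m, ‖ψ c t0‖ ≤ ∑ c ∈ Finset.range m, ‖ψ c t‖ := hmin ht
      have h6 : ∑ c ∈ Finset.range m, ‖ψ c t‖ ≤
          ∑ c ∈ Finset.range m, (∑ c ∈ Finset.range m, ‖ψ c t0‖) / (m + 1) :=
        Finset.sum_le_sum (fun c hc => (hcon c (Finset.mem_range.1 hc)).le)
      rw [Finset.sum_const, Finset.card_range, nsmul_eq_mul] at h6
      have h7 : (m : ℝ) * ((∑ c ∈ Finset.range m, ‖ψ c t0‖) / (m + 1)) <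
          ∑ c ∈ Finset.range m, ‖ψ c t0‖ := by
        rw [mul_div_assoc', div_lt_iff₀ (by positivity)]
        nlinarith
      linarith
  -- uniform continuity
  have huc : ∃ δ > 0, ∀ c < m, ∀ t ∈ Sph p, ∀ t' ∈ Sph p, dist t t' ≤ δ →
      ‖ψ c t' - ψ c t‖ ≤ κ * η := by
    have h5 : ∀ c < m, ∃ δ > 0, ∀ t ∈ Sph p, ∀ t' ∈ Sph p, dist t t' ≤ δ →
      ‖ψ c t' - ψ c t‖ ≤ κ * η := by
      intro c hc
      have h6 := isCompact_Sph.uniformContinuousOn_of_continuous (h1 c hc)
      rw [Metric.uniformContinuousOn_iff_le] at h6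
      obtain ⟨δ, hδ, h7⟩ := h6 (κ * η) (by positivity)
      refine ⟨δ, hδ, fun t ht t' ht' hd => ?_⟩
      rw [← dist_eq_norm, dist_comm]
      exact h7 t ht t' ht' hd
    clear hlow hm h1 h2 h3 h4
    induction m with
    | zero => exact ⟨1, one_pos, fun c hc => absurd hc (Nat.not_lt_zero c)⟩
    | succ m ih =>
      obtain ⟨δ1, hδ1, h6⟩ := ih (fun c hc => h5 c (by omega))
      obtain ⟨δ2, hδ2, h7⟩ := h5 m (Nat.lt_succ_self m)
      refine ⟨min δ1 δ2, lt_min hδ1 hδ2, fun c hc t ht t' ht' hd => ?_⟩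
      rcases Nat.lt_succ_iff_lt_or_eq.1 hc with h8 | rfl
      · exact h6 c h8 t ht t' ht' (hd.trans (min_le_left _ _))
      · exact h7 t ht t' ht' (hd.trans (min_le_right _ _))
  obtain ⟨δ, hδ, huc⟩ := huc
  -- the label
  let C : Pt p → Set ℕ := fun t => {c | c < m ∧ η ≤ ‖ψ c t‖}
  let cc0 : Pt p → ℕ := fun t => sInf (C t)
  have hC : ∀ t ∈ Sph p, cc0 t ∈ C t := fun t ht => Nat.sInf_mem (hlow t ht)
  have hne : ∀ t ∈ Sph p, ψ (cc0 t) t ≠ 0 := by
    intro t ht h0
    have := (hC t ht).2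
    rw [h0, norm_zero] at this
    linarith
  have hCrot : ∀ t ∈ Sph p, C (rot 1 t) = C t := by
    intro t ht
    ext c
    simp only [C, Set.mem_ofPred_eq]
    constructor
    · rintro ⟨hc, h⟩
      rw [h3 c hc t ht, norm_mul, norm_stdAddChar, one_mul] at h
      exact ⟨hc, h⟩
    · rintro ⟨hc, h⟩
      rw [h3 c hc t ht, norm_mul, norm_stdAddChar, one_mul]
      exact ⟨hc, h⟩
  let lam : Pt p → Lb p := fun t =>
    (2 * cc0 t + ty p (ψ (cc0 t) t), ph p (ψ (cc0 t) t) * (ξ (cc0 t))⁻¹)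
  have hty : ∀ z, ty p z < 2 := by
    intro z; unfold ty; split_ifs <;> norm_num
  have hrot1 : ∀ t ∈ Sph p, lam (rot 1 t) = rL 1 (lam t) := by
    intro t ht
    have e1 : cc0 (rot 1 t) = cc0 t := by
      simp only [cc0, hCrot t ht]
    have hcm := (hC t ht).1
    simp only [lam, rL, e1]
    rw [h3 _ hcm t ht, ty_mul_char (hne t ht), ph_mul_char (hne t ht)]
    congr 1
    rw [add_mul, mul_inv_cancel₀ (h2 _ hcm)]
  have hrotn : ∀ n : ℕ, ∀ t ∈ Sph p, lam (rot (n : ZMod p) t) = rL (n : ZMod p) (lam t) := by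
    intro n
    induction n with
    | zero =>
      intro t ht
      have : rot ((0 : ℕ) : ZMod p) t = t := by funext i; simp [rot]
      rw [this]
      simp [rL]
    | succ n ih =>
      intro t ht
      have : rot ((n + 1 : ℕ) : ZMod p) t = rot 1 (rot (n : ZMod p) t) := by
        rw [rot_rot]; push_cast; rw [add_comm]
      rw [this, hrot1 _ (rot_Sph _ ht), ih t ht]
      simp [rL, add_assoc]
  refine no_label (p := p) (M := 2 * m) (by omega) lam ?_ ?_ ?_
  · intro j t ht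
    have := hrotn j.val t ht
    rwa [ZMod.natCast_zmod_val] at this
  · intro t ht
    have h5 := (hC t ht).1
    have h6 := hty (ψ (cc0 t) t)
    simp only [lam]
    omega
  · refine ⟨δ, hδ, ?_⟩
    intro t ht t' ht' hd hlam
    simp only [lam] at hlam
    have a1 := hty (ψ (cc0 t) t)
    have a2 := hty (ψ (cc0 t') t')
    have a3 : cc0 t = cc0 t' := by omega
    have a4 : ty p (ψ (cc0 t) t) = ty p (ψ (cc0 t') t') := by omega
    have a5 : ph p (ψ (cc0 t) t) = ph p (ψ (cc0 t') t') := by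
      apply hclose _ _ (hne t ht) (hne t' ht') _ a4
      rw [← a3]
      refine (huc _ (hC t ht).1 t ht t' ht' hd).trans ?_
      exact mul_le_mul_of_nonneg_left (hC t ht).2 hκ.le
    simp only [lam]
    rw [a4, a5, ← a3]

end

end Pool.Agent.Work.MP_cda452_an
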