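import Pool.Agent.Work.MP_cda452_an.Space

set_option autoImplicit false
set_option linter.unusedSectionVars false

namespace Pool.Agent.Work.MP_cda452_an

open Filter Topology

theorem sep_index {X Y : Type} [TopologicalSpace X] [CompactSpace X] [TopologicalSpace Y]
    [T2Space Y] (π : ℕ → X → Y) (hπ : ∀ m, Continuous (π m)) (lo hi : Set X)
    (hlo : IsClosed lo) (hhi : IsClosed hi) (hd : Disjoint lo hi)
    (hsep : ∀ x y, (∀ m, π m x = π m y) → x = y) :
    ∃ M : ℕ, ∀ x ∈ lo, ∀ y ∈ hi, ∃ m < M, π m x ≠ π m y := by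
  have hc : IsCompact (lo ×ˢ hi) := hlo.isCompact.prod hhi.isCompact
  obtain ⟨M, hM⟩ := hc.elim_directed_family_closed
    (fun M : ℕ => {z : X × X | ∀ m < M, π m z.1 = π m z.2}) (by
      intro M
      simp only [Set.ofPred_forall]
      refine isClosed_iInter (fun m => isClosed_iInter (fun _ => ?_))
      exact isClosed_eq ((hπ m).comp continuous_fst) ((hπ m).comp continuous_snd)) (by
      rw [Set.eq_empty_iff_forall_notMem]
      rintro ⟨x, y⟩ ⟨hxy, hz⟩
      rw [Set.mem_iInter] at hz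
      have : x = y := hsep x y (fun m => hz (m + 1) m (Nat.lt_succ_self m))
      subst this
      exact Set.disjoint_left.1 hd hxy.1 hxy.2) (by
      apply Antitone.directed_ge
      intro a b hab z hz m hm
      exact hz m (hm.trans_le hab))
  refine ⟨M, fun x hx y hy => ?_⟩
  by_contra hcon
  push Not at hcon
  have : (x, y) ∈ (lo ×ˢ hi) ∩ {z : X × X | ∀ m < M, π m z.1 = π m z.2} := ⟨⟨hx, hy⟩, hcon⟩
  rw [hM] at this
  exact this

/-- Finite entropy of finitely many factors gives few cells for a continuous function of them. -/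
theorem cells {X Y : Type} [TopologicalSpace X] [CompactSpace X] [TopologicalSpace Y]
    [TopologicalSpace.MetrizableSpace Y] [AddAction (Fin 1 → ℤ) X] (M : ℕ) (π : Fin M → X → Y)
    (hπ : ∀ m, Continuous (π m)) (C : Fin M → ℝ)
    (hC : ∀ m, ∀ α : Finset (Set Y), (∀ W ∈ α, IsOpen W) → (∀ x : X, ∃ W ∈ α, π m x ∈ W) →
      ∀ᶠ n : ℕ in atTop, ∃ s : Finset ((Fin 1 → ℤ) → Set Y),
          (∀ c ∈ s, ∀ g : Fin 1 → ℤ, (∀ i, 0 ≤ g i ∧ g i < (n : ℤ)) → c g ∈ α) ∧
          (∀ x : X, ∃ c ∈ s, ∀ g : Fin 1 → ℤ, (∀ i, 0 ≤ g i ∧ g i < (n : ℤ)) →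
            π m (g +ᵥ x) ∈ c g) ∧
          Real.log (s.card : ℝ) ≤ C m * (n : ℝ) ^ 1)
    (f : (Fin M → Y) → ℝ) (hf : Continuous f) (ε : ℝ) (hε : 0 < ε) :
    ∀ᶠ n : ℕ in atTop, ∃ s : Finset (Set X), (s.card : ℝ) ≤ Real.exp ((∑ m, C m) * n) ∧
      (∀ x : X, ∃ V ∈ s, x ∈ V) ∧ ∀ V ∈ s, ∀ x ∈ V, ∀ y ∈ V, ∀ g : Fin 1 → ℤ,
        (∀ i, 0 ≤ g i ∧ g i < (n : ℤ)) →
        |f (fun m => π m (g +ᵥ x)) - f (fun m => π m (g +ᵥ y))| < ε := by
  classical
  let _ : MetricSpace Y := TopologicalSpace.metrizableSpaceMetric Y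
  have hPi : Continuous (fun x : X => fun m => π m x) := continuous_pi hπ
  have hK : IsCompact (Set.range (fun x : X => fun m => π m x)) := isCompact_range hPi
  have huc := hK.uniformContinuousOn_of_continuous hf.continuousOn
  rw [Metric.uniformContinuousOn_iff] at huc
  obtain ⟨δ, hδ, huc⟩ := huc ε hε
  have hα : ∀ m, ∃ α : Finset (Set Y), (∀ W ∈ α, IsOpen W) ∧ (∀ x : X, ∃ W ∈ α, π m x ∈ W) ∧
      ∀ W ∈ α, ∀ y ∈ W, ∀ y' ∈ W, dist y y' < δ := by
    intro m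
    obtain ⟨t, -, htf, hcov⟩ := finite_cover_balls_of_compact
      (isCompact_range (hπ m)) (half_pos hδ)
    refine ⟨htf.toFinset.image (fun y => Metric.ball y (δ / 2)), ?_, ?_, ?_⟩
    · intro W hW
      rw [Finset.mem_image] at hW
      obtain ⟨y, -, rfl⟩ := hW
      exact Metric.isOpen_ball
    · intro x
      have := hcov (Set.mem_range_self x)
      simp only [Set.mem_iUnion] at this
      obtain ⟨y, hy, hxy⟩ := this
      exact ⟨_, Finset.mem_image_of_mem _ (htf.mem_toFinset.2 hy), hxy⟩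
    · intro W hW y hy y' hy'
      rw [Finset.mem_image] at hW
      obtain ⟨z, -, rfl⟩ := hW
      rw [Metric.mem_ball] at hy hy'
      calc dist y y' ≤ dist y z + dist y' z := dist_triangle_right _ _ _
        _ < δ := by linarith
  choose α hα1 hα2 hα3 using hα
  have hev : ∀ᶠ n : ℕ in atTop, ∀ m, ∃ s : Finset ((Fin 1 → ℤ) → Set Y),
          (∀ c ∈ s, ∀ g : Fin 1 → ℤ, (∀ i, 0 ≤ g i ∧ g i < (n : ℤ)) → c g ∈ α m) ∧
          (∀ x : X, ∃ c ∈ s, ∀ g : Fin 1 → ℤ, (∀ i, 0 ≤ g i ∧ g i < (n : ℤ)) →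
            π m (g +ᵥ x) ∈ c g) ∧
          Real.log (s.card : ℝ) ≤ C m * (n : ℝ) ^ 1 := by
    rw [eventually_all]
    intro m
    exact hC m (α m) (hα1 m) (hα2 m)
  filter_upwards [hev] with n hn
  choose s hs1 hs2 hs3 using hn
  let P := Fintype.piFinset s
  refine ⟨P.image (fun c => {x : X | ∀ m, ∀ g : Fin 1 → ℤ, (∀ i, 0 ≤ g i ∧ g i < (n : ℤ)) →
    π m (g +ᵥ x) ∈ c m g}), ?_, ?_, ?_⟩
  · calc ((P.image _).card : ℝ) ≤ (P.card : ℝ) := by exact_mod_cast Finset.card_image_le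
      _ = ∏ m, ((s m).card : ℝ) := by
          simp only [P, Fintype.card_piFinset]
          push_cast
          rfl
      _ ≤ ∏ m, Real.exp (C m * n) := by
          apply Finset.prod_le_prod
          · intro m _; positivity
          · intro m _
            rcases Nat.eq_zero_or_pos (s m).card with h0 | h0
            · rw [h0]; simp [Real.exp_nonneg]
            · have h1 := hs3 m
              rw [pow_one] at h1
              have h2 : (0 : ℝ) < (s m).card := by exact_mod_cast h0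
              rw [← Real.exp_log h2]
              exact Real.exp_le_exp.2 h1
      _ = Real.exp ((∑ m, C m) * n) := by
          rw [← Real.exp_sum, Finset.sum_mul]
  · intro x
    choose c hc1 hc2 using fun m => hs2 m x
    refine ⟨_, Finset.mem_image_of_mem _ (Fintype.mem_piFinset.2 hc1), ?_⟩
    exact fun m g hg => hc2 m g hg
  · intro V hV x hx y hy g hg
    rw [Finset.mem_image] at hV
    obtain ⟨c, hc, rfl⟩ := hV
    rw [Fintype.mem_piFinset] at hc
    have h1 : dist (fun m => π m (g +ᵥ x)) (fun m => π m (g +ᵥ y)) < δ := by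
      rw [dist_pi_lt_iff hδ]
      intro m
      exact hα3 m (c m g) (hs1 m (c m) (hc m) g hg) _ (hx m g hg) _ (hy m g hg)
    have h2 := huc _ (Set.mem_range_self (g +ᵥ x)) _ (Set.mem_range_self (g +ᵥ y)) h1
    rwa [Real.dist_eq] at h2

/-- From a countable separating family of finite-entropy factors of `X` to a single function. -/
theorem exists_G (π : ℕ → X → (ℕ → ℝ)) (hπ : ∀ m, Continuous (π m))
    (hC : ∀ m, ∃ C : ℝ, ∀ α : Finset (Set (ℕ → ℝ)), (∀ W ∈ α, IsOpen W) →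
        (∀ x : X, ∃ W ∈ α, π m x ∈ W) →
        ∀ᶠ n : ℕ in atTop, ∃ s : Finset ((Fin 1 → ℤ) → Set (ℕ → ℝ)),
          (∀ c ∈ s, ∀ g : Fin 1 → ℤ, (∀ i, 0 ≤ g i ∧ g i < (n : ℤ)) → c g ∈ α) ∧
          (∀ x : X, ∃ c ∈ s, ∀ g : Fin 1 → ℤ, (∀ i, 0 ≤ g i ∧ g i < (n : ℤ)) →
            π m (g +ᵥ x) ∈ c g) ∧
          Real.log (s.card : ℝ) ≤ C * (n : ℝ) ^ 1)
    (hsep : ∀ x y : X, (∀ m, π m x = π m y) → x = y) :
    ∃ (G : (ℤ → ℕ → ℝ) → ℝ) (h : ℝ), Continuous G ∧ (∀ D, 0 ≤ G D ∧ G D ≤ 1) ∧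
      (∀ D ∈ XX, D 0 0 ≤ 1 / 3 → G D = 0) ∧ (∀ D ∈ XX, 2 / 3 ≤ D 0 0 → G D = 1) ∧
      ∀ ε > 0, ∃ N : ℕ, ∀ n ≥ N, ∃ s : Finset (Set (ℤ → ℕ → ℝ)),
        (s.card : ℝ) ≤ Real.exp (h * n) ∧ (∀ D ∈ XX, ∃ V ∈ s, D ∈ V) ∧
        ∀ V ∈ s, ∀ D ∈ V, ∀ D' ∈ V, ∀ i < n, |G (sft (i : ℤ) D) - G (sft (i : ℤ) D')| < ε := by
  classical
  have hev : Continuous (fun D : X => D.1 0 0) := by
    have h1 : Continuous (fun D : ℤ → ℕ → ℝ => D 0 0) := by fun_prop
    exact h1.comp continuous_subtype_val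
  have hlo : IsClosed {D : X | D.1 0 0 ≤ 1 / 3} := isClosed_le hev continuous_const
  have hhi : IsClosed {D : X | 2 / 3 ≤ D.1 0 0} := isClosed_le continuous_const hev
  obtain ⟨M, hM⟩ := sep_index π hπ {D : X | D.1 0 0 ≤ 1 / 3} {D : X | 2 / 3 ≤ D.1 0 0}
    hlo hhi (by
      rw [Set.disjoint_left]
      intro D h1 h2
      simp only [Set.mem_ofPred_eq] at h1 h2
      linarith) hsep
  have hPi : Continuous (fun x : X => fun m : Fin M => π m x) := continuous_pi (fun m => hπ m)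
  let _ : MetricSpace (Fin M → ℕ → ℝ) := TopologicalSpace.metrizableSpaceMetric _
  obtain ⟨f, hf0, hf1, hf2⟩ := exists_continuous_zero_one_of_isClosed
    (s := (fun x : X => fun m : Fin M => π m x) '' {D : X | D.1 0 0 ≤ 1 / 3})
    (t := (fun x : X => fun m : Fin M => π m x) '' {D : X | 2 / 3 ≤ D.1 0 0})
    ((hlo.isCompact.image hPi).isClosed) ((hhi.isCompact.image hPi).isClosed) (by
      rw [Set.disjoint_left]
      rintro z ⟨x, hx, rfl⟩ ⟨y, hy, hxy⟩
      obtain ⟨m, hm, hne⟩ := hM x hx y hy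
      exact hne (congrFun hxy ⟨m, hm⟩).symm)
  choose C hC using hC
  have hcell := cells M (fun m : Fin M => π m) (fun m => hπ m) (fun m : Fin M => C m)
    (fun m => hC m) f f.continuous
  -- extension
  let _ : MetricSpace (ℤ → ℕ → ℝ) := TopologicalSpace.metrizableSpaceMetric _
  obtain ⟨g, hg⟩ := ContinuousMap.exists_restrict_eq isClosed_XX
    (⟨fun x : X => f (fun m : Fin M => π m x), f.continuous.comp hPi⟩ : C(X, ℝ))
  have hgX : ∀ x : X, g x.1 = f (fun m : Fin M => π m x) := by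
    intro x
    have := DFunLike.congr_fun hg x
    simpa using this
  have hG : ∀ x : X, clamp (g x.1) = f (fun m : Fin M => π m x) := by
    intro x
    rw [hgX x]
    exact clamp_of_mem (hf2 _).1 (hf2 _).2
  refine ⟨fun D => clamp (g D), ∑ m : Fin M, C m, clamp_cont.comp g.continuous,
    fun D => ⟨clamp_nonneg _, clamp_le_one _⟩, ?_, ?_, ?_⟩
  · intro D hD h
    simp only
    rw [hG ⟨D, hD⟩]
    exact hf0 ⟨⟨D, hD⟩, h, rfl⟩
  · intro D hD h
    simp only
    rw [hG ⟨D, hD⟩]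
    exact hf1 ⟨⟨D, hD⟩, h, rfl⟩
  · intro ε hε
    obtain ⟨N, hN⟩ := eventually_atTop.1 (hcell ε hε)
    refine ⟨N, fun n hn => ?_⟩
    obtain ⟨s, hs1, hs2, hs3⟩ := hN n hn
    refine ⟨s.image (fun V => Subtype.val '' V), ?_, ?_, ?_⟩
    · refine le_trans ?_ hs1
      exact_mod_cast Finset.card_image_le
    · intro D hD
      obtain ⟨V, hV, hDV⟩ := hs2 ⟨D, hD⟩
      exact ⟨_, Finset.mem_image_of_mem _ hV, ⟨⟨D, hD⟩, hDV, rfl⟩⟩
    · intro V hV D hD D' hD' i hi
      rw [Finset.mem_image] at hV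
      obtain ⟨V, hV, rfl⟩ := hV
      obtain ⟨x, hx, rfl⟩ := hD
      obtain ⟨y, hy, rfl⟩ := hD'
      have h1 := hs3 V hV x hx y hy (fun _ => (i : ℤ)) (by
        intro _
        constructor
        · positivity
        · exact_mod_cast hi)
      have e1 : ∀ x : X, sft (i : ℤ) x.1 = ((fun _ => (i : ℤ) : Fin 1 → ℤ) +ᵥ x).1 := by
        intro x; rfl
      simp only
      rw [e1 x, e1 y, hG, hG]
      exact h1

end Pool.Agent.Work.MP_cda452_an
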