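import Mathlib

set_option autoImplicit false

namespace Pool.Agent.Work.MP_cda452_an

open Finsupp

/-- Chains of lists (augmented ordered chains) with coefficients in `ZMod p`. -/
abbrev Ch (p : ℕ) (V : Type) := List V →₀ ZMod p

section Chains
variable {p : ℕ} {V W : Type}

theorem ch_ext {M : Type} [AddCommMonoid M] [Module (ZMod p) M] {f g : Ch p V →ₗ[ZMod p] M}
    (h : ∀ l, f (single l 1) = g (single l 1)) : f = g := by
  apply Finsupp.lhom_ext'
  intro l
  apply LinearMap.ext_ring
  simpa using h l

/-- Cone over a chain. -/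
noncomputable def cone (v : V) : Ch p V →ₗ[ZMod p] Ch p V :=
  Finsupp.lmapDomain (ZMod p) (ZMod p) (List.cons v)

/-- Boundary of a list. -/
noncomputable def dL : List V → Ch p V
  | [] => 0
  | v :: l => single l 1 - cone v (dL l)

/-- Boundary. -/
noncomputable def dd : Ch p V →ₗ[ZMod p] Ch p V := Finsupp.linearCombination (ZMod p) dL

/-- Induced map. -/
noncomputable def mapc (f : V → W) : Ch p V →ₗ[ZMod p] Ch p W :=
  Finsupp.lmapDomain (ZMod p) (ZMod p) (List.map f)

@[simp] theorem cone_single (v : V) (l : List V) (a : ZMod p) :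
    cone v (single l a) = single (v :: l) a := by
  simp [cone]

@[simp] theorem mapc_single (f : V → W) (l : List V) (a : ZMod p) :
    mapc f (single l a) = single (l.map f) a := by
  simp [mapc]

@[simp] theorem dd_single (l : List V) : dd (single l (1 : ZMod p)) = dL l := by
  simp [dd]

theorem dd_cone (v : V) (x : Ch p V) : dd (cone v x) = x - cone v (dd x) := by
  have : (dd ∘ₗ cone v : Ch p V →ₗ[ZMod p] Ch p V) = LinearMap.id - cone v ∘ₗ dd := by
    apply ch_ext
    intro l
    simp [dL]
  exact LinearMap.congr_fun this x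

theorem dd_dL : ∀ l : List V, dd (dL l : Ch p V) = 0
  | [] => by simp [dL]
  | v :: l => by
      simp [dL, dd_cone, dd_dL l]

theorem dd_dd (x : Ch p V) : dd (dd x) = 0 := by
  have : (dd ∘ₗ dd : Ch p V →ₗ[ZMod p] Ch p V) = 0 := by
    apply ch_ext
    intro l
    simp [dd_dL]
  exact LinearMap.congr_fun this x

theorem mapc_cone (f : V → W) (v : V) (x : Ch p V) :
    mapc f (cone v x) = cone (f v) (mapc f x) := by
  have : (mapc f ∘ₗ cone v : Ch p V →ₗ[ZMod p] Ch p W) = cone (f v) ∘ₗ mapc f := by
    apply ch_ext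
    intro l
    simp
  exact LinearMap.congr_fun this x

theorem mapc_dL (f : V → W) : ∀ l : List V, mapc f (dL l : Ch p V) = dL (l.map f)
  | [] => by simp [dL]
  | v :: l => by
      simp [dL, mapc_cone, mapc_dL f l]

theorem dd_mapc (f : V → W) (x : Ch p V) : dd (mapc f x) = mapc f (dd x) := by
  have : (dd ∘ₗ mapc f : Ch p V →ₗ[ZMod p] Ch p W) = mapc f ∘ₗ dd := by
    apply ch_ext
    intro l
    simp [mapc_dL]
  exact LinearMap.congr_fun this x

theorem mapc_mapc {U : Type} (g : W → U) (f : V → W) (x : Ch p V) :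
    mapc g (mapc f x) = mapc (g ∘ f) x := by
  have : (mapc g ∘ₗ mapc f : Ch p V →ₗ[ZMod p] Ch p U) = mapc (g ∘ f) := by
    apply ch_ext
    intro l
    simp
  exact LinearMap.congr_fun this x

/-- Subdivision-like chain maps: the apex of a list is placed in front. -/
noncomputable def sub (b : List V → W) : ℕ → (Ch p V →ₗ[ZMod p] Ch p W)
  | 0 => Finsupp.linearCombination (ZMod p) (fun _ => single [] 1)
  | k + 1 => Finsupp.linearCombination (ZMod p) (fun l => cone (b l) (sub b k (dL l)))

@[simp] theorem sub_zero_single (b : List V → W) (l : List V) :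
    sub b 0 (single l (1 : ZMod p)) = single [] 1 := by
  simp [sub]

theorem sub_succ_single (b : List V → W) (k : ℕ) (l : List V) :
    sub b (k + 1) (single l (1 : ZMod p)) = cone (b l) (sub b k (dL l)) := by
  simp [sub]

theorem dd_sub_zero (b : List V → W) (x : Ch p V) : dd (sub b 0 x) = 0 := by
  have : (dd ∘ₗ sub b 0 : Ch p V →ₗ[ZMod p] Ch p W) = 0 := by
    apply ch_ext
    intro l
    simp [dL]
  exact LinearMap.congr_fun this x

theorem dd_sub (b : List V → W) : ∀ (k : ℕ) (x : Ch p V),
    dd (sub b (k + 1) x) = sub b k (dd x) := by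
  intro k
  induction k with
  | zero =>
    intro x
    have : (dd ∘ₗ sub b 1 : Ch p V →ₗ[ZMod p] Ch p W) = sub b 0 ∘ₗ dd := by
      apply ch_ext
      intro l
      simp [sub_succ_single, dd_cone, dd_sub_zero]
    exact LinearMap.congr_fun this x
  | succ k ih =>
    intro x
    have : (dd ∘ₗ sub b (k + 2) : Ch p V →ₗ[ZMod p] Ch p W) = sub b (k + 1) ∘ₗ dd := by
      apply ch_ext
      intro l
      simp [sub_succ_single b (k + 1), dd_cone, ih, dd_dL]
    exact LinearMap.congr_fun this x

theorem sub_mapc {V' W' : Type} (b : List V → W) (b' : List V' → W') (f : V → V') (g : W → W')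
    (h : ∀ l, l ≠ [] → b' (l.map f) = g (b l)) : ∀ (k : ℕ) (x : Ch p V),
    sub b' k (mapc f x) = mapc g (sub b k x) := by
  intro k
  induction k with
  | zero =>
    intro x
    have : (sub b' 0 ∘ₗ mapc f : Ch p V →ₗ[ZMod p] Ch p W') = mapc g ∘ₗ sub b 0 := by
      apply ch_ext
      intro l
      simp
    exact LinearMap.congr_fun this x
  | succ k ih =>
    intro x
    have : (sub b' (k + 1) ∘ₗ mapc f : Ch p V →ₗ[ZMod p] Ch p W') = mapc g ∘ₗ sub b (k + 1) := by
      apply ch_ext
      intro l
      rcases eq_or_ne l [] with rfl | hl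
      · simp [sub_succ_single, dL]
      · simp [sub_succ_single, mapc_cone, ← mapc_dL, ih, h l hl]
    exact LinearMap.congr_fun this x

/-! ### supports -/

/-- Chains supported in a set of lists. -/
abbrev Sup (p : ℕ) {V : Type} (A : Set (List V)) : Submodule (ZMod p) (Ch p V) :=
  Finsupp.supported (ZMod p) (ZMod p) A

theorem single_mem_Sup {A : Set (List V)} {l : List V} (h : l ∈ A) (a : ZMod p) :
    single l a ∈ Sup p A := Finsupp.single_mem_supported _ _ h

theorem map_Sup {A : Set (List V)} {M : Type} [AddCommMonoid M] [Module (ZMod p) M]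
    (f : Ch p V →ₗ[ZMod p] M) (N : Submodule (ZMod p) M)
    (h : ∀ l ∈ A, f (single l 1) ∈ N) {x : Ch p V} (hx : x ∈ Sup p A) : f x ∈ N := by
  classical
  rw [Finsupp.mem_supported] at hx
  rw [← Finsupp.sum_single x, Finsupp.sum, map_sum]
  apply Submodule.sum_mem
  intro l hl
  have h1 : (single l (x l) : Ch p V) = (x l) • single l 1 := by simp
  rw [h1, map_smul]
  exact N.smul_mem _ (h l (hx (by simpa using hl)))

theorem eq_on_Sup {A : Set (List V)} {M : Type} [AddCommMonoid M] [Module (ZMod p) M]
    (f g : Ch p V →ₗ[ZMod p] M)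
    (h : ∀ l ∈ A, f (single l 1) = g (single l 1)) {x : Ch p V} (hx : x ∈ Sup p A) :
    f x = g x := by
  classical
  rw [Finsupp.mem_supported] at hx
  rw [← Finsupp.sum_single x, Finsupp.sum, map_sum, map_sum]
  apply Finset.sum_congr rfl
  intro l hl
  have h1 : (single l (x l) : Ch p V) = (x l) • single l 1 := by simp
  rw [h1, map_smul, map_smul, h l (hx (by simpa using hl))]

theorem cone_Sup {A B : Set (List V)} (v : V) (h : ∀ l ∈ A, v :: l ∈ B) {x : Ch p V}
    (hx : x ∈ Sup p A) : cone v x ∈ Sup p B := by
  apply map_Sup (cone v) _ _ hx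
  intro l hl
  simp only [cone_single]
  exact single_mem_Sup (h l hl) _

theorem mapc_Sup {A : Set (List V)} {B : Set (List W)} (f : V → W) (h : ∀ l ∈ A, l.map f ∈ B)
    {x : Ch p V} (hx : x ∈ Sup p A) : mapc f x ∈ Sup p B := by
  apply map_Sup (mapc f) _ _ hx
  intro l hl
  simp only [mapc_single]
  exact single_mem_Sup (h l hl) _

/-- The boundary of a list of length `k+1` is supported on its sublists of length `k`. -/
theorem dL_Sup : ∀ (l : List V),
    (dL l : Ch p V) ∈ Sup p {m : List V | m.length + 1 = l.length ∧ m.Sublist l}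
  | [] => by simp [dL]
  | v :: l => by
      rw [dL]
      apply Submodule.sub_mem
      · apply single_mem_Sup
        simp
      · apply cone_Sup v _ (dL_Sup l)
        rintro m ⟨h1, h2⟩
        simp only [Set.mem_ofPred_eq, List.length_cons]
        exact ⟨by omega, h2.cons_cons v⟩

/-! ### degenerate lists -/

/-- Lists with two equal adjacent entries. -/
def Deg (V : Type) : Set (List V) := {l | ¬ List.IsChain (· ≠ ·) l}

theorem dL_Deg : ∀ (l : List V), l ∈ Deg V → (dL l : Ch p V) ∈ Sup p (Deg V)
  | [] => by intro h; exact absurd (by simp) h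
  | [v] => by intro h; exact absurd (by simp) h
  | v :: w :: l => by
      intro h
      by_cases h2 : (w :: l) ∈ Deg V
      · rw [dL]
        apply Submodule.sub_mem
        · exact single_mem_Sup h2 _
        · apply cone_Sup v _ (dL_Deg (w :: l) h2)
          intro m hm hc
          exact hm hc.tail
      · have hvw : v = w := by
          by_contra hvw
          apply h
          simp only [Deg, Set.mem_ofPred_eq, not_not] at h2
          exact List.isChain_cons_cons.2 ⟨hvw, h2⟩
        subst hvw
        have h3 : (dL (v :: v :: l) : Ch p V) = cone v (cone v (dL l)) := by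
          simp [dL]
        rw [h3]
        apply cone_Sup (A := {m | ∃ m', m = v :: m'})
        · rintro m ⟨m', rfl⟩ hc
          exact (List.isChain_cons_cons.1 hc).1 rfl
        · apply cone_Sup (A := Set.univ)
          · intro l _
            exact ⟨l, rfl⟩
          · simp [Sup]

theorem dd_Deg {x : Ch p V} (hx : x ∈ Sup p (Deg V)) : dd x ∈ Sup p (Deg V) := by
  apply map_Sup dd _ _ hx
  intro l hl
  rw [dd_single]
  exact dL_Deg l hl

end Chains

end Pool.Agent.Work.MP_cda452_an
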