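import Pool.Agent.Work.MP_cda452_an.Fourier

set_option autoImplicit false
set_option linter.unusedSectionVars false

namespace Pool.Agent.Work.MP_cda452_an

section
variable {p : ℕ} [Fact p.Prime]

theorem p_pos (p : ℕ) [Fact p.Prime] : (0 : ℝ) < p := by
  exact_mod_cast (Fact.out : p.Prime).pos

/-- Correlation bound. -/
theorem corr_bound (W g : ZMod p → ℝ) (C : ℝ)
    (hg : ∀ ξ, ‖FT (fun i => (g i : ℂ)) ξ‖ ^ 2 ≤ C) :
    ∑ i, (∑ j, W j * g (i + j)) ^ 2 ≤ C * ∑ j, W j ^ 2 := by
  have hp := p_pos p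
  have h1 : ∀ ξ, FT (fun i => ((∑ j, W j * g (i + j) : ℝ) : ℂ)) ξ =
      (starRingEnd ℂ) (FT (fun i => (W i : ℂ)) ξ) * FT (fun i => (g i : ℂ)) ξ := by
    intro ξ
    unfold FT
    rw [map_sum, Finset.sum_mul]
    have h2 : ∀ i : ZMod p, ((∑ j, W j * g (i + j) : ℝ) : ℂ) * ZMod.stdAddChar (-(ξ * i)) =
        ∑ j, (W j : ℂ) * g (i + j) * ZMod.stdAddChar (-(ξ * i)) := by
      intro i
      push_cast
      rw [Finset.sum_mul]
    simp only [h2]
    rw [Finset.sum_comm]
    apply Finset.sum_congr rfl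
    intro j _
    rw [map_mul, conj_char, Complex.conj_ofReal, neg_neg, Finset.mul_sum]
    apply Fintype.sum_equiv (Equiv.addRight j)
    intro i
    simp only [Equiv.coe_addRight]
    have : (-(ξ * i) : ZMod p) = ξ * j + -(ξ * (i + j)) := by ring
    rw [this, char_add]
    ring
  have h3 := parseval (fun i => ((∑ j, W j * g (i + j) : ℝ) : ℂ))
  have h4 := parseval (fun i => (W i : ℂ))
  simp only [h1, norm_mul, RCLike.norm_conj] at h3
  have h5 : ∑ ξ, (‖FT (fun i => (W i : ℂ)) ξ‖ * ‖FT (fun i => (g i : ℂ)) ξ‖) ^ 2 ≤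
      C * ∑ ξ, ‖FT (fun i => (W i : ℂ)) ξ‖ ^ 2 := by
    rw [Finset.mul_sum]
    apply Finset.sum_le_sum
    intro ξ _
    rw [mul_pow, mul_comm C]
    exact mul_le_mul_of_nonneg_left (hg ξ) (by positivity)
  rw [h3, h4] at h5
  have h6 : ∀ x : ℝ, ‖(x : ℂ)‖ ^ 2 = x ^ 2 := by
    intro x
    rw [Complex.norm_real, Real.norm_eq_abs, sq_abs]
  simp only [h6] at h5
  have h7 : (p : ℝ) * ∑ i, (∑ j, W j * g (i + j)) ^ 2 ≤ p * (C * ∑ j, W j ^ 2) := by
    linarith
  exact le_of_mul_le_mul_left h7 hp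

theorem sum_char_ne {ξ : ZMod p} (h : ξ ≠ 0) :
    ∑ i : ZMod p, (ZMod.stdAddChar (-(ξ * i)) : ℂ) = 0 := by
  have h1 := sum_char (p := p) (-ξ)
  rw [if_neg (neg_ne_zero.2 h)] at h1
  rw [← h1]
  apply Finset.sum_congr rfl
  intro i _
  congr 1
  ring

theorem corr_mean (W b : ZMod p → ℝ) (C : ℝ) (hC : 0 ≤ C)
    (hb : ∀ ξ ≠ 0, ‖FT (fun i => (b i : ℂ)) ξ‖ ^ 2 ≤ C) :
    ∑ i, (∑ j, W j * b (i + j) - (∑ j, W j) * ((∑ k, b k) / p)) ^ 2 ≤ C * ∑ j, W j ^ 2 := by
  have hp := p_pos p
  have h1 := corr_bound W (fun i => b i - (∑ k, b k) / p) C (by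
    intro ξ
    by_cases hξ : ξ = 0
    · have : FT (fun i => (((b i - (∑ k, b k) / p : ℝ)) : ℂ)) ξ = 0 := by
        unfold FT
        subst hξ
        simp only [zero_mul, neg_zero, char_zero, mul_one]
        rw [← Complex.ofReal_sum]
        rw [Finset.sum_sub_distrib]
        simp only [Finset.sum_const, Finset.card_univ, ZMod.card, nsmul_eq_mul]
        have : (∑ k, b k) - p * ((∑ k, b k) / p) = 0 := by field_simp; simp
        rw [this]
        simp
      rw [this]
      simpa using hC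
    · have : FT (fun i => (((b i - (∑ k, b k) / p : ℝ)) : ℂ)) ξ =
          FT (fun i => (b i : ℂ)) ξ := by
        unfold FT
        have h2 : ∀ i : ZMod p, (((b i - (∑ k, b k) / p : ℝ)) : ℂ) *
            ZMod.stdAddChar (-(ξ * i)) = (b i : ℂ) * ZMod.stdAddChar (-(ξ * i)) -
            (((∑ k, b k) / p : ℝ) : ℂ) * ZMod.stdAddChar (-(ξ * i)) := by
          intro i; push_cast; ring
        simp only [h2]
        rw [Finset.sum_sub_distrib, ← Finset.mul_sum, sum_char_ne hξ]
        simp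
      rw [this]
      exact hb ξ hξ)
  refine le_trans (le_of_eq ?_) h1
  apply Finset.sum_congr rfl
  intro i _
  congr 1
  rw [Finset.sum_mul, ← Finset.sum_sub_distrib]
  apply Finset.sum_congr rfl
  intro j _
  ring

/-- Few pairs are never mismatched. -/
theorem few_pairs (a b : ZMod p → ℝ) (J : Finset (ZMod p)) (β C : ℝ) (hβ : 0 < β) (hC : 0 ≤ C)
    (hJ : 0 < J.card)
    (ha0 : ∀ i, 0 ≤ a i) (ha1 : ∀ i, a i ≤ 1)
    (ham : β * p ≤ ∑ i, a i) (hbm : β * p ≤ ∑ i, b i)
    (ham1 : ∑ i, b i ≤ p)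
    (ha : ∀ ξ ≠ 0, ‖FT (fun i => (a i : ℂ)) ξ‖ ^ 2 ≤ C)
    (hb : ∀ ξ ≠ 0, ‖FT (fun i => (b i : ℂ)) ξ‖ ^ 2 ≤ C) :
    ((Finset.univ.filter (fun x : ZMod p × ZMod p =>
      ∀ j ∈ J, a (x.1 + j) * b (x.2 + j) = 0)).card : ℝ) ≤ 6 * C * p / (J.card * β ^ 3) := by
  classical
  have hp := p_pos p
  set l : ℝ := (J.card : ℝ) with hl
  have hlpos : 0 < l := by rw [hl]; exact_mod_cast hJ
  set am : ℝ := (∑ k, a k) / p with ham'
  set bm : ℝ := (∑ k, b k) / p with hbm'
  have ham2 : β ≤ am := by rw [ham', le_div_iff₀ hp]; exact ham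
  have hbm2 : β ≤ bm := by rw [hbm', le_div_iff₀ hp]; exact hbm
  have hbm3 : bm ≤ 1 := by rw [hbm', div_le_one hp]; exact ham1
  have hampos : 0 < am := lt_of_lt_of_le hβ ham2
  have hbmpos : 0 < bm := lt_of_lt_of_le hβ hbm2
  have hβ1 : β ≤ 1 := hbm2.trans hbm3
  let A : ZMod p → ℝ := fun i => ∑ j ∈ J, a (i + j)
  let U : ZMod p → Finset (ZMod p) := fun i =>
    Finset.univ.filter (fun i' => ∀ j ∈ J, a (i + j) * b (i' + j) = 0)
  -- bad first coordinates
  let Bd : Finset (ZMod p) := Finset.univ.filter (fun i => A i < l * am / 2)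
  have hA0 : ∀ i, 0 ≤ A i := fun i => Finset.sum_nonneg (fun j _ => ha0 _)
  have hBd : (Bd.card : ℝ) * (l * am / 2) ^ 2 ≤ C * l := by
    have h1 := corr_mean (fun j => if j ∈ J then (1 : ℝ) else 0) a C hC ha
    have h2 : ∑ j : ZMod p, (if j ∈ J then (1 : ℝ) else 0) ^ 2 = l := by
      simp [hl]
    have h3 : ∑ j : ZMod p, (if j ∈ J then (1 : ℝ) else 0) = l := by
      simp [hl]
    have h4 : ∀ i, ∑ j : ZMod p, (if j ∈ J then (1 : ℝ) else 0) * a (i + j) = A i := by
      intro i; simp [A, Finset.sum_ite_mem]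
    rw [h2] at h1
    simp only [h3, h4] at h1
    refine le_trans ?_ h1
    calc (Bd.card : ℝ) * (l * am / 2) ^ 2 = ∑ i ∈ Bd, (l * am / 2) ^ 2 := by simp
      _ ≤ ∑ i ∈ Bd, (A i - l * am) ^ 2 := by
          apply Finset.sum_le_sum
          intro i hi
          simp only [Bd, Finset.mem_filter] at hi
          have h5 := hi.2
          have h6 : 0 < l * am := by positivity
          nlinarith
      _ ≤ ∑ i, (A i - l * am) ^ 2 :=
          Finset.sum_le_sum_of_subset_of_nonneg (Finset.subset_univ _)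
            (fun _ _ _ => by positivity)
  have hU : ∀ i, i ∉ Bd → ((U i).card : ℝ) ≤ 2 * C / (l * β ^ 3) := by
    intro i hi
    have hAi : l * am / 2 ≤ A i := by
      simp only [Bd, Finset.mem_filter, Finset.mem_univ, true_and] at hi
      exact not_lt.1 hi
    have hApos : 0 < A i := lt_of_lt_of_le (by positivity) hAi
    have h1 := corr_mean (fun j => if j ∈ J then a (i + j) else 0) b C hC hb
    have h2 : ∑ j : ZMod p, (if j ∈ J then a (i + j) else 0) ^ 2 ≤ A i := by
      have : ∀ j, (if j ∈ J then a (i + j) else 0) ^ 2 = if j ∈ J then a (i + j) ^ 2 else 0 := by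
        intro j; split_ifs <;> simp
      simp only [this]
      rw [Finset.sum_ite_mem, Finset.univ_inter]
      apply Finset.sum_le_sum
      intro j _
      have := ha0 (i + j)
      have := ha1 (i + j)
      nlinarith
    have h3 : ∑ j : ZMod p, (if j ∈ J then a (i + j) else 0) = A i := by
      rw [Finset.sum_ite_mem, Finset.univ_inter]
    simp only [h3] at h1
    have h4 : ((U i).card : ℝ) * (A i * bm) ^ 2 ≤ C * A i := by
      calc ((U i).card : ℝ) * (A i * bm) ^ 2 = ∑ i' ∈ U i, (A i * bm) ^ 2 := by simp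
        _ = ∑ i' ∈ U i, (∑ j, (if j ∈ J then a (i + j) else 0) * b (i' + j) -
              A i * bm) ^ 2 := by
            apply Finset.sum_congr rfl
            intro i' hi'
            simp only [U, Finset.mem_filter, Finset.mem_univ, true_and] at hi'
            have : ∑ j, (if j ∈ J then a (i + j) else 0) * b (i' + j) = 0 := by
              apply Finset.sum_eq_zero
              intro j _
              split_ifs with hj
              · exact hi' j hj
              · simp
            rw [this]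
            ring
        _ ≤ ∑ i', (∑ j, (if j ∈ J then a (i + j) else 0) * b (i' + j) - A i * bm) ^ 2 :=
            Finset.sum_le_sum_of_subset_of_nonneg (Finset.subset_univ _)
              (fun _ _ _ => by positivity)
        _ ≤ C * _ := h1
        _ ≤ C * A i := by gcongr
    have h5 : ((U i).card : ℝ) * (A i * bm ^ 2) ≤ C := by
      have : ((U i).card : ℝ) * (A i * bm) ^ 2 = (((U i).card : ℝ) * (A i * bm ^ 2)) * A i := by
        ring
      rw [this] at h4
      exact le_of_mul_le_mul_right h4 hApos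
    rw [le_div_iff₀ (by positivity)]
    have h6 : l * β ^ 3 / 2 ≤ A i * bm ^ 2 := by
      calc l * β ^ 3 / 2 = (l * β / 2) * β ^ 2 := by ring
        _ ≤ (l * am / 2) * bm ^ 2 := by gcongr
        _ ≤ A i * bm ^ 2 := by gcongr
    have h7 : ((U i).card : ℝ) * (l * β ^ 3 / 2) ≤ C :=
      (mul_le_mul_of_nonneg_left h6 (by positivity)).trans h5
    linarith
  -- total
  have hcard : (Finset.univ.filter (fun x : ZMod p × ZMod p =>
      ∀ j ∈ J, a (x.1 + j) * b (x.2 + j) = 0)).card = ∑ i, (U i).card := by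
    rw [Finset.card_filter, ← Finset.univ_product_univ, Finset.sum_product]
    apply Finset.sum_congr rfl
    intro i _
    rw [Finset.card_filter]
  rw [hcard]
  push_cast
  have hBd2 : (Bd.card : ℝ) ≤ 4 * C / (l * β ^ 3) := by
    rw [le_div_iff₀ (by positivity)]
    have h1 : l * (l * β ^ 3) / 4 ≤ (l * am / 2) ^ 2 := by
      calc l * (l * β ^ 3) / 4 ≤ l * (l * β ^ 2) / 4 := by
            have : β ^ 3 ≤ β ^ 2 := pow_le_pow_of_le_one hβ.le hβ1 (by norm_num)
            gcongr
        _ = (l * β / 2) ^ 2 := by ring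
        _ ≤ _ := by gcongr
    have h2 : (Bd.card : ℝ) * (l * (l * β ^ 3) / 4) ≤ C * l :=
      (mul_le_mul_of_nonneg_left h1 (by positivity)).trans hBd
    have h3 : l * ((Bd.card : ℝ) * (l * β ^ 3)) ≤ l * (4 * C) := by linarith
    exact le_of_mul_le_mul_left h3 hlpos
  calc ∑ i, ((U i).card : ℝ) = ∑ i ∈ Bd, ((U i).card : ℝ) + ∑ i ∈ Bdᶜ, ((U i).card : ℝ) :=
        (Finset.sum_add_sum_compl Bd _).symm
    _ ≤ ∑ i ∈ Bd, (p : ℝ) + ∑ i ∈ Bdᶜ, 2 * C / (l * β ^ 3) := by
        apply add_le_add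
        · apply Finset.sum_le_sum
          intro i _
          have := Finset.card_le_univ (U i)
          rw [ZMod.card] at this
          exact_mod_cast this
        · apply Finset.sum_le_sum
          intro i hi
          exact hU i (by simpa using hi)
    _ ≤ (4 * C / (l * β ^ 3)) * p + p * (2 * C / (l * β ^ 3)) := by
        simp only [Finset.sum_const, nsmul_eq_mul]
        apply add_le_add
        · gcongr
        · apply mul_le_mul_of_nonneg_right _ (by positivity)
          have := Finset.card_le_univ Bdᶜ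
          rw [ZMod.card] at this
          exact_mod_cast this
    _ = 6 * C * p / (l * β ^ 3) := by ring

end

end Pool.Agent.Work.MP_cda452_an
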