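import Pool.Agent.Work.MP_cda452_an.Corr

set_option autoImplicit false
set_option linter.unusedSectionVars false

namespace Pool.Agent.Work.MP_cda452_an

section
variable {p : ℕ} [Fact p.Prime] {Q : Type} [Fintype Q]

/-- Energy of a family of features at a frequency. -/
noncomputable def FF (E : Q → ZMod p → ℝ) (ξ : ZMod p) : ℝ :=
  ∑ q, ‖FT (fun i => (E q i : ℂ)) ξ‖ ^ 2

/-- Kernel of a family of features. -/
def kk (E : Q → ZMod p → ℝ) (i j : ZMod p) : ℝ := ∑ q, E q i * E q j

theorem FF_nonneg (E : Q → ZMod p → ℝ) (ξ : ZMod p) : 0 ≤ FF E ξ :=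
  Finset.sum_nonneg (fun _ _ => by positivity)

theorem FF_eq (E : Q → ZMod p → ℝ) (ξ : ZMod p) :
    (FF E ξ : ℂ) = ∑ i, ∑ j, (kk E i j : ℂ) * ZMod.stdAddChar (ξ * (j - i)) := by
  unfold FF kk
  rw [Complex.ofReal_sum]
  simp only [norm_sq_FT]
  rw [Finset.sum_comm]
  apply Finset.sum_congr rfl
  intro i _
  rw [Finset.sum_comm]
  apply Finset.sum_congr rfl
  intro j _
  rw [Complex.ofReal_sum, Finset.sum_mul]
  apply Finset.sum_congr rfl
  intro q _
  rw [Complex.conj_ofReal]
  push_cast
  ring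

theorem FF_zero (E : Q → ZMod p → ℝ) : FF E 0 = ∑ i, ∑ j, kk E i j := by
  have h := FF_eq E 0
  simp only [zero_mul, char_zero, mul_one] at h
  exact_mod_cast h

theorem FF_neg (E : Q → ZMod p → ℝ) (ξ : ZMod p) : FF E (-ξ) = FF E ξ := by
  have h : (FF E (-ξ) : ℂ) = FF E ξ := by
    rw [FF_eq, FF_eq, Finset.sum_comm]
    apply Finset.sum_congr rfl
    intro i _
    apply Finset.sum_congr rfl
    intro j _
    have h1 : kk E j i = kk E i j := by
      unfold kk
      exact Finset.sum_congr rfl (fun q _ => mul_comm _ _)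
    have h2 : (-ξ * (i - j) : ZMod p) = ξ * (j - i) := by ring
    rw [h1, h2]
  exact_mod_cast h

theorem fejer (E : Q → ZMod p → ℝ) (B : ℕ) (h0 : ∀ i j, 0 ≤ kk E i j) (h1 : ∀ i, kk E i i = 1) :
    (p : ℝ) * B ^ 2 ≤ ∑ a ∈ Finset.range B, ∑ b ∈ Finset.range B,
      FF E ((a : ZMod p) - (b : ZMod p)) := by
  let D : ZMod p → ℂ := fun x => ∑ a ∈ Finset.range B, ZMod.stdAddChar ((a : ZMod p) * x)
  have hD : ∀ x, ((‖D x‖ ^ 2 : ℝ) : ℂ) = ∑ a ∈ Finset.range B, ∑ b ∈ Finset.range B,
      (ZMod.stdAddChar (((a : ZMod p) - (b : ZMod p)) * x) : ℂ) := by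
    intro x
    rw [← Complex.normSq_eq_norm_sq, ← Complex.mul_conj]
    simp only [D]
    rw [map_sum, Finset.sum_mul_sum]
    apply Finset.sum_congr rfl
    intro a _
    apply Finset.sum_congr rfl
    intro b _
    rw [conj_char, ← char_add]
    congr 1
    ring
  have key : ∑ a ∈ Finset.range B, ∑ b ∈ Finset.range B, FF E ((a : ZMod p) - (b : ZMod p)) =
      ∑ i, ∑ j, kk E i j * ‖D (j - i)‖ ^ 2 := by
    have : ((∑ a ∈ Finset.range B, ∑ b ∈ Finset.range B,
        FF E ((a : ZMod p) - (b : ZMod p)) : ℝ) : ℂ) =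
        ((∑ i, ∑ j, kk E i j * ‖D (j - i)‖ ^ 2 : ℝ) : ℂ) := by
      simp only [Complex.ofReal_sum, FF_eq, Complex.ofReal_mul, hD]
      calc ∑ a ∈ Finset.range B, ∑ b ∈ Finset.range B, ∑ i, ∑ j, (kk E i j : ℂ) *
            ZMod.stdAddChar (((a : ZMod p) - (b : ZMod p)) * (j - i))
          = ∑ a ∈ Finset.range B, ∑ i, ∑ b ∈ Finset.range B, ∑ j, (kk E i j : ℂ) *
            ZMod.stdAddChar (((a : ZMod p) - (b : ZMod p)) * (j - i)) := by
            apply Finset.sum_congr rfl
            intro a _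
            rw [Finset.sum_comm]
        _ = ∑ i, ∑ a ∈ Finset.range B, ∑ b ∈ Finset.range B, ∑ j, (kk E i j : ℂ) *
            ZMod.stdAddChar (((a : ZMod p) - (b : ZMod p)) * (j - i)) := by
            rw [Finset.sum_comm]
        _ = ∑ i, ∑ a ∈ Finset.range B, ∑ j, ∑ b ∈ Finset.range B, (kk E i j : ℂ) *
            ZMod.stdAddChar (((a : ZMod p) - (b : ZMod p)) * (j - i)) := by
            apply Finset.sum_congr rfl
            intro i _
            apply Finset.sum_congr rfl
            intro a _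
            rw [Finset.sum_comm]
        _ = ∑ i, ∑ j, ∑ a ∈ Finset.range B, ∑ b ∈ Finset.range B, (kk E i j : ℂ) *
            ZMod.stdAddChar (((a : ZMod p) - (b : ZMod p)) * (j - i)) := by
            apply Finset.sum_congr rfl
            intro i _
            rw [Finset.sum_comm]
        _ = _ := by
            apply Finset.sum_congr rfl
            intro i _
            apply Finset.sum_congr rfl
            intro j _
            rw [Finset.mul_sum]
            apply Finset.sum_congr rfl
            intro a _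
            rw [Finset.mul_sum]
    exact_mod_cast this
  rw [key]
  calc (p : ℝ) * B ^ 2 = ∑ i : ZMod p, (B : ℝ) ^ 2 := by simp [ZMod.card]
    _ ≤ ∑ i, ∑ j, kk E i j * ‖D (j - i)‖ ^ 2 := by
        apply Finset.sum_le_sum
        intro i _
        have h2 : kk E i i * ‖D (i - i)‖ ^ 2 = (B : ℝ) ^ 2 := by
          simp [D, h1]
        rw [← h2]
        exact Finset.single_le_sum (f := fun j => kk E i j * ‖D (j - i)‖ ^ 2)
          (fun j _ => mul_nonneg (h0 i j) (by positivity)) (Finset.mem_univ i)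

theorem row_bound (F : ℕ → ℝ) (h0 : ∀ d, 0 ≤ F d) (B a : ℕ) (ha : a < B) :
    ∑ b ∈ Finset.range B, F (if b ≤ a then a - b else b - a) ≤
      F 0 + 2 * ∑ d ∈ Finset.Ico 1 B, F d := by
  have h1 : Finset.range B = Finset.range a ∪ ({a} ∪ Finset.Ico (a + 1) B) := by
    ext x
    simp only [Finset.mem_range, Finset.mem_union, Finset.mem_singleton, Finset.mem_Ico]
    omega
  rw [h1, Finset.sum_union, Finset.sum_union]
  · have e1 : ∑ b ∈ Finset.range a, F (if b ≤ a then a - b else b - a) ≤
        ∑ d ∈ Finset.Ico 1 B, F d := by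
      have e2 : ∑ b ∈ Finset.range a, F (if b ≤ a then a - b else b - a) =
          ∑ b ∈ Finset.range a, F (a - b) := by
        apply Finset.sum_congr rfl
        intro b hb
        rw [if_pos (Finset.mem_range.1 hb).le]
      rw [e2, ← Finset.sum_image (f := F) (g := fun b => a - b)]
      · apply Finset.sum_le_sum_of_subset_of_nonneg
        · intro x hx
          rw [Finset.mem_image] at hx
          obtain ⟨b, hb, rfl⟩ := hx
          rw [Finset.mem_range] at hb
          rw [Finset.mem_Ico]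
          omega
        · intro _ _ _; exact h0 _
      · intro x hx y hy hxy
        simp only [Finset.coe_range, Set.mem_Iio] at hx hy
        simp only at hxy
        omega
    have e3 : ∑ b ∈ Finset.Ico (a + 1) B, F (if b ≤ a then a - b else b - a) ≤
        ∑ d ∈ Finset.Ico 1 B, F d := by
      have e2 : ∑ b ∈ Finset.Ico (a + 1) B, F (if b ≤ a then a - b else b - a) =
          ∑ b ∈ Finset.Ico (a + 1) B, F (b - a) := by
        apply Finset.sum_congr rfl
        intro b hb
        rw [Finset.mem_Ico] at hb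
        rw [if_neg (by omega)]
      rw [e2, ← Finset.sum_image (f := F) (g := fun b => b - a)]
      · apply Finset.sum_le_sum_of_subset_of_nonneg
        · intro x hx
          rw [Finset.mem_image] at hx
          obtain ⟨b, hb, rfl⟩ := hx
          rw [Finset.mem_Ico] at hb
          rw [Finset.mem_Ico]
          omega
        · intro _ _ _; exact h0 _
      · intro x hx y hy hxy
        simp only [Finset.coe_Ico, Set.mem_Ico] at hx hy
        simp only at hxy
        omega
    simp only [Finset.sum_singleton, le_refl, if_true, Nat.sub_self]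
    linarith
  · rw [Finset.disjoint_singleton_left, Finset.mem_Ico]; omega
  · rw [Finset.disjoint_left]
    intro x hx
    simp only [Finset.mem_range] at hx
    simp only [Finset.mem_union, Finset.mem_singleton, Finset.mem_Ico]
    omega

/-- Energy in the low band. -/
theorem band_energy (E : Q → ZMod p → ℝ) (B : ℕ) (hB : 0 < B) (h0 : ∀ i j, 0 ≤ kk E i j)
    (h1 : ∀ i, kk E i i = 1) (hdc : ∑ i, ∑ j, kk E i j ≤ (p : ℝ) * B / 2) :
    (p : ℝ) * B / 4 ≤ ∑ d ∈ Finset.Ico 1 B, FF E (d : ZMod p) := by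
  have h2 := fejer E B h0 h1
  have h3 : ∀ a ∈ Finset.range B, ∑ b ∈ Finset.range B, FF E ((a : ZMod p) - (b : ZMod p)) ≤
      FF E 0 + 2 * ∑ d ∈ Finset.Ico 1 B, FF E (d : ZMod p) := by
    intro a ha
    have h4 := row_bound (fun d => FF E (d : ZMod p)) (fun d => FF_nonneg E _) B a
      (Finset.mem_range.1 ha)
    simp only [Nat.cast_zero] at h4
    refine le_trans (le_of_eq ?_) h4
    apply Finset.sum_congr rfl
    intro b _
    split_ifs with hba
    · rw [Nat.cast_sub hba]
    · rw [Nat.cast_sub (by omega), ← FF_neg]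
      congr 1
      ring
  have h4 := h2.trans (Finset.sum_le_sum h3)
  rw [Finset.sum_const, Finset.card_range, nsmul_eq_mul, FF_zero] at h4
  have hBr : (0 : ℝ) < B := by exact_mod_cast hB
  have h5 : (p : ℝ) * B ≤ (∑ i, ∑ j, kk E i j) + 2 * ∑ d ∈ Finset.Ico 1 B, FF E (d : ZMod p) := by
    have h6 : (B : ℝ) * (p * B) ≤ B * ((∑ i, ∑ j, kk E i j) +
        2 * ∑ d ∈ Finset.Ico 1 B, FF E (d : ZMod p)) := by
      calc (B : ℝ) * (p * B) = p * B ^ 2 := by ring
        _ ≤ _ := h4
    exact le_of_mul_le_mul_left h6 hBr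
  linarith

/-- Many good frequencies. -/
theorem good_count (E : Q → ZMod p → ℝ) (B : ℕ) (hB : 0 < B) (C : ℝ) (hC : 0 < C)
    (hCE : ∀ ξ ≠ 0, FF E ξ ≤ C) (hBp : B ≤ p)
    (hE : (p : ℝ) * B / 4 ≤ ∑ d ∈ Finset.Ico 1 B, FF E (d : ZMod p)) :
    (p : ℝ) * B / (8 * C) ≤
      (((Finset.Ico 1 B).filter (fun d : ℕ => (p : ℝ) / 8 ≤ FF E (d : ZMod p))).card : ℝ) := by
  classical
  have hp := p_pos p
  set G := (Finset.Ico 1 B).filter (fun d : ℕ => (p : ℝ) / 8 ≤ FF E (d : ZMod p)) with hG
  have h1 : ∑ d ∈ Finset.Ico 1 B, FF E (d : ZMod p) ≤ G.card * C + B * (p / 8) := by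
    rw [← Finset.sum_filter_add_sum_filter_not (Finset.Ico 1 B)
      (fun d : ℕ => (p : ℝ) / 8 ≤ FF E (d : ZMod p))]
    apply add_le_add
    · rw [← nsmul_eq_mul]
      apply Finset.sum_le_card_nsmul
      intro d hd
      simp only [Finset.mem_filter, Finset.mem_Ico] at hd
      exact hCE _ (nat_cast_ne_zero (by omega) (by omega))
    · calc ∑ d ∈ (Finset.Ico 1 B).filter (fun d : ℕ => ¬ (p : ℝ) / 8 ≤ FF E (d : ZMod p)),
            FF E (d : ZMod p)
          ≤ ∑ d ∈ (Finset.Ico 1 B).filter (fun d : ℕ => ¬ (p : ℝ) / 8 ≤ FF E (d : ZMod p)),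
            ((p : ℝ) / 8) := by
            apply Finset.sum_le_sum
            intro d hd
            simp only [Finset.mem_filter, not_le] at hd
            exact hd.2.le
        _ ≤ B * (p / 8) := by
            rw [Finset.sum_const, nsmul_eq_mul]
            apply mul_le_mul_of_nonneg_right _ (by positivity)
            have := Finset.card_filter_le (Finset.Ico 1 B)
              (fun d : ℕ => ¬ (p : ℝ) / 8 ≤ FF E (d : ZMod p))
            rw [Nat.card_Ico] at this
            exact_mod_cast this.trans (Nat.sub_le _ _)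
  rw [div_le_iff₀ (by positivity)]
  nlinarith

end

end Pool.Agent.Work.MP_cda452_an
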