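import Pool.Agent.Work.MP_cda452_an.Window
import Pool.Agent.Work.MP_cda452_an.Cells
import Pool.Agent.Work.MP_cda452_an.Mdim

set_option autoImplicit false
set_option linter.unusedSectionVars false

namespace Pool.Agent.Work.MP_cda452_an

open Filter

section
variable {p : ℕ} [Fact p.Prime] {G : (ℤ → ℕ → ℝ) → ℝ}

theorem EQ_diff (h01 : ∀ D, 0 ≤ G D ∧ G D ≤ 1) {l : ℕ} (t t' : Pt p) (ε : ℝ)
    (hc : ∀ k < p, |G (sft (k : ℤ) (Om (nm t))) - G (sft (k : ℤ) (Om (nm t')))| < ε)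
    (q : Fin l → Bool) (i : ZMod p) :
    (EQ G q (rot i t) - EQ G q (rot i t')) ^ 2 ≤ (l : ℝ) ^ 2 * ε := by
  have h1 := abs_prod_sub_prod_le (Finset.univ : Finset (Fin l))
    (fun j => eb G (q j) (Om (nm (rot ((j : ℕ) : ZMod p) (rot i t)))))
    (fun j => eb G (q j) (Om (nm (rot ((j : ℕ) : ZMod p) (rot i t')))))
    (fun _ => eb_nonneg _ _) (fun _ => eb_le_one h01 _ _)
    (fun _ => eb_nonneg _ _) (fun _ => eb_le_one h01 _ _)
  have h2 : ∀ j : Fin l, |eb G (q j) (Om (nm (rot ((j : ℕ) : ZMod p) (rot i t)))) -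
      eb G (q j) (Om (nm (rot ((j : ℕ) : ZMod p) (rot i t'))))| ^ 2 ≤ ε := by
    intro j
    rw [sq_abs, rot_rot, rot_rot, Om_nm_rot, Om_nm_rot]
    exact (eb_close h01 _ _ _).trans (hc _ (ZMod.val_lt _)).le
  calc (EQ G q (rot i t) - EQ G q (rot i t')) ^ 2
      = |EQ G q (rot i t) - EQ G q (rot i t')| ^ 2 := (sq_abs _).symm
    _ ≤ (∑ j : Fin l, |eb G (q j) (Om (nm (rot ((j : ℕ) : ZMod p) (rot i t)))) -
          eb G (q j) (Om (nm (rot ((j : ℕ) : ZMod p) (rot i t'))))|) ^ 2 :=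
        pow_le_pow_left₀ (abs_nonneg _) h1 2
    _ ≤ (Finset.univ : Finset (Fin l)).card * ∑ j : Fin l,
          |eb G (q j) (Om (nm (rot ((j : ℕ) : ZMod p) (rot i t)))) -
          eb G (q j) (Om (nm (rot ((j : ℕ) : ZMod p) (rot i t'))))| ^ 2 :=
        sq_sum_le_card_mul_sum_sq
    _ ≤ (l : ℝ) * (l * ε) := by
        rw [Finset.card_univ, Fintype.card_fin]
        apply mul_le_mul_of_nonneg_left _ (by positivity)
        calc ∑ j : Fin l, |_| ^ 2 ≤ ∑ j : Fin l, ε := Finset.sum_le_sum (fun j _ => h2 j)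
          _ = l * ε := by simp
    _ = (l : ℝ) ^ 2 * ε := by ring

/-- The set of good parameters. -/
def Zs (p : ℕ) [Fact p.Prime] (G : (ℤ → ℕ → ℝ) → ℝ) (l : ℕ) : Set (Pt p) :=
  {t | Om (nm t) ∈ XX ∧
    p / 16 < (Finset.univ.filter (fun i : ZMod p => uF (rot i t) ≠ 0)).card ∧
    p / 16 < (Finset.univ.filter (fun i : ZMod p => vF (rot i t) ≠ 0)).card ∧
    (∀ ξ ≠ 0, ‖FT (EE (fun t => ((aF t : ℝ) : ℂ)) t) ξ‖ ^ 2 ≤ 32 * p) ∧
    (∀ ξ ≠ 0, ‖FT (EE (fun t => ((bF t : ℝ) : ℂ)) t) ξ‖ ^ 2 ≤ 32 * p) ∧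
    ∀ q : Fin l → Bool, ∀ ξ ≠ 0, ‖FT (EE (fun t => ((EQ G q t : ℝ) : ℂ)) t) ξ‖ ^ 2 ≤
      64 * (Fintype.card (Fin l → Bool)) * p}

theorem cut_flat (f : Pt p → ℝ) (hf : ContinuousOn f (Sph p)) (h0 : ∀ t, 0 ≤ f t)
    (h1 : ∀ t, f t ≤ 1) (k : ℕ) (hk : 0 < k) :
    Cut p (p / k) {t | ∀ ξ ≠ 0, ‖FT (EE (fun t => ((f t : ℝ) : ℂ)) t) ξ‖ ^ 2 ≤ k * p} := by
  have hp := p_pos p
  have hkr : (0 : ℝ) < k := by exact_mod_cast hk
  refine (cut_removal (fun t => ((f t : ℝ) : ℂ)) (Complex.continuous_ofReal.comp_continuousOn hf)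
    (by
      intro t _
      rw [Complex.norm_real, Real.norm_eq_abs, abs_of_nonneg (h0 t)]
      exact h1 t) (Real.sqrt (k * p)) (Real.sqrt_pos.2 (by positivity)) (p / k) (by
      rw [Real.sq_sqrt (by positivity)]
      have h2 : p < k * (p / k + 1) := by
        have := Nat.lt_div_mul_add (a := p) (b := k) hk
        nlinarith
      have h3 : (p : ℝ) ≤ k * ((p / k : ℕ) + 1) := by exact_mod_cast h2.le
      nlinarith)).mono ?_
  intro t _ h ξ hξ
  have h4 := h ξ hξ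
  calc _ ≤ (Real.sqrt (k * p)) ^ 2 := pow_le_pow_left₀ (norm_nonneg _) h4 2
    _ = k * p := Real.sq_sqrt (by positivity)

theorem cut_Zs (hG : Continuous G) (h01 : ∀ D, 0 ≤ G D ∧ G D ≤ 1) (l : ℕ) :
    Cut p ((∑ j ∈ Finset.range p, p / (kj j + 1)) + (p / 16 + (p / 16 + (p / 32 + (p / 32 +
      ∑ _j ∈ Finset.range (Fintype.card (Fin l → Bool)),
        p / (64 * Fintype.card (Fin l → Bool))))))) (Zs p G l) := by
  classical
  have hR : 0 < Fintype.card (Fin l → Bool) := Fintype.card_pos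
  let e := Fintype.equivFin (Fin l → Bool)
  have hE : Cut p (∑ _j ∈ Finset.range (Fintype.card (Fin l → Bool)),
      p / (64 * Fintype.card (Fin l → Bool)))
      {t | ∀ q : Fin l → Bool, ∀ ξ ≠ 0, ‖FT (EE (fun t => ((EQ G q t : ℝ) : ℂ)) t) ξ‖ ^ 2 ≤
        64 * (Fintype.card (Fin l → Bool)) * p} := by
    refine (Cut.iInter (p := p) (J := Fintype.card (Fin l → Bool))
      (m := fun _ => p / (64 * Fintype.card (Fin l → Bool)))
      (Z := fun j => {t | ∀ h : j < Fintype.card (Fin l → Bool), ∀ ξ ≠ 0,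
        ‖FT (EE (fun t => ((EQ G (e.symm ⟨j, h⟩) t : ℝ) : ℂ)) t) ξ‖ ^ 2 ≤
        64 * (Fintype.card (Fin l → Bool)) * p}) ?_).mono ?_
    · intro j hj
      refine (cut_flat (EQ G (e.symm ⟨j, hj⟩)) (EQ_cont hG _) (fun t => EQ_nonneg _ t)
        (fun t => EQ_le_one h01 _ t) (64 * Fintype.card (Fin l → Bool)) (by positivity)).mono ?_
      intro t _ h _ ξ hξ
      have := h ξ hξ
      push_cast at this ⊢
      exact this
    · intro t _ h q ξ hξ
      have := h (e q).1 (e q).2 (e q).2 ξ hξ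
      simpa using this
  refine ((cut_X (p := p)).inter (cut_u.inter (cut_v.inter
    ((cut_flat aF aF_cont (fun _ => clamp_nonneg _) (fun _ => clamp_le_one _) 32
      (by norm_num)).inter
    ((cut_flat bF bF_cont (fun _ => clamp_nonneg _) (fun _ => clamp_le_one _) 32
      (by norm_num)).inter hE))))).mono ?_
  rintro t _ ⟨h1, h2, h3, h4, h5, h6⟩
  refine ⟨h1, h2, h3, ?_, ?_, h6⟩
  · intro ξ hξ; have := h4 ξ hξ; push_cast at this; exact this
  · intro ξ hξ; have := h5 ξ hξ; push_cast at this; exact this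

theorem count_bound (p l : ℕ) (hp : 16 ≤ p) :
    2 * (((∑ j ∈ Finset.range p, p / (kj j + 1)) + (p / 16 + (p / 16 + (p / 32 + (p / 32 +
      ∑ _j ∈ Finset.range (Fintype.card (Fin l → Bool)),
        p / (64 * Fintype.card (Fin l → Bool))))))) + p / 16) + 2 ≤ p := by
  have hR : 0 < Fintype.card (Fin l → Bool) := Fintype.card_pos
  set R := Fintype.card (Fin l → Bool) with hRdef
  have h1 := sum_div_le p p
  have h2 : ((p / 16 : ℕ) : ℝ) ≤ p / 16 := by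
    have := @Nat.cast_div_le ℝ _ _ _ p 16
    exact_mod_cast this
  have h3 : ((p / 32 : ℕ) : ℝ) ≤ p / 32 := by
    have := @Nat.cast_div_le ℝ _ _ _ p 32
    exact_mod_cast this
  have h4 : ((∑ _j ∈ Finset.range R, p / (64 * R) : ℕ) : ℝ) ≤ p / 64 := by
    rw [Finset.sum_const, Finset.card_range, smul_eq_mul]
    push_cast
    have h5 := @Nat.cast_div_le ℝ _ _ _ p (64 * R)
    push_cast at h5
    have hRr : (0 : ℝ) < R := by exact_mod_cast hR
    calc (R : ℝ) * ((p / (64 * R) : ℕ) : ℝ) ≤ R * (p / (64 * R)) := by gcongr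
      _ = p / 64 := by field_simp
  have hpr : (16 : ℝ) ≤ p := by exact_mod_cast hp
  generalize (∑ j ∈ Finset.range p, p / (kj j + 1)) = S1 at h1 ⊢
  generalize (∑ _j ∈ Finset.range R, p / (64 * R)) = S2 at h4 ⊢
  generalize p / 16 = S3 at h2 ⊢
  generalize p / 32 = S4 at h3 ⊢
  have h6 : ((2 * ((S1 + (S3 + (S3 + (S4 + (S4 + S2))))) + S3) + 2 : ℕ) : ℝ) ≤ p := by
    push_cast
    linarith
  exact_mod_cast h6

end

end Pool.Agent.Work.MP_cda452_an
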