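import Pool.Agent.Work.MP_cda452_an.BU

set_option autoImplicit false
set_option linter.unusedSectionVars false

namespace Pool.Agent.Work.MP_cda452_an

section
variable {p : ℕ} [Fact p.Prime]

/-- Fourier transform. -/
noncomputable def FT (f : ZMod p → ℂ) (ξ : ZMod p) : ℂ :=
  ∑ i, f i * ZMod.stdAddChar (-(ξ * i))

/-- The orbit function of a feature. -/
def EE (f : Pt p → ℂ) (t : Pt p) : ZMod p → ℂ := fun i => f (rot i t)

theorem EE_rot (f : Pt p → ℂ) (t : Pt p) (i : ZMod p) :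
    EE f (rot 1 t) i = EE f t (i + 1) := by
  simp only [EE, rot_rot]

theorem char_add (a b : ZMod p) :
    (ZMod.stdAddChar (a + b) : ℂ) = ZMod.stdAddChar a * ZMod.stdAddChar b :=
  AddChar.map_add_eq_mul _ a b

theorem char_zero : (ZMod.stdAddChar (0 : ZMod p) : ℂ) = 1 := AddChar.map_zero_eq_one _

theorem char_pow (a : ZMod p) (n : ℕ) :
    (ZMod.stdAddChar ((n : ZMod p) * a) : ℂ) = ZMod.stdAddChar a ^ n := by
  rw [← AddChar.map_nsmul_eq_pow, nsmul_eq_mul]

theorem char_ne_zero (a : ZMod p) : (ZMod.stdAddChar a : ℂ) ≠ 0 := by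
  rw [← norm_ne_zero_iff, norm_stdAddChar]; norm_num

theorem FT_EE_rot (f : Pt p → ℂ) (t : Pt p) (ξ : ZMod p) :
    FT (EE f (rot 1 t)) ξ = ZMod.stdAddChar ξ * FT (EE f t) ξ := by
  unfold FT
  rw [Finset.mul_sum]
  apply Fintype.sum_equiv (Equiv.addRight (1 : ZMod p))
  intro i
  simp only [Equiv.coe_addRight]
  rw [EE_rot]
  have : (-(ξ * i) : ZMod p) = ξ + -(ξ * (i + 1)) := by ring
  rw [this, char_add]
  ring

theorem continuous_rot (i : ZMod p) : Continuous (rot i : Pt p → Pt p) :=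
  continuous_pi (fun _ => continuous_apply _)

theorem FT_EE_cont {f : Pt p → ℂ} (hf : ContinuousOn f (Sph p)) (ξ : ZMod p) :
    ContinuousOn (fun t => FT (EE f t) ξ) (Sph p) := by
  unfold FT EE
  apply continuousOn_finsetSum
  intro i _
  apply ContinuousOn.mul _ continuousOn_const
  exact hf.comp (continuous_rot i).continuousOn (fun t ht => rot_Sph i ht)

theorem cut_lin (B : ℕ) (ξ : ℕ → ZMod p) (f : ℕ → Pt p → ℂ)
    (hf : ∀ c < B, ContinuousOn (f c) (Sph p)) (hξ : ∀ c < B, ξ c ≠ 0) :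
    Cut p B {t | ∀ c < B, FT (EE (f c) t) (ξ c) = 0} :=
  ⟨fun c t => FT (EE (f c) t) (ξ c), ξ, fun c hc => FT_EE_cont (hf c hc) _, hξ,
    fun _ _ _ _ => FT_EE_rot _ _ _, fun _ _ h => h⟩

theorem vand {ι : Type} (s : Finset ι) (x v : ι → ℂ) (hx : Set.InjOn x s)
    (L : ℕ) (hL : s.card ≤ L) (h : ∀ a < L, ∑ i ∈ s, v i * x i ^ a = 0) : ∀ i ∈ s, v i = 0 := by
  classical
  let e := s.equivFin
  have h1 : (fun k : Fin s.card => v (e.symm k)) = 0 := by
    apply Matrix.eq_zero_of_forall_pow_sum_mul_pow_eq_zero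
      (f := fun k : Fin s.card => x (e.symm k))
    · intro a b hab
      have := hx (e.symm a).2 (e.symm b).2 hab
      exact e.symm.injective (Subtype.ext this)
    · intro i
      have h2 := h i (by omega)
      rw [← h2, ← Finset.sum_coe_sort s]
      exact (Fintype.sum_equiv e (fun i' : s => v i' * x i' ^ (i : ℕ))
        (fun k : Fin s.card => v (e.symm k) * x (e.symm k) ^ (i : ℕ))
        (fun i' => by simp)).symm
  intro i hi
  have h2 := congrFun h1 (e ⟨i, hi⟩)
  simpa using h2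

theorem nat_cast_ne_zero {n : ℕ} (h0 : 0 < n) (h1 : n < p) : (n : ZMod p) ≠ 0 := by
  intro h
  rw [ZMod.natCast_eq_zero_iff] at h
  exact absurd (Nat.le_of_dvd h0 h) (not_le.2 h1)

/-- A function with small support and vanishing first Fourier coefficients vanishes. -/
theorem bch (v : ZMod p → ℂ) (L : ℕ) (hL : (Finset.univ.filter (fun i => v i ≠ 0)).card ≤ L)
    (h : ∀ a < L, FT v ((a + 1 : ℕ) : ZMod p) = 0) : v = 0 := by
  classical
  have key := vand (Finset.univ.filter (fun i => v i ≠ 0))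
    (fun i : ZMod p => (ZMod.stdAddChar (-i) : ℂ))
    (fun i => v i * ZMod.stdAddChar (-i)) (by
      intro a _ b _ hab
      have := ZMod.injective_stdAddChar hab
      exact neg_injective this) L hL (by
      intro a ha
      have h1 := h a ha
      unfold FT at h1
      refine Eq.trans ?_ h1
      rw [Finset.sum_filter]
      apply Finset.sum_congr rfl
      intro i _
      split_ifs with hi
      · have : (-(((a + 1 : ℕ) : ZMod p) * i)) = ((a + 1 : ℕ) : ZMod p) * (-i) := by ring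
        rw [this, char_pow, pow_succ]
        ring
      · push Not at hi
        simp only [hi, zero_mul])
  funext i
  by_contra hi
  have h1 := key i (by simpa using hi)
  rcases mul_eq_zero.1 h1 with h2 | h2
  · exact hi h2
  · exact char_ne_zero _ h2

theorem cut_bch (f : Pt p → ℂ) (hf : ContinuousOn f (Sph p)) (L : ℕ) (hL : L < p) :
    Cut p L {t | (Finset.univ.filter (fun i => f (rot i t) ≠ 0)).card ≤ L →
      ∀ i, f (rot i t) = 0} := by
  refine (cut_lin L (fun c => ((c + 1 : ℕ) : ZMod p)) (fun _ => f) (fun _ _ => hf)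
    (fun c hc => nat_cast_ne_zero (by omega) (by omega))).mono ?_
  intro t _ ht hs i
  exact congrFun (bch (EE f t) L hs ht) i

/-! ### Parseval -/

theorem sum_char (a : ZMod p) :
    ∑ ξ : ZMod p, (ZMod.stdAddChar (ξ * a) : ℂ) = if a = 0 then (p : ℂ) else 0 := by
  classical
  rw [AddChar.sum_mulShift a (ZMod.isPrimitive_stdAddChar p)]
  simp [ZMod.card]

theorem conj_char (a : ZMod p) :
    (starRingEnd ℂ) (ZMod.stdAddChar a : ℂ) = ZMod.stdAddChar (-a) := by
  have h1 : (ZMod.stdAddChar a : ℂ) * ZMod.stdAddChar (-a) = 1 := by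
    rw [← char_add, add_neg_cancel, char_zero]
  have h2 : (ZMod.stdAddChar a : ℂ) * (starRingEnd ℂ) (ZMod.stdAddChar a : ℂ) = 1 := by
    rw [Complex.mul_conj, Complex.normSq_eq_norm_sq, norm_stdAddChar]
    norm_num
  exact mul_left_cancel₀ (char_ne_zero a) (h2.trans h1.symm)

theorem norm_sq_FT (f : ZMod p → ℂ) (ξ : ZMod p) :
    ((‖FT f ξ‖ ^ 2 : ℝ) : ℂ) =
      ∑ i, ∑ j, f i * (starRingEnd ℂ) (f j) * ZMod.stdAddChar (ξ * (j - i)) := by
  rw [← Complex.normSq_eq_norm_sq, ← Complex.mul_conj]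
  unfold FT
  rw [map_sum, Finset.sum_mul_sum]
  apply Finset.sum_congr rfl
  intro i _
  apply Finset.sum_congr rfl
  intro j _
  rw [map_mul, conj_char]
  have : (ξ * (j - i) : ZMod p) = -(ξ * i) + - -(ξ * j) := by ring
  rw [this, char_add]
  ring

theorem parseval (f : ZMod p → ℂ) : ∑ ξ, ‖FT f ξ‖ ^ 2 = p * ∑ i, ‖f i‖ ^ 2 := by
  have h : ((∑ ξ, ‖FT f ξ‖ ^ 2 : ℝ) : ℂ) = ((p * ∑ i, ‖f i‖ ^ 2 : ℝ) : ℂ) := by
    push_cast
    have h1 : ∀ ξ : ZMod p, ((‖FT f ξ‖ : ℂ)) ^ 2 =
        ∑ i, ∑ j, f i * (starRingEnd ℂ) (f j) * ZMod.stdAddChar (ξ * (j - i)) := by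
      intro ξ
      rw [← norm_sq_FT]
      push_cast
      rfl
    simp only [h1]
    rw [Finset.sum_comm, Finset.mul_sum]
    apply Finset.sum_congr rfl
    intro i _
    rw [Finset.sum_comm]
    have h2 : ∀ j : ZMod p, ∑ ξ : ZMod p, f i * (starRingEnd ℂ) (f j) *
        (ZMod.stdAddChar (ξ * (j - i)) : ℂ) =
        if j = i then (p : ℂ) * (‖f i‖ : ℂ) ^ 2 else 0 := by
      intro j
      rw [← Finset.mul_sum, sum_char]
      by_cases hij : j = i
      · subst hij
        simp only [sub_self, if_true]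
        rw [Complex.mul_conj, Complex.normSq_eq_norm_sq]
        push_cast
        ring
      · simp [hij, sub_eq_zero]
    simp only [h2]
    simp
  exact_mod_cast h

/-! ### removal of large coefficients -/

/-- Soft threshold with change of character. -/
noncomputable def WW (c : ℝ) (n : ℕ) (z : ℂ) : ℂ :=
  ((max (‖z‖ - c) 0 : ℝ) : ℂ) * (z / ((max ‖z‖ c : ℝ) : ℂ)) ^ n

theorem WW_cont {c : ℝ} (hc : 0 < c) (n : ℕ) : Continuous (WW c n) := by
  unfold WW
  apply Continuous.mul
  · exact Complex.continuous_ofReal.comp ((continuous_norm.sub continuous_const).max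
      continuous_const)
  · apply Continuous.pow
    apply Continuous.div continuous_id
    · exact Complex.continuous_ofReal.comp (continuous_norm.max continuous_const)
    · intro z
      have : 0 < max ‖z‖ c := lt_max_of_lt_right hc
      exact_mod_cast this.ne'

theorem WW_zero {c : ℝ} (hc : 0 < c) (n : ℕ) {z : ℂ} (h : WW c n z = 0) : ‖z‖ ≤ c := by
  by_contra hz
  push Not at hz
  have h1 : 0 < max (‖z‖ - c) 0 := lt_max_of_lt_left (by linarith)
  have h2 : 0 < max ‖z‖ c := lt_max_of_lt_right hc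
  have h3 : z ≠ 0 := by
    rintro rfl
    rw [norm_zero] at hz
    linarith
  unfold WW at h
  rcases mul_eq_zero.1 h with h4 | h4
  · exact h1.ne' (by exact_mod_cast h4)
  · have h6 : z / ((max ‖z‖ c : ℝ) : ℂ) = 0 := eq_zero_of_pow_eq_zero h4
    rcases div_eq_zero_iff.1 h6 with h7 | h7
    · exact h3 h7
    · exact h2.ne' (by exact_mod_cast h7)

theorem WW_eq_zero {c : ℝ} (n : ℕ) {z : ℂ} (h : ‖z‖ ≤ c) : WW c n z = 0 := by
  unfold WW
  rw [max_eq_right (by linarith)]
  simp

theorem WW_char {c : ℝ} (ξ : ZMod p) (hξ : ξ ≠ 0) (z : ℂ) :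
    WW c (ξ⁻¹).val (ZMod.stdAddChar ξ * z) = ZMod.stdAddChar (1 : ZMod p) * WW c (ξ⁻¹).val z := by
  unfold WW
  rw [norm_mul, norm_stdAddChar, one_mul, mul_div_assoc, mul_pow, ← char_pow,
    ZMod.natCast_zmod_val, inv_mul_cancel₀ hξ]
  ring

theorem cut_removal (f : Pt p → ℂ) (hf : ContinuousOn f (Sph p)) (hf1 : ∀ t ∈ Sph p, ‖f t‖ ≤ 1)
    (c : ℝ) (hc : 0 < c) (L : ℕ) (hL : (p : ℝ) ^ 2 ≤ c ^ 2 * (L + 1)) :
    Cut p L {t | ∀ ξ ≠ 0, ‖FT (EE f t) ξ‖ ≤ c} := by
  classical
  refine ⟨fun a t => ∑ ξ ∈ Finset.univ.filter (fun ξ : ZMod p => ξ ≠ 0),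
    WW c (ξ⁻¹).val (FT (EE f t) ξ) * (ξ.val : ℂ) ^ a, fun _ => 1, ?_, ?_, ?_, ?_⟩
  · intro a _
    apply continuousOn_finsetSum
    intro ξ _
    exact ((WW_cont hc _).comp_continuousOn (FT_EE_cont hf ξ)).mul continuousOn_const
  · intro _ _
    exact one_ne_zero
  · intro a _ t _
    simp only
    rw [Finset.mul_sum]
    apply Finset.sum_congr rfl
    intro ξ hξ
    rw [FT_EE_rot, WW_char ξ (by simpa using hξ)]
    ring
  · intro t ht h ξ hξ
    set s := Finset.univ.filter (fun ξ : ZMod p => ξ ≠ 0 ∧ c < ‖FT (EE f t) ξ‖) with hs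
    have hcard : s.card ≤ L := by
      have h1 : (s.card : ℝ) * c ^ 2 ≤ ∑ ξ ∈ s, ‖FT (EE f t) ξ‖ ^ 2 := by
        rw [← nsmul_eq_mul]
        apply Finset.card_nsmul_le_sum
        intro ξ hξ
        simp only [hs, Finset.mem_filter] at hξ
        exact pow_le_pow_left₀ hc.le hξ.2.2.le 2
      have h2 : ∑ ξ ∈ s, ‖FT (EE f t) ξ‖ ^ 2 ≤ ∑ ξ, ‖FT (EE f t) ξ‖ ^ 2 :=
        Finset.sum_le_sum_of_subset_of_nonneg (Finset.subset_univ _)
          (fun _ _ _ => by positivity)
      have h3 : ∑ i, ‖EE f t i‖ ^ 2 ≤ p := by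
        calc ∑ i, ‖EE f t i‖ ^ 2 ≤ ∑ i : ZMod p, (1 : ℝ) := by
              apply Finset.sum_le_sum
              intro i _
              have := hf1 _ (rot_Sph i ht)
              exact pow_le_one₀ (norm_nonneg _) this
          _ = p := by simp [ZMod.card]
      rw [parseval] at h2
      have hp : (0 : ℝ) < p := by exact_mod_cast (Fact.out : p.Prime).pos
      have h4 : (s.card : ℝ) * c ^ 2 ≤ c ^ 2 * (L + 1) := by
        calc (s.card : ℝ) * c ^ 2 ≤ p * ∑ i, ‖EE f t i‖ ^ 2 := h1.trans h2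
          _ ≤ p * p := by gcongr
          _ = (p : ℝ) ^ 2 := by ring
          _ ≤ _ := hL
      rcases s.eq_empty_or_nonempty with he | hne
      · rw [he]; simp
      · have h5 : (s.card : ℝ) * c ^ 2 < ∑ ξ ∈ s, ‖FT (EE f t) ξ‖ ^ 2 := by
          have : (s.card : ℝ) * c ^ 2 = ∑ ξ ∈ s, c ^ 2 := by simp
          rw [this]
          apply Finset.sum_lt_sum_of_nonempty hne
          intro ξ hξ
          simp only [hs, Finset.mem_filter] at hξ
          exact pow_lt_pow_left₀ hξ.2.2 hc.le (by norm_num)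
        have h6 : (s.card : ℝ) * c ^ 2 < c ^ 2 * (L + 1) := by
          calc (s.card : ℝ) * c ^ 2 < p * ∑ i, ‖EE f t i‖ ^ 2 := h5.trans_le h2
            _ ≤ p * p := by gcongr
            _ = (p : ℝ) ^ 2 := by ring
            _ ≤ _ := hL
        have h7 : (s.card : ℝ) < L + 1 := by
          have hc2 : 0 < c ^ 2 := by positivity
          rw [mul_comm] at h6
          exact lt_of_mul_lt_mul_left h6 hc2.le
        have : s.card < L + 1 := by exact_mod_cast h7
        omega
    have hv := vand s (fun ξ : ZMod p => (ξ.val : ℂ))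
      (fun ξ => WW c (ξ⁻¹).val (FT (EE f t) ξ)) (by
        intro a _ b _ hab
        have hab' : (a.val : ℂ) = (b.val : ℂ) := hab
        have : a.val = b.val := by exact_mod_cast hab'
        exact ZMod.val_injective p this) L hcard (by
        intro a ha
        rw [← h a ha]
        apply Finset.sum_subset
        · intro ξ hξ
          simp only [hs, Finset.mem_filter] at hξ ⊢
          exact ⟨hξ.1, hξ.2.1⟩
        · intro ξ hξ hξ2
          simp only [hs, Finset.mem_filter, Finset.mem_univ, true_and] at hξ hξ2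
          push Not at hξ2
          rw [WW_eq_zero _ (hξ2 hξ), zero_mul])
    by_contra hcon
    push Not at hcon
    have h8 := hv ξ (by simp only [hs, Finset.mem_filter, Finset.mem_univ, true_and]
                        exact ⟨hξ, hcon⟩)
    exact absurd (WW_zero hc _ h8) (not_le.2 hcon)

end

end Pool.Agent.Work.MP_cda452_an
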