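import Pool.Agent.Work.MP_cda452_an.Subdiv

set_option autoImplicit false
set_option linter.unusedSectionVars false

namespace Pool.Agent.Work.MP_cda452_an

open Finsupp

section
variable {p : ℕ} [Fact p.Prime]

/-- Labels: colour and phase. -/
abbrev Lb (p : ℕ) := ℕ × ZMod p

/-- Translation of labels. -/
def rL (j : ZMod p) (a : Lb p) : Lb p := (a.1, a.2 + j)

/-- The label of largest colour. -/
def maxL : List (Lb p) → Lb p
  | [] => (0, 0)
  | a :: l => if l = [] ∨ (maxL l).1 ≤ a.1 then a else maxL l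

theorem maxL_mem : ∀ l : List (Lb p), l ≠ [] → maxL l ∈ l
  | [] => fun h => absurd rfl h
  | a :: l => fun _ => by
      rw [maxL]
      split_ifs with h
      · exact List.mem_cons_self
      · push Not at h
        exact List.mem_cons_of_mem _ (maxL_mem l h.1)

theorem le_maxL : ∀ l : List (Lb p), ∀ a ∈ l, a.1 ≤ (maxL l).1
  | [] => by simp
  | b :: l => by
      intro a ha
      rw [maxL]
      split_ifs with h
      · rcases List.mem_cons.1 ha with rfl | ha
        · exact le_rfl
        · rcases h with rfl | h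
          · simp at ha
          · exact (le_maxL l a ha).trans h
      · push Not at h
        rcases List.mem_cons.1 ha with rfl | ha
        · exact h.2.le
        · exact le_maxL l a ha

theorem maxL_map (j : ZMod p) : ∀ l : List (Lb p), l ≠ [] → maxL (l.map (rL j)) = rL j (maxL l)
  | [] => fun h => absurd rfl h
  | a :: l => fun _ => by
      rw [List.map_cons, maxL, maxL]
      rcases eq_or_ne l [] with rfl | hl
      · simp
      · have ih := maxL_map j l hl
        rw [ih]
        have e2 : ((rL j (maxL l)).1 ≤ (rL j a).1) = ((maxL l).1 ≤ a.1) := rfl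
        by_cases h : (maxL l).1 ≤ a.1
        · rw [if_pos (Or.inr (e2 ▸ h)), if_pos (Or.inr h)]
        · rw [if_neg, if_neg]
          · push Not; exact ⟨hl, not_le.1 h⟩
          · rw [e2, List.map_eq_nil_iff]
            push Not; exact ⟨hl, not_le.1 h⟩

theorem sub_maxL_Sup : ∀ (k : ℕ) (l : List (Lb p)), l.length = k →
    sub maxL k (single l (1 : ZMod p)) ∈ Sup p {m : List (Lb p) | m.length = k ∧
      (∀ a ∈ m, a ∈ l) ∧ m.Pairwise (fun a b => b.1 ≤ a.1)} := by
  intro k
  induction k with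
  | zero =>
    intro l _
    rw [sub_zero_single]
    apply single_mem_Sup
    simp
  | succ k ih =>
    intro l hl
    rw [sub_succ_single]
    have hlne : l ≠ [] := by rintro rfl; simp at hl
    have h1 := map_Sup (A := {m : List (Lb p) | m.length + 1 = k + 1 ∧ m.Sublist l})
      (cone (maxL l) ∘ₗ sub maxL k) (Sup p {m : List (Lb p) | m.length = k + 1 ∧
      (∀ a ∈ m, a ∈ l) ∧ m.Pairwise (fun a b => b.1 ≤ a.1)}) (p := p) (by
        rintro m ⟨hm1, hm2⟩
        rw [LinearMap.comp_apply]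
        have h2 := ih m (by omega)
        apply cone_Sup _ _ h2
        rintro q ⟨hq1, hq2, hq3⟩
        refine ⟨by simp [hq1], ?_, ?_⟩
        · intro a ha
          rcases List.mem_cons.1 ha with rfl | ha
          · exact maxL_mem l hlne
          · exact hm2.subset (hq2 a ha)
        · rw [List.pairwise_cons]
          exact ⟨fun a ha => le_maxL l a (hm2.subset (hq2 a ha)), hq3⟩) (x := dL l) (by
        have := dL_Sup (p := p) l
        rw [hl] at this
        exact this)
    exact h1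

/-- Monotone good label lists longer than the number of colours are degenerate. -/
theorem deg_of_long {M : ℕ} (m : List (Lb p)) (h1 : m.length = M + 1)
    (h2 : ∀ a ∈ m, a.1 < M) (h3 : ∀ a ∈ m, ∀ b ∈ m, a.1 = b.1 → a = b)
    (h4 : m.Pairwise (fun a b => b.1 ≤ a.1)) : m.map Prod.snd ∈ Deg (ZMod p) := by
  intro hc
  rw [List.isChain_map] at hc
  have h5 : m.IsChain (fun a b => b.1 < a.1) := by
    have h6 : m.IsChain (fun a b => b.1 ≤ a.1 ∧ a.2 ≠ b.2 ∧ a ∈ m ∧ b ∈ m) := by
      rw [List.isChain_iff_getElem] at hc ⊢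
      intro i hi
      refine ⟨?_, hc i hi, List.getElem_mem _, List.getElem_mem _⟩
      rw [List.pairwise_iff_getElem] at h4
      exact h4 i (i + 1) _ _ (Nat.lt_succ_self i)
    refine h6.imp ?_
    rintro a b ⟨h7, h8, h9, h10⟩
    rcases h7.lt_or_eq with h | h
    · exact h
    · exfalso
      apply h8
      rw [h3 b h10 a h9 h]
  have h6 : (m.map Prod.fst).IsChain (fun a b => b < a) := by
    rw [List.isChain_map]
    exact h5
  have h7 : (m.map Prod.fst).Pairwise (fun a b => b < a) := by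
    have : IsTrans ℕ (fun a b => b < a) := ⟨fun a b c h1 h2 => lt_trans h2 h1⟩
    exact List.isChain_iff_pairwise.1 h6
  have h8 : (m.map Prod.fst).Nodup := h7.imp (fun h => ne_of_gt h)
  have h9 : (m.map Prod.fst).toFinset ⊆ Finset.range M := by
    intro c hc
    rw [List.mem_toFinset, List.mem_map] at hc
    obtain ⟨a, ha, rfl⟩ := hc
    exact Finset.mem_range.2 (h2 a ha)
  have h10 := Finset.card_le_card h9
  rw [List.toFinset_card_of_nodup h8, List.length_map, h1, Finset.card_range] at h10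
  omega

theorem tr_eq (j : ZMod p) (a : Lb p) : (rL j a).2 = tr j a.2 := rfl

/-- No equivariant labelling of the sphere with too few colours. -/
theorem no_label {M : ℕ} (hM : M + 2 ≤ p) (lam : Pt p → Lb p)
    (heq : ∀ j, ∀ t ∈ Sph p, lam (rot j t) = rL j (lam t))
    (hc : ∀ t ∈ Sph p, (lam t).1 < M)
    (hd : ∃ δ > 0, ∀ t ∈ Sph p, ∀ t' ∈ Sph p, dist t t' ≤ δ → (lam t).1 = (lam t').1 →
      lam t = lam t') : False := by
  obtain ⟨δ, hδ, hd⟩ := hd
  have hp : (1 : ℝ) < p := by exact_mod_cast (Fact.out : p.Prime).one_lt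
  obtain ⟨r, hr⟩ := exists_pow_lt_of_lt_one hδ (show (1 - 1 / (p : ℝ)) < 1 by
    have : 0 < 1 / (p : ℝ) := by positivity
    linarith)
  have hsd : ∀ i, i + 1 < p → sdr (i + 1) r (cc i : Ch p (Pt p)) ∈
      Sup p (QQ p (i + 1) ((1 - 1 / (p : ℝ)) ^ r)) :=
    fun i hi => sdr_QQ hi.le r (cc_QQ i)
  have hsS : ∀ i, i + 1 < p → sdr (i + 1) r (cc i : Ch p (Pt p)) ∈
      Sup p {l : List (Pt p) | ∀ v ∈ l, v ∈ Sph p} := by
    intro i hi
    refine Finsupp.supported_mono ?_ (hsd i hi)
    rintro l ⟨h1, ⟨J, hJ, hJ2⟩, h3⟩ v hv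
    exact face_Sph (by omega) (hJ2 v hv)
  refine theta_main M (fun i => mapc Prod.snd (sub maxL (i + 1)
    (mapc lam (sdr (i + 1) r (cc i : Ch p (Pt p)))))) ?_ ?_ ?_
  · simp only [zero_add]
    rw [dd_mapc, dd_sub, dd_mapc, dd_sdr, dd_cc_zero, sdr_nil]
    simp
  · intro i hi
    rw [dd_mapc, dd_sub, dd_mapc, dd_sdr, dd_cc_succ, sdr_Dop,
      mapc_Dop rot rL lam (Sph p) (fun j t ht => heq j t ht) i (hsS i (by omega)),
      sub_Dop rL rL maxL (fun j l hl => maxL_map j l hl),
      mapc_Dop rL tr Prod.snd Set.univ (fun j a _ => rfl) i (by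
        refine Finsupp.supported_mono (s := Set.univ) ?_ (by simp)
        intro l _ v _
        trivial)]
  · have h1 : mapc lam (sdr (M + 1) r (cc M : Ch p (Pt p))) ∈ Sup p {l : List (Lb p) |
        l.length = M + 1 ∧ (∀ a ∈ l, a.1 < M) ∧ ∀ a ∈ l, ∀ b ∈ l, a.1 = b.1 → a = b} := by
      apply mapc_Sup _ _ (hsd M (by omega))
      rintro l ⟨h1, ⟨J, hJ, hJ2⟩, h3⟩
      have hS : ∀ v ∈ l, v ∈ Sph p := fun v hv => face_Sph (by omega) (hJ2 v hv)
      refine ⟨by simp [h1], ?_, ?_⟩
      · intro a ha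
        rw [List.mem_map] at ha
        obtain ⟨v, hv, rfl⟩ := ha
        exact hc v (hS v hv)
      · intro a ha b hb hab
        rw [List.mem_map] at ha hb
        obtain ⟨v, hv, rfl⟩ := ha
        obtain ⟨w, hw, rfl⟩ := hb
        exact hd v (hS v hv) w (hS w hw) ((h3 v hv w hw).trans hr.le) hab
    have h2 : sub maxL (M + 1) (mapc lam (sdr (M + 1) r (cc M : Ch p (Pt p)))) ∈
        Sup p {l : List (Lb p) | l.length = M + 1 ∧ (∀ a ∈ l, a.1 < M) ∧
          (∀ a ∈ l, ∀ b ∈ l, a.1 = b.1 → a = b) ∧ l.Pairwise (fun a b => b.1 ≤ a.1)} := by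
      apply map_Sup _ _ _ h1
      rintro l ⟨h3, h4, h5⟩
      refine Finsupp.supported_mono ?_ (sub_maxL_Sup (M + 1) l h3)
      rintro m ⟨h6, h7, h8⟩
      exact ⟨h6, fun a ha => h4 a (h7 a ha), fun a ha b hb => h5 a (h7 a ha) b (h7 b hb), h8⟩
    apply mapc_Sup _ _ h2
    rintro l ⟨h3, h4, h5, h6⟩
    exact deg_of_long l h3 h4 h5 h6

end

end Pool.Agent.Work.MP_cda452_an
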