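import Pool.Agent.Work.MP_cda452_an.Final

set_option autoImplicit false
set_option linter.unusedSectionVars false

namespace Pool.Agent.Work.MP_cda452_an

open Filter

section
variable {p : ℕ} [Fact p.Prime]

theorem FT_sum {Q : Type} [Fintype Q] (g : Q → ℂ) (E : Q → ZMod p → ℂ) (ξ : ZMod p) :
    FT (fun i => ∑ q, g q * E q i) ξ = ∑ q, g q * FT (E q) ξ := by
  unfold FT
  simp only [Finset.sum_mul, Finset.mul_sum]
  rw [Finset.sum_comm]
  apply Finset.sum_congr rfl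
  intro q _
  apply Finset.sum_congr rfl
  intro i _
  ring

theorem FT_sub (E E' : ZMod p → ℂ) (ξ : ZMod p) :
    FT (fun i => E i - E' i) ξ = FT E ξ - FT E' ξ := by
  unfold FT
  rw [← Finset.sum_sub_distrib]
  apply Finset.sum_congr rfl
  intro i _
  ring

theorem exists_large {Q : Type} [Fintype Q] [Nonempty Q] (z : Q → ℂ) (y : ℝ)
    (h : y ≤ ∑ q, ‖z q‖ ^ 2) : ∃ q, Real.sqrt (y / Fintype.card Q) ≤ ‖z q‖ := by
  by_contra hcon
  push Not at hcon
  have hc : (0 : ℝ) < Fintype.card Q := by exact_mod_cast Fintype.card_pos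
  have h1 : ∑ q, ‖z q‖ ^ 2 < ∑ q : Q, y / Fintype.card Q := by
    apply Finset.sum_lt_sum_of_nonempty Finset.univ_nonempty
    intro q _
    have h2 := hcon q
    have h3 : 0 ≤ ‖z q‖ := norm_nonneg _
    exact (Real.lt_sqrt h3).1 h2
  rw [Finset.sum_const, Finset.card_univ, nsmul_eq_mul] at h1
  have h4 : (Fintype.card Q : ℝ) * (y / Fintype.card Q) = y := by field_simp
  linarith

end

/-- Upper bound for the variation of the band functions. -/
theorem variation {p : ℕ} [Fact p.Prime] {Q : Type} [Fintype Q] (E E' : Q → ZMod p → ℝ)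
    (n : ℕ) (B : ℕ) (hB : B ≤ p) (g : Fin B → Q → Fin n) (δ : ℝ)
    (hd : ∀ q i, (E' q i - E q i) ^ 2 ≤ δ) (S : Finset (Fin B)) :
    ∑ d ∈ S, ‖∑ q, ((g d q : ℕ) : ℂ) * (FT (fun i => (E' q i : ℂ)) ((d : ℕ) : ZMod p) -
      FT (fun i => (E q i : ℂ)) ((d : ℕ) : ZMod p))‖ ^ 2 ≤
      (Fintype.card Q : ℝ) ^ 2 * n ^ 2 * p ^ 2 * δ := by
  classical
  have hp := p_pos p
  have h1 : ∀ d ∈ S, ‖∑ q, ((g d q : ℕ) : ℂ) * (FT (fun i => (E' q i : ℂ)) ((d : ℕ) : ZMod p) -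
      FT (fun i => (E q i : ℂ)) ((d : ℕ) : ZMod p))‖ ^ 2 ≤
      Fintype.card Q * ∑ q, (n : ℝ) ^ 2 *
        ‖FT (fun i => (E' q i : ℂ) - (E q i : ℂ)) ((d : ℕ) : ZMod p)‖ ^ 2 := by
    intro d _
    calc ‖∑ q, ((g d q : ℕ) : ℂ) * (FT (fun i => (E' q i : ℂ)) ((d : ℕ) : ZMod p) -
          FT (fun i => (E q i : ℂ)) ((d : ℕ) : ZMod p))‖ ^ 2
        ≤ (∑ q, (n : ℝ) * ‖FT (fun i => (E' q i : ℂ) - (E q i : ℂ)) ((d : ℕ) : ZMod p)‖) ^ 2 := by
          apply pow_le_pow_left₀ (norm_nonneg _)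
          refine (norm_sum_le _ _).trans (Finset.sum_le_sum (fun q _ => ?_))
          rw [FT_sub, norm_mul, Complex.norm_natCast]
          apply mul_le_mul_of_nonneg_right _ (norm_nonneg _)
          exact_mod_cast (g d q).2.le
      _ ≤ (Finset.univ : Finset Q).card * ∑ q, ((n : ℝ) *
            ‖FT (fun i => (E' q i : ℂ) - (E q i : ℂ)) ((d : ℕ) : ZMod p)‖) ^ 2 :=
          sq_sum_le_card_mul_sum_sq
      _ = _ := by
          rw [Finset.card_univ]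
          congr 1
          apply Finset.sum_congr rfl
          intro q _
          ring
  refine (Finset.sum_le_sum h1).trans ?_
  rw [← Finset.mul_sum, Finset.sum_comm]
  have h2 : ∀ q : Q, ∑ d ∈ S, (n : ℝ) ^ 2 *
      ‖FT (fun i => (E' q i : ℂ) - (E q i : ℂ)) ((d : ℕ) : ZMod p)‖ ^ 2 ≤
      (n : ℝ) ^ 2 * (p * (p * δ)) := by
    intro q
    rw [← Finset.mul_sum]
    apply mul_le_mul_of_nonneg_left _ (by positivity)
    have h3 : ∑ d ∈ S, ‖FT (fun i => (E' q i : ℂ) - (E q i : ℂ)) ((d : ℕ) : ZMod p)‖ ^ 2 ≤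
        ∑ ξ, ‖FT (fun i => (E' q i : ℂ) - (E q i : ℂ)) ξ‖ ^ 2 := by
      rw [← Finset.sum_image (f := fun ξ : ZMod p =>
        ‖FT (fun i => (E' q i : ℂ) - (E q i : ℂ)) ξ‖ ^ 2)
        (g := fun d : Fin B => ((d : ℕ) : ZMod p))]
      · exact Finset.sum_le_sum_of_subset_of_nonneg (Finset.subset_univ _)
          (fun _ _ _ => by positivity)
      · intro a _ b _ hab
        have h1 : ((a : ℕ) : ZMod p) = ((b : ℕ) : ZMod p) := hab
        have h2 := (ZMod.natCast_eq_natCast_iff a b p).1 h1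
        rw [Nat.ModEq, Nat.mod_eq_of_lt (a.2.trans_le hB),
          Nat.mod_eq_of_lt (b.2.trans_le hB)] at h2
        exact Fin.ext h2
    refine h3.trans ?_
    rw [parseval]
    apply mul_le_mul_of_nonneg_left _ hp.le
    calc ∑ i : ZMod p, ‖(E' q i : ℂ) - (E q i : ℂ)‖ ^ 2 ≤ ∑ i : ZMod p, δ := by
          apply Finset.sum_le_sum
          intro i _
          have : (E' q i : ℂ) - (E q i : ℂ) = ((E' q i - E q i : ℝ) : ℂ) := by push_cast; rfl
          rw [this, Complex.norm_real, Real.norm_eq_abs, sq_abs]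
          exact hd q i
      _ = p * δ := by simp [ZMod.card]
  calc (Fintype.card Q : ℝ) * ∑ q, ∑ d ∈ S, (n : ℝ) ^ 2 *
        ‖FT (fun i => (E' q i : ℂ) - (E q i : ℂ)) ((d : ℕ) : ZMod p)‖ ^ 2
      ≤ Fintype.card Q * ∑ q : Q, (n : ℝ) ^ 2 * (p * (p * δ)) := by
        apply mul_le_mul_of_nonneg_left (Finset.sum_le_sum (fun q _ => h2 q)) (by positivity)
    _ = (Fintype.card Q : ℝ) ^ 2 * n ^ 2 * p ^ 2 * δ := by
        rw [Finset.sum_const, Finset.card_univ, nsmul_eq_mul]; ring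

theorem good_many {p : ℕ} [Fact p.Prime] {G : (ℤ → ℕ → ℝ) → ℝ}
    (h01 : ∀ D, 0 ≤ G D ∧ G D ≤ 1)
    (hG0 : ∀ D ∈ XX, D 0 0 ≤ 1 / 3 → G D = 0) (hG1 : ∀ D ∈ XX, 2 / 3 ≤ D 0 0 → G D = 1)
    {l : ℕ} (hl : 2 ^ 26 ≤ l) (hlp : l ≤ p) {t : Pt p} (ht : t ∈ Zs p G l) :
    1 / (8192 * (Fintype.card (Fin l → Bool) : ℝ) ^ 2) * p ≤
      ((Finset.univ.filter (fun d : Fin (p / 16 + 1) => 1 ≤ d.1 ∧ (p : ℝ) / 8 ≤
        FF (fun (q : Fin l → Bool) (i : ZMod p) => EQ G q (rot i t)) ((d : ℕ) : ZMod p))).card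
          : ℝ) := by
  classical
  have hp := p_pos p
  obtain ⟨h1, h2, h3, h4, h5, h6⟩ := ht
  have he := window_energy h01 hG0 hG1 hl hlp h1 h2 h3 h4 h5
  have hRr : (0 : ℝ) < Fintype.card (Fin l → Bool) := by
    exact_mod_cast (Fintype.card_pos : 0 < Fintype.card (Fin l → Bool))
  set R : ℝ := (Fintype.card (Fin l → Bool) : ℝ) with hR
  have hBp : p / 16 + 1 ≤ p := by
    have : 2 ≤ p := (Fact.out : p.Prime).two_le
    omega
  have h7 := good_count (fun (q : Fin l → Bool) (i : ZMod p) => EQ G q (rot i t)) (p / 16 + 1)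
    (Nat.succ_pos _) (64 * R ^ 2 * p) (by positivity) (by
      intro ξ hξ
      unfold FF
      calc _ ≤ ∑ q : Fin l → Bool, 64 * R * p := Finset.sum_le_sum (fun q _ => h6 q ξ hξ)
        _ = 64 * R ^ 2 * p := by
            rw [Finset.sum_const, Finset.card_univ, nsmul_eq_mul]; ring) hBp he
  have h8 : ((Finset.univ.filter (fun d : Fin (p / 16 + 1) => 1 ≤ d.1 ∧ (p : ℝ) / 8 ≤
        FF (fun (q : Fin l → Bool) (i : ZMod p) => EQ G q (rot i t)) ((d : ℕ) : ZMod p))).card) =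
      ((Finset.Ico 1 (p / 16 + 1)).filter (fun d : ℕ => (p : ℝ) / 8 ≤
        FF (fun (q : Fin l → Bool) (i : ZMod p) => EQ G q (rot i t)) (d : ZMod p))).card := by
    rw [← Finset.card_image_of_injective _ Fin.val_injective]
    congr 1
    ext d
    simp only [Finset.mem_image, Finset.mem_filter, Finset.mem_univ, true_and, Finset.mem_Ico]
    constructor
    · rintro ⟨x, ⟨hx1, hx2⟩, rfl⟩
      exact ⟨⟨hx1, x.2⟩, hx2⟩
    · rintro ⟨⟨h1, h2⟩, h3⟩
      exact ⟨⟨d, h2⟩, ⟨h1, h3⟩, rfl⟩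
  rw [h8]
  refine le_trans ?_ h7
  rw [le_div_iff₀ (by positivity)]
  have h9 : (p : ℝ) ≤ 16 * ((p / 16 + 1 : ℕ) : ℝ) := by
    have h4 : p ≤ 16 * (p / 16 + 1) := by omega
    exact_mod_cast h4
  have h10 : 1 / (8192 * R ^ 2) * p * (8 * (64 * R ^ 2 * p)) = p * (p / 16) := by
    field_simp
    norm_num
  rw [h10]
  apply mul_le_mul_of_nonneg_left _ hp.le
  linarith

end Pool.Agent.Work.MP_cda452_an
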