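import Pool.Agent.Work.MP_cda452_an.Space
import Pool.Agent.Work.MP_cda452_an.Energy

set_option autoImplicit false
set_option linter.unusedSectionVars false

namespace Pool.Agent.Work.MP_cda452_an

section
variable {p : ℕ} [Fact p.Prime]

/-- The periodic point built from a vector. -/
noncomputable def Om (x : Pt p) : ℤ → ℕ → ℝ := fun i c => phi c (x ((i : ZMod p) + (ofs c : ZMod p)))

theorem Om_cont : Continuous (Om : Pt p → ℤ → ℕ → ℝ) :=
  continuous_pi (fun _ => continuous_pi (fun c => (phi_cont c).comp (continuous_apply _)))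

theorem Om_rot (n : ℤ) (x : Pt p) : Om (rot (n : ZMod p) x) = sft n (Om x) := by
  funext i c
  simp only [Om, rot, sft]
  congr 2
  push_cast
  ring

/-- Normalisation. -/
noncomputable def nm (t : Pt p) : Pt p := fun i => t i / ‖t‖

theorem norm_rot (j : ZMod p) (t : Pt p) : ‖rot j t‖ = ‖t‖ := by
  have h : ∀ (j : ZMod p) (t : Pt p), ‖rot j t‖ ≤ ‖t‖ := by
    intro j t
    rw [pi_norm_le_iff_of_nonneg (norm_nonneg _)]
    intro i
    exact norm_le_pi_norm t (i + j)
  apply le_antisymm (h j t)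
  have h2 := h (-j) (rot j t)
  rw [rot_rot, neg_add_cancel] at h2
  have : rot (0 : ZMod p) t = t := by funext i; simp [rot]
  rwa [this] at h2

theorem nm_rot (j : ZMod p) (t : Pt p) : nm (rot j t) = rot j (nm t) := by
  funext i
  simp only [nm, norm_rot]
  rfl

theorem norm_pos_of_Sph {t : Pt p} (ht : t ∈ Sph p) : 0 < ‖t‖ := by
  rw [norm_pos_iff]
  rintro rfl
  have := ht.2.1
  simp at this

theorem nm_cont : ContinuousOn (nm : Pt p → Pt p) (Sph p) := by
  rw [continuousOn_pi]
  intro i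
  apply ContinuousOn.div (continuous_apply i).continuousOn continuous_norm.continuousOn
  intro t ht
  exact (norm_pos_of_Sph ht).ne'

theorem nm_mem {t : Pt p} (ht : t ∈ Sph p) (i : ZMod p) : 0 ≤ nm t i ∧ nm t i ≤ 1 := by
  have h := norm_pos_of_Sph ht
  refine ⟨div_nonneg (ht.1 i) h.le, ?_⟩
  rw [nm, div_le_one h]
  have := norm_le_pi_norm t i
  rwa [Real.norm_eq_abs, abs_of_nonneg (ht.1 i)] at this

theorem nm_exists_zero {t : Pt p} (ht : t ∈ Sph p) : ∃ i, nm t i = 0 := by
  obtain ⟨i, hi⟩ := ht.2.2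
  exact ⟨i, by rw [nm, hi, zero_div]⟩

theorem nm_exists_one {t : Pt p} (ht : t ∈ Sph p) : ∃ i, nm t i = 1 := by
  have h := norm_pos_of_Sph ht
  obtain ⟨i, hi⟩ := Finite.exists_max t
  refine ⟨i, ?_⟩
  rw [nm, div_eq_one_iff_eq h.ne']
  apply le_antisymm
  · have := norm_le_pi_norm t i
    rwa [Real.norm_eq_abs, abs_of_nonneg (ht.1 i)] at this
  · rw [pi_norm_le_iff_of_nonneg (ht.1 i)]
    intro j
    rw [Real.norm_eq_abs, abs_of_nonneg (ht.1 j)]
    exact hi j

theorem sin_Mul (K : ℕ) (y : ℝ) : Real.sin (Real.pi * (K * y)) = 0 ↔ Mul K y := by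
  rw [Real.sin_eq_zero_iff, Mul]
  constructor
  · rintro ⟨n, hn⟩
    refine ⟨n, ?_⟩
    have := Real.pi_pos
    have h2 : Real.pi * (K * y) = Real.pi * n := by linarith
    exact mul_left_cancel₀ this.ne' h2
  · rintro ⟨n, hn⟩
    exact ⟨n, by rw [hn]; ring⟩

/-- Level feature: an elementary symmetric function. -/
noncomputable def lev (j : ℕ) (t : Pt p) : ℝ :=
  ∑ A ∈ (Finset.Ico (Nj j) (Nj (j + 1))).powersetCard (kj j + 1),
    ∏ m ∈ A, |Real.sin (Real.pi * (Rj j * Om (nm t) 0 m))|

theorem lev_cont (j : ℕ) : ContinuousOn (lev j : Pt p → ℝ) (Sph p) := by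
  have h1 : ContinuousOn (fun t : Pt p => Om (nm t)) (Sph p) :=
    Om_cont.comp_continuousOn nm_cont
  apply continuousOn_finsetSum
  intro A _
  apply continuousOn_finsetProd
  intro m _
  have h2 : Continuous (fun D : ℤ → ℕ → ℝ => |Real.sin (Real.pi * (Rj j * D 0 m))|) := by
    fun_prop
  exact h2.comp_continuousOn h1

theorem lev_eq_zero (j : ℕ) (t : Pt p) (h : lev j t = 0) :
    ∀ A ∈ (Finset.Ico (Nj j) (Nj (j + 1))).powersetCard (kj j + 1),
      ∃ m ∈ A, Mul (Rj j) (Om (nm t) 0 m) := by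
  intro A hA
  unfold lev at h
  rw [Finset.sum_eq_zero_iff_of_nonneg
    (fun A _ => Finset.prod_nonneg (fun m _ => abs_nonneg _))] at h
  obtain ⟨m, hm, hm2⟩ := Finset.prod_eq_zero_iff.1 (h A hA)
  exact ⟨m, hm, (sin_Mul _ _).1 (abs_eq_zero.1 hm2)⟩

open Classical in
theorem lev_ne_zero (j : ℕ) (t : Pt p) (h : lev j t ≠ 0) :
    kj j + 1 ≤ ((Finset.Ico (Nj j) (Nj (j + 1))).filter
      (fun m => ¬ Mul (Rj j) (Om (nm t) 0 m))).card := by
  by_contra hcon
  push Not at hcon
  apply h
  have h1 := (card_filter_le_iff (s := Finset.Ico (Nj j) (Nj (j + 1)))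
    (P := fun m => Mul (Rj j) (Om (nm t) 0 m)) (k := kj j)).1 (by omega)
  unfold lev
  apply Finset.sum_eq_zero
  intro A hA
  obtain ⟨m, hm, hm2⟩ := h1 A hA
  apply Finset.prod_eq_zero hm
  rw [abs_eq_zero]
  exact (sin_Mul _ _).2 hm2

/-- Few bad windows at each level. -/
theorem lev_support (j : ℕ) {t : Pt p} (ht : t ∈ Sph p) :
    (Finset.univ.filter (fun i : ZMod p => lev j (rot i t) ≠ 0)).card ≤ p / (kj j + 1) := by
  classical
  rw [Nat.le_div_iff_mul_le (Nat.succ_pos _)]
  set s := Finset.univ.filter (fun i : ZMod p => lev j (rot i t) ≠ 0) with hs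
  set I := Finset.Ico (Nj j) (Nj (j + 1)) with hI
  calc s.card * (kj j + 1) = ∑ i ∈ s, (kj j + 1) := by simp
    _ ≤ ∑ i ∈ s, (I.filter (fun m => ¬ Mul (Rj j) (Om (nm (rot i t)) 0 m))).card := by
        apply Finset.sum_le_sum
        intro i hi
        simp only [hs, Finset.mem_filter, Finset.mem_univ, true_and] at hi
        exact lev_ne_zero j _ hi
    _ ≤ ∑ i : ZMod p, (I.filter (fun m => ¬ Mul (Rj j) (Om (nm (rot i t)) 0 m))).card :=
        Finset.sum_le_sum_of_subset (Finset.subset_univ _)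
    _ = ∑ i : ZMod p, ∑ m ∈ I, (if ¬ Mul (Rj j) (phi m (nm t (i + (ofs m : ZMod p))))
          then 1 else 0) := by
        apply Finset.sum_congr rfl
        intro i _
        rw [Finset.card_filter]
        apply Finset.sum_congr rfl
        intro m _
        have : Om (nm (rot i t)) 0 m = phi m (nm t (i + (ofs m : ZMod p))) := by
          rw [nm_rot]
          simp only [Om, rot]
          congr 2
          push_cast
          ring
        rw [this]
    _ = ∑ m ∈ I, ∑ i : ZMod p, (if ¬ Mul (Rj j) (phi m (nm t (i + (ofs m : ZMod p))))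
          then 1 else 0) := Finset.sum_comm
    _ = ∑ m ∈ I, ∑ i : ZMod p, (if ¬ Mul (Rj j) (phi m (nm t i)) then 1 else 0) := by
        apply Finset.sum_congr rfl
        intro m _
        exact Fintype.sum_equiv (Equiv.addRight (ofs m : ZMod p)) _ _ (fun i => rfl)
    _ = ∑ i : ZMod p, ∑ m ∈ I, (if ¬ Mul (Rj j) (phi m (nm t i)) then 1 else 0) :=
        Finset.sum_comm
    _ ≤ ∑ i : ZMod p, 1 := by
        apply Finset.sum_le_sum
        intro i _
        rw [← Finset.card_filter, Finset.card_le_one]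
        intro a ha b hb
        simp only [hI, Finset.mem_filter, Finset.mem_Ico] at ha hb
        have h0 := nm_mem ht i
        rw [phi_off ha.1.1 ha.1.2 h0.1 h0.2 ha.2, phi_off hb.1.1 hb.1.2 h0.1 h0.2 hb.2]
    _ = p := by simp [ZMod.card]

theorem cut_X : Cut p (∑ j ∈ Finset.range p, p / (kj j + 1)) {t | Om (nm t) ∈ XX} := by
  classical
  have hp : 0 < p := (Fact.out : p.Prime).pos
  have h1 : ∀ j < p, Cut p (p / (kj j + 1)) {t | ∀ i : ZMod p, lev j (rot i t) = 0} := by
    intro j _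
    have hlt : p / (kj j + 1) < p := Nat.div_lt_self hp (by have := kj_pos j; omega)
    refine (cut_bch (fun t => ((lev j t : ℝ) : ℂ))
      (Complex.continuous_ofReal.comp_continuousOn (lev_cont j)) _ hlt).mono ?_
    intro t ht h i
    have h2 := h (by
      have := lev_support j ht
      simpa using this) i
    exact_mod_cast h2
  refine (Cut.iInter h1).mono ?_
  intro t ht h
  have hall : ∀ j, ∀ i : ZMod p, lev j (rot i t) = 0 := by
    intro j i
    rcases lt_or_ge j p with hj | hj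
    · exact h j hj i
    · have h2 := lev_support j ht
      have h3 : p / (kj j + 1) = 0 := by
        apply Nat.div_eq_of_lt
        have : j < kj j := by
          unfold kj
          calc j < 2 ^ j := Nat.lt_two_pow_self
            _ ≤ 2 ^ (j + 4) := Nat.pow_le_pow_right (by norm_num) (by omega)
        omega
      rw [h3, Nat.le_zero, Finset.card_eq_zero, Finset.filter_eq_empty_iff] at h2
      simpa using h2 (Finset.mem_univ i)
  refine ⟨?_, ?_, ?_⟩
  · intro i c
    have := nm_mem ht ((i : ZMod p) + (ofs c : ZMod p))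
    exact phi_mem c c (lt_Nj c) _ this.1 this.2
  · intro i j τ c hτ hc
    have hm := nm_mem ht ((i : ZMod p) + ((τ + ofs c : ℕ) : ZMod p))
    have e1 : Om (nm t) i (Nj j * (1 + τ) + c) = phi (Nj j * (1 + τ) + c)
        (nm t ((i : ZMod p) + ((τ + ofs c : ℕ) : ZMod p))) := by
      simp only [Om]
      rw [ofs_succ hτ hc]
    have e2 : Om (nm t) (i + τ) c = phi c
        (nm t ((i : ZMod p) + ((τ + ofs c : ℕ) : ZMod p))) := by
      simp only [Om]
      congr 2
      push_cast
      ring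
    rw [e1, e2]
    exact phi_close hτ hc hm.1 hm.2
  · intro i j
    rw [card_filter_le_iff]
    intro A hA
    obtain ⟨m, hm, hm2⟩ := lev_eq_zero j _ (hall j (i : ZMod p)) A hA
    refine ⟨m, hm, ?_⟩
    rw [nm_rot, Om_rot] at hm2
    simpa [sft] using hm2

theorem sum_div_le (J q : ℕ) : ((∑ j ∈ Finset.range J, q / (kj j + 1) : ℕ) : ℝ) ≤ q / 8 := by
  push_cast
  have h1 : ∀ j ∈ Finset.range J, ((q / (kj j + 1) : ℕ) : ℝ) ≤ q / 16 * (1 / 2) ^ j := by
    intro j _
    refine Nat.cast_div_le.trans ?_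
    have h2 : ((kj j + 1 : ℕ) : ℝ) = 16 * 2 ^ j + 1 := by
      unfold kj
      push_cast
      ring
    rw [h2]
    have h3 : (q : ℝ) / 16 * (1 / 2) ^ j = q / (16 * 2 ^ j) := by
      rw [one_div, inv_pow]
      field_simp
    rw [h3]
    apply div_le_div_of_nonneg_left (by positivity) (by positivity)
    linarith
  have h4 : ∑ j ∈ Finset.range J, (1 / 2 : ℝ) ^ j ≤ 2 := by
    have := sum_geometric_two_le J
    simpa using this
  calc ∑ j ∈ Finset.range J, ((q / (kj j + 1) : ℕ) : ℝ)
      ≤ ∑ j ∈ Finset.range J, (q : ℝ) / 16 * (1 / 2) ^ j := Finset.sum_le_sum h1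
    _ = q / 16 * ∑ j ∈ Finset.range J, (1 / 2 : ℝ) ^ j := by rw [Finset.mul_sum]
    _ ≤ q / 16 * 2 := by gcongr
    _ = q / 8 := by ring

end

end Pool.Agent.Work.MP_cda452_an
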