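import Pool.Agent.Work.MP_cda452_an.NoG

set_option autoImplicit false
set_option linter.unusedSectionVars false

namespace Pool.Agent.Work.MP_cda452_an

open Filter Topology

/-- The closed set `D_0(0) ≤ 1/3` of the system. -/
def lo : Set X := {D : X | D.1 0 0 ≤ 1 / 3}

/-- The closed set `2/3 ≤ D_0(0)` of the system. -/
def hi : Set X := {D : X | 2 / 3 ≤ D.1 0 0}

theorem ev_cont : Continuous (fun D : X => D.1 0 0) := by
  have h1 : Continuous (fun D : ℤ → ℕ → ℝ => D 0 0) := by fun_prop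
  exact h1.comp continuous_subtype_val

theorem isClosed_lo : IsClosed lo := isClosed_le ev_cont continuous_const

theorem isClosed_hi : IsClosed hi := isClosed_le continuous_const ev_cont

theorem lo_ne_hi {x y : X} (hx : x ∈ lo) (hy : y ∈ hi) : x ≠ y := by
  rintro rfl
  simp only [lo, hi, Set.mem_ofPred_eq] at hx hy
  linarith

/-- Finitely many maps of finite entropy cannot separate `lo` from `hi`. -/
theorem not_sep (M : ℕ) (π : Fin M → X → (ℕ → ℝ)) (hπ : ∀ m, Continuous (π m))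
    (hC : ∀ m, ∃ C : ℝ, ∀ α : Finset (Set (ℕ → ℝ)), (∀ W ∈ α, IsOpen W) →
        (∀ x : X, ∃ W ∈ α, π m x ∈ W) →
        ∀ᶠ n : ℕ in atTop, ∃ s : Finset ((Fin 1 → ℤ) → Set (ℕ → ℝ)),
          (∀ c ∈ s, ∀ g : Fin 1 → ℤ, (∀ i, 0 ≤ g i ∧ g i < (n : ℤ)) → c g ∈ α) ∧
          (∀ x : X, ∃ c ∈ s, ∀ g : Fin 1 → ℤ, (∀ i, 0 ≤ g i ∧ g i < (n : ℤ)) →
            π m (g +ᵥ x) ∈ c g) ∧
          Real.log (s.card : ℝ) ≤ C * (n : ℝ) ^ 1)
    (hM : ∀ x ∈ lo, ∀ y ∈ hi, ∃ m, π m x ≠ π m y) : False := by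
  classical
  have hPi : Continuous (fun x : X => fun m : Fin M => π m x) := continuous_pi (fun m => hπ m)
  let _ : MetricSpace (Fin M → ℕ → ℝ) := TopologicalSpace.metrizableSpaceMetric _
  obtain ⟨f, hf0, hf1, hf2⟩ := exists_continuous_zero_one_of_isClosed
    (s := (fun x : X => fun m : Fin M => π m x) '' lo)
    (t := (fun x : X => fun m : Fin M => π m x) '' hi)
    ((isClosed_lo.isCompact.image hPi).isClosed) ((isClosed_hi.isCompact.image hPi).isClosed) (by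
      rw [Set.disjoint_left]
      rintro z ⟨x, hx, rfl⟩ ⟨y, hy, hxy⟩
      obtain ⟨m, hne⟩ := hM x hx y hy
      exact hne (congrFun hxy m).symm)
  choose C hC using hC
  have hcell := cells M (fun m : Fin M => π m) (fun m => hπ m) (fun m : Fin M => C m)
    (fun m => hC m) f f.continuous
  -- extension
  let _ : MetricSpace (ℤ → ℕ → ℝ) := TopologicalSpace.metrizableSpaceMetric _
  obtain ⟨g, hg⟩ := ContinuousMap.exists_restrict_eq isClosed_XX
    (⟨fun x : X => f (fun m : Fin M => π m x), f.continuous.comp hPi⟩ : C(X, ℝ))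
  have hgX : ∀ x : X, g x.1 = f (fun m : Fin M => π m x) := by
    intro x
    have := DFunLike.congr_fun hg x
    simpa using this
  have hG : ∀ x : X, clamp (g x.1) = f (fun m : Fin M => π m x) := by
    intro x
    rw [hgX x]
    exact clamp_of_mem (hf2 _).1 (hf2 _).2
  refine no_G (fun D => clamp (g D)) (∑ m : Fin M, C m) (clamp_cont.comp g.continuous)
    (fun D => ⟨clamp_nonneg _, clamp_le_one _⟩) ?_ ?_ ?_
  · intro D hD h
    rw [hG ⟨D, hD⟩]
    exact hf0 ⟨⟨D, hD⟩, h, rfl⟩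
  · intro D hD h
    rw [hG ⟨D, hD⟩]
    exact hf1 ⟨⟨D, hD⟩, h, rfl⟩
  · intro ε hε
    obtain ⟨N, hN⟩ := eventually_atTop.1 (hcell ε hε)
    refine ⟨N, fun n hn => ?_⟩
    obtain ⟨s, hs1, hs2, hs3⟩ := hN n hn
    refine ⟨s.image (fun V => Subtype.val '' V), ?_, ?_, ?_⟩
    · refine le_trans ?_ hs1
      exact_mod_cast Finset.card_image_le
    · intro D hD
      obtain ⟨V, hV, hDV⟩ := hs2 ⟨D, hD⟩
      exact ⟨_, Finset.mem_image_of_mem _ hV, ⟨⟨D, hD⟩, hDV, rfl⟩⟩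
    · intro V hV D hD D' hD' i hi
      rw [Finset.mem_image] at hV
      obtain ⟨V, hV, rfl⟩ := hV
      obtain ⟨x, hx, rfl⟩ := hD
      obtain ⟨y, hy, rfl⟩ := hD'
      have h1 := hs3 V hV x hx y hy (fun _ => (i : ℤ)) (by
        intro _
        constructor
        · positivity
        · exact_mod_cast hi)
      have e1 : ∀ x : X, sft (i : ℤ) x.1 = ((fun _ => (i : ℤ) : Fin 1 → ℤ) +ᵥ x).1 := by
        intro x; rfl
      rw [e1 x, e1 y, hG, hG]
      exact h1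

/-- If every pair of points of `lo × hi` is separated by some map satisfying `P`, then finitely
many such maps separate `lo` from `hi`. -/
theorem finite_sep (P : (X → (ℕ → ℝ)) → Prop) (hP : ∀ φ, P φ → Continuous φ)
    (hsep : ∀ x ∈ lo, ∀ y ∈ hi, ∃ φ, P φ ∧ φ x ≠ φ y) :
    ∃ (M : ℕ) (π : Fin M → X → (ℕ → ℝ)), (∀ m, P (π m)) ∧
      ∀ x ∈ lo, ∀ y ∈ hi, ∃ m, π m x ≠ π m y := by
  classical
  have hc : IsCompact (lo ×ˢ hi) := isClosed_lo.isCompact.prod isClosed_hi.isCompact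
  obtain ⟨t, ht⟩ := hc.elim_finite_subcover
    (fun φ : {φ : X → (ℕ → ℝ) // P φ} => {z : X × X | φ.1 z.1 ≠ φ.1 z.2}) (by
      intro φ
      have h := hP φ.1 φ.2
      exact isOpen_ne_fun (h.comp continuous_fst) (h.comp continuous_snd)) (by
      rintro ⟨x, y⟩ ⟨hx, hy⟩
      obtain ⟨φ, hφ, hne⟩ := hsep x hx y hy
      rw [Set.mem_iUnion]
      exact ⟨⟨φ, hφ⟩, hne⟩)
  refine ⟨t.card, fun m => (t.equivFin.symm m).1.1, fun m => (t.equivFin.symm m).1.2, ?_⟩
  intro x hx y hy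
  have h1 := ht (show (x, y) ∈ lo ×ˢ hi from ⟨hx, hy⟩)
  simp only [Set.mem_iUnion] at h1
  obtain ⟨φ, hφ, hne⟩ := h1
  refine ⟨t.equivFin ⟨φ, hφ⟩, ?_⟩
  beta_reduce
  rw [Equiv.symm_apply_apply]
  exact hne

end Pool.Agent.Work.MP_cda452_an
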