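import Pool.Agent.Work.MP_cda452_an.Stair

set_option autoImplicit false
set_option linter.unusedSectionVars false

namespace Pool.Agent.Work.MP_cda452_an

open Classical in
/-- The system. -/
def XX : Set (ℤ → ℕ → ℝ) :=
  {D | (∀ i c, 0 ≤ D i c ∧ D i c ≤ 1) ∧
    (∀ (i : ℤ) (j τ c : ℕ), τ < nj j → c < Nj j →
      |D i (Nj j * (1 + τ) + c) - D (i + τ) c| ≤ 1 / ((j : ℝ) + 1)) ∧
    ∀ (i : ℤ) (j : ℕ), ((Finset.Ico (Nj j) (Nj (j + 1))).filter
      (fun m => ¬ Mul (Rj j) (D i m))).card ≤ kj j}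

open Classical in
theorem card_filter_le_iff {s : Finset ℕ} {P : ℕ → Prop} {k : ℕ} :
    (s.filter (fun m => ¬ P m)).card ≤ k ↔
      ∀ A ∈ s.powersetCard (k + 1), ∃ m ∈ A, P m := by
  constructor
  · intro h A hA
    rw [Finset.mem_powersetCard] at hA
    by_contra hcon
    push Not at hcon
    have : A ⊆ s.filter (fun m => ¬ P m) := by
      intro m hm
      rw [Finset.mem_filter]
      exact ⟨hA.1 hm, hcon m hm⟩
    have := Finset.card_le_card this
    omega
  · intro h
    by_contra hcon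
    push Not at hcon
    obtain ⟨A, hA1, hA2⟩ := Finset.exists_subset_card_eq (s := s.filter (fun m => ¬ P m))
      (n := k + 1) hcon
    obtain ⟨m, hm, hP⟩ := h A (by
      rw [Finset.mem_powersetCard]
      exact ⟨hA1.trans (Finset.filter_subset _ _), hA2⟩)
    have := hA1 hm
    rw [Finset.mem_filter] at this
    exact this.2 hP

theorem isClosed_Mul (K : ℕ) : IsClosed {y : ℝ | Mul K y} := by
  have h1 : IsClosed (Set.range (fun z : ℤ => (z : ℝ))) :=
    Int.isClosedEmbedding_coe_real.isClosed_range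
  have h2 : {y : ℝ | Mul K y} = (fun y : ℝ => (K : ℝ) * y) ⁻¹' (Set.range (fun z : ℤ => (z : ℝ))) := by
    ext y
    simp only [Set.mem_ofPred_eq, Set.mem_preimage, Set.mem_range, Mul]
    exact ⟨fun ⟨z, hz⟩ => ⟨z, hz.symm⟩, fun ⟨z, hz⟩ => ⟨z, hz.symm⟩⟩
  rw [h2]
  exact h1.preimage (by fun_prop)

theorem isClosed_XX : IsClosed XX := by
  classical
  have h : XX = ({D | ∀ i c, 0 ≤ D i c ∧ D i c ≤ 1} ∩
      {D | ∀ (i : ℤ) (j τ c : ℕ), τ < nj j → c < Nj j →
      |D i (Nj j * (1 + τ) + c) - D (i + τ) c| ≤ 1 / ((j : ℝ) + 1)}) ∩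
      {D | ∀ (i : ℤ) (j : ℕ), ∀ A ∈ (Finset.Ico (Nj j) (Nj (j + 1))).powersetCard (kj j + 1),
        ∃ m ∈ A, Mul (Rj j) (D i m)} := by
    ext D
    simp only [XX, Set.mem_inter_iff, Set.mem_ofPred_eq, card_filter_le_iff]
    tauto
  rw [h]
  refine (IsClosed.inter ?_ ?_).inter ?_
  · simp only [Set.ofPred_forall]
    refine isClosed_iInter (fun i => isClosed_iInter (fun c => ?_))
    have hc : Continuous (fun D : ℤ → ℕ → ℝ => D i c) := by fun_prop
    exact (isClosed_le continuous_const hc).inter (isClosed_le hc continuous_const)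
  · simp only [Set.ofPred_forall]
    refine isClosed_iInter (fun i => isClosed_iInter (fun j => isClosed_iInter (fun τ =>
      isClosed_iInter (fun c => isClosed_iInter (fun _ => isClosed_iInter (fun _ => ?_))))))
    exact isClosed_le (by fun_prop) continuous_const
  · simp only [Set.ofPred_forall]
    refine isClosed_iInter (fun i => isClosed_iInter (fun j => isClosed_iInter (fun A =>
      isClosed_iInter (fun _ => ?_))))
    have h2 : {D : ℤ → ℕ → ℝ | ∃ m ∈ A, Mul (Rj j) (D i m)} =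
        ⋃ m ∈ A, {D : ℤ → ℕ → ℝ | Mul (Rj j) (D i m)} := by
      ext D; simp
    rw [h2]
    apply Set.Finite.isClosed_biUnion A.finite_toSet
    intro m _
    exact (isClosed_Mul (Rj j)).preimage (f := fun D : ℤ → ℕ → ℝ => D i m) (by fun_prop)

theorem isCompact_XX : IsCompact XX := by
  have h1 : IsCompact (Set.pi Set.univ (fun _ : ℤ => Set.pi Set.univ
      (fun _ : ℕ => Set.Icc (0 : ℝ) 1))) :=
    isCompact_univ_pi (fun _ => isCompact_univ_pi (fun _ => isCompact_Icc))
  refine h1.of_isClosed_subset isClosed_XX ?_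
  intro D hD i _ c _
  exact hD.1 i c

/-- Shift. -/
def sft (n : ℤ) (D : ℤ → ℕ → ℝ) : ℤ → ℕ → ℝ := fun i => D (i + n)

theorem sft_cont (n : ℤ) : Continuous (sft n) :=
  continuous_pi (fun i => continuous_apply (i + n))

theorem sft_mem (n : ℤ) {D : ℤ → ℕ → ℝ} (h : D ∈ XX) : sft n D ∈ XX := by
  refine ⟨fun i c => h.1 _ c, fun i j τ c hτ hc => ?_, fun i j => h.2.2 (i + n) j⟩
  have := h.2.1 (i + n) j τ c hτ hc
  simp only [sft]
  have e : i + (τ : ℤ) + n = i + n + τ := by ring
  rw [e]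
  exact this

/-- The space as a type. -/
abbrev X := ↥XX

instance : CompactSpace X := isCompact_iff_compactSpace.1 isCompact_XX

instance : TopologicalSpace.MetrizableSpace X := inferInstance

instance : AddAction (Fin 1 → ℤ) X where
  vadd g D := ⟨sft (g 0) D.1, sft_mem _ D.2⟩
  zero_vadd D := by
    apply Subtype.ext
    funext i
    change D.1 (i + (0 : Fin 1 → ℤ) 0) = D.1 i
    simp
  add_vadd g h D := by
    apply Subtype.ext
    funext i
    change D.1 (i + (g + h) 0) = D.1 (i + g 0 + h 0)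
    simp [add_assoc]

theorem vadd_val (g : Fin 1 → ℤ) (D : X) : (g +ᵥ D).1 = sft (g 0) D.1 := rfl

instance : ContinuousConstVAdd (Fin 1 → ℤ) X where
  continuous_const_vadd g :=
    Continuous.subtype_mk ((sft_cont (g 0)).comp continuous_subtype_val) _

end Pool.Agent.Work.MP_cda452_an
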