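import Mathlib

set_option autoImplicit false
set_option linter.unusedSectionVars false

namespace Pool.Agent.Work.MP_cda452_an

/-! ### parameters -/

def kj (j : ℕ) : ℕ := 2 ^ (j + 4)

def nj (j : ℕ) : ℕ := kj j ^ 2

def Nj : ℕ → ℕ
  | 0 => 1
  | j + 1 => Nj j * (1 + nj j)

def Lj : ℕ → ℕ
  | 0 => 1
  | j + 1 => Lj j * (((j + 1) * Lj j) * Nj (j + 1))

def Rj (j : ℕ) : ℕ := (j + 1) * Lj j

theorem kj_pos (j : ℕ) : 0 < kj j := by unfold kj; positivity

theorem nj_pos (j : ℕ) : 0 < nj j := by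
  have := kj_pos j
  unfold nj; positivity

theorem Nj_pos : ∀ j, 0 < Nj j
  | 0 => by simp [Nj]
  | j + 1 => by rw [Nj]; have := Nj_pos j; positivity

theorem Nj_lt_succ (j : ℕ) : Nj j < Nj (j + 1) := by
  rw [Nj]
  have h1 := Nj_pos j
  have h2 := nj_pos j
  nlinarith

theorem Nj_mono : Monotone Nj := monotone_nat_of_le_succ (fun j => (Nj_lt_succ j).le)

theorem lt_Nj : ∀ j, j < Nj j
  | 0 => by simp [Nj]
  | j + 1 => lt_of_le_of_lt (lt_Nj j) (Nj_lt_succ j)

theorem Lj_pos : ∀ j, 0 < Lj j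
  | 0 => by simp [Lj]
  | j + 1 => by rw [Lj]; have := Lj_pos j; have := Nj_pos (j + 1); positivity

theorem Rj_pos (j : ℕ) : 0 < Rj j := by unfold Rj; have := Lj_pos j; positivity

theorem Lj_dvd_Rj (j : ℕ) : Lj j ∣ Rj j := ⟨j + 1, by unfold Rj; ring⟩

theorem Lj_succ (j : ℕ) : Lj (j + 1) = Lj j * (Rj j * Nj (j + 1)) := by
  rw [Lj, Rj]

/-! ### staircases -/

noncomputable def clamp (x : ℝ) : ℝ := max 0 (min 1 x)

theorem clamp_nonneg (x : ℝ) : 0 ≤ clamp x := le_max_left _ _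

theorem clamp_le_one (x : ℝ) : clamp x ≤ 1 := max_le zero_le_one (min_le_left _ _)

theorem clamp_of_nonpos {x : ℝ} (h : x ≤ 0) : clamp x = 0 := by
  unfold clamp
  rw [max_eq_left]
  exact (min_le_right _ _).trans h

theorem clamp_of_one_le {x : ℝ} (h : 1 ≤ x) : clamp x = 1 := by
  unfold clamp
  rw [min_eq_left h, max_eq_right zero_le_one]

theorem clamp_of_mem {x : ℝ} (h0 : 0 ≤ x) (h1 : x ≤ 1) : clamp x = x := by
  unfold clamp
  rw [min_eq_right h1, max_eq_right h0]

theorem clamp_cont : Continuous clamp := by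
  unfold clamp
  fun_prop

theorem clamp_lip (x y : ℝ) : |clamp x - clamp y| ≤ |x - y| := by
  unfold clamp
  calc |max 0 (min 1 x) - max 0 (min 1 y)| ≤ |min 1 x - min 1 y| := by
        have := abs_max_sub_max_le_max 0 (min 1 x) 0 (min 1 y)
        simpa using this
    _ ≤ |x - y| := by
        have := abs_min_sub_min_le_max 1 x 1 y
        simpa using this

/-- The staircase. -/
noncomputable def ww (R M m : ℕ) (y : ℝ) : ℝ :=
  (∑ r ∈ Finset.range R, clamp (M * (R * y - r) - m)) / R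

theorem ww_cont (R M m : ℕ) : Continuous (ww R M m) := by
  unfold ww
  apply Continuous.div_const
  apply continuous_finsetSum
  intro r _
  exact clamp_cont.comp (by fun_prop)

theorem ww_lip {R : ℕ} (hR : 0 < R) (M m : ℕ) (y y' : ℝ) :
    |ww R M m y - ww R M m y'| ≤ R * M * |y - y'| := by
  have hRr : (0 : ℝ) < R := by exact_mod_cast hR
  unfold ww
  rw [← sub_div, abs_div, abs_of_pos hRr, div_le_iff₀ hRr, ← Finset.sum_sub_distrib]
  calc |∑ r ∈ Finset.range R, (clamp (M * (R * y - r) - m) - clamp (M * (R * y' - r) - m))|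
      ≤ ∑ r ∈ Finset.range R, |clamp (M * (R * y - r) - m) - clamp (M * (R * y' - r) - m)| :=
        Finset.abs_sum_le_sum_abs _ _
    _ ≤ ∑ r ∈ Finset.range R, M * R * |y - y'| := by
        apply Finset.sum_le_sum
        intro r _
        refine (clamp_lip _ _).trans (le_of_eq ?_)
        have : (M * (R * y - r) - m : ℝ) - (M * (R * y' - r) - m) = (M * R) * (y - y') := by ring
        rw [this, abs_mul, abs_of_nonneg (by positivity)]
    _ = R * M * |y - y'| * R := by
        rw [Finset.sum_const, Finset.card_range, nsmul_eq_mul]; ring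

theorem ww_floor {R M m : ℕ} (hR : 0 < R) (hm : m < M) {y : ℝ} (h0 : 0 ≤ y) (h1 : y ≤ 1) :
    R * ww R M m y = ⌊(R : ℝ) * y⌋₊ + clamp (M * Int.fract ((R : ℝ) * y) - m) := by
  have hRr : (0 : ℝ) < R := by exact_mod_cast hR
  set z : ℝ := R * y with hz
  have hz0 : 0 ≤ z := by positivity
  have hzR : z ≤ R := by rw [hz]; nlinarith
  set r0 := ⌊z⌋₊ with hr0
  have hr0R : r0 ≤ R := by
    rw [hr0]
    exact_mod_cast (Nat.floor_le hz0).trans hzR
  have hfr : Int.fract z = z - r0 := by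
    have h2 := Int.self_sub_floor z
    rw [← h2, hr0]
    congr 1
    rw [← natCast_floor_eq_intCast_floor hz0]
  have hlt : z < r0 + 1 := Nat.lt_floor_add_one z
  have hle : (r0 : ℝ) ≤ z := Nat.floor_le hz0
  have hmM : (m : ℝ) + 1 ≤ M := by exact_mod_cast hm
  have hterm : ∀ r ∈ Finset.range R, clamp (M * (z - r) - m) =
      (if r < r0 then (1 : ℝ) else 0) + (if r = r0 then clamp (M * (z - r0) - m) else 0) := by
    intro r _
    rcases lt_trichotomy r r0 with h | h | h
    · rw [if_pos h, if_neg h.ne, add_zero]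
      apply clamp_of_one_le
      have : (r : ℝ) + 1 ≤ r0 := by exact_mod_cast h
      have h3 : 1 ≤ z - r := by linarith
      have h4 : (M : ℝ) ≤ M * (z - r) := by
        have : (0 : ℝ) ≤ M := by positivity
        nlinarith
      linarith
    · subst h
      simp
    · rw [if_neg (by omega), if_neg h.ne', add_zero]
      apply clamp_of_nonpos
      have : (r0 : ℝ) + 1 ≤ r := by exact_mod_cast h
      have h3 : z - r ≤ 0 := by linarith
      have h4 : M * (z - r) ≤ 0 := mul_nonpos_of_nonneg_of_nonpos (by positivity) h3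
      have h5 : (0 : ℝ) ≤ m := by positivity
      linarith
  have hsum : ∑ r ∈ Finset.range R, clamp (M * (z - r) - m) =
      r0 + clamp (M * (z - r0) - m) := by
    rw [Finset.sum_congr rfl hterm, Finset.sum_add_distrib]
    congr 1
    · rw [← Finset.sum_filter, Finset.sum_const, nsmul_eq_mul, mul_one]
      congr 1
      have : (Finset.range R).filter (fun r => r < r0) = Finset.range r0 := by
        ext x
        simp only [Finset.mem_filter, Finset.mem_range]
        omega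
      rw [this, Finset.card_range]
    · rw [Finset.sum_ite_eq']
      split_ifs with h
      · rfl
      · symm
        apply clamp_of_nonpos
        have h6 : r0 = R := by
          rw [Finset.mem_range] at h
          omega
        have h7 : z - r0 ≤ 0 := by rw [h6]; linarith
        have h4 : M * (z - r0) ≤ 0 := mul_nonpos_of_nonneg_of_nonpos (by positivity) h7
        have h5 : (0 : ℝ) ≤ m := by positivity
        linarith
  unfold ww
  rw [← hz, hsum, hfr]
  field_simp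

theorem ww_close {R M m : ℕ} (hR : 0 < R) (hm : m < M) {y : ℝ} (h0 : 0 ≤ y) (h1 : y ≤ 1) :
    |ww R M m y - y| ≤ 1 / R := by
  have hRr : (0 : ℝ) < R := by exact_mod_cast hR
  have h2 := ww_floor hR hm h0 h1
  have hz0 : 0 ≤ (R : ℝ) * y := by positivity
  have hfr : Int.fract ((R : ℝ) * y) = R * y - ⌊(R : ℝ) * y⌋₊ := by
    have h2 := Int.self_sub_floor ((R : ℝ) * y)
    rw [← h2]
    congr 1
    rw [← natCast_floor_eq_intCast_floor hz0]
  have h3 := Int.fract_nonneg ((R : ℝ) * y)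
  have h4 := Int.fract_lt_one ((R : ℝ) * y)
  have h5 := clamp_nonneg (M * Int.fract ((R : ℝ) * y) - m)
  have h6 := clamp_le_one (M * Int.fract ((R : ℝ) * y) - m)
  have h7 : |ww R M m y - y| * R = |R * ww R M m y - R * y| := by
    rw [← mul_sub, abs_mul, abs_of_pos hRr, mul_comm]
  rw [le_div_iff₀ hRr, h7, h2, abs_le]
  constructor <;> linarith

theorem ww_mem {R M m : ℕ} (hR : 0 < R) (y : ℝ) :
    0 ≤ ww R M m y ∧ ww R M m y ≤ 1 := by
  have hRr : (0 : ℝ) < R := by exact_mod_cast hR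
  unfold ww
  constructor
  · exact div_nonneg (Finset.sum_nonneg (fun _ _ => clamp_nonneg _)) hRr.le
  · rw [div_le_one hRr]
    calc ∑ r ∈ Finset.range R, clamp (M * (R * y - r) - m) ≤ ∑ r ∈ Finset.range R, (1 : ℝ) :=
          Finset.sum_le_sum (fun _ _ => clamp_le_one _)
      _ = R := by simp

/-- being a multiple of `1/K` -/
def Mul (K : ℕ) (y : ℝ) : Prop := ∃ z : ℤ, (K : ℝ) * y = z

theorem ww_off {R M m : ℕ} (hR : 0 < R) (hm : m < M) {y : ℝ} (h0 : 0 ≤ y) (h1 : y ≤ 1)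
    (h : ¬ Mul R (ww R M m y)) : m = ⌊M * Int.fract ((R : ℝ) * y)⌋₊ := by
  have h2 := ww_floor hR hm h0 h1
  by_contra hne
  apply h
  set u := M * Int.fract ((R : ℝ) * y) with hu
  have hu0 : 0 ≤ u := mul_nonneg (by positivity) (Int.fract_nonneg _)
  rcases lt_or_ge m (⌊u⌋₊) with h3 | h3
  · have h4 : (1 : ℝ) ≤ u - m := by
      have : (m : ℝ) + 1 ≤ ⌊u⌋₊ := by exact_mod_cast h3
      have := Nat.floor_le hu0
      linarith
    rw [clamp_of_one_le h4] at h2
    exact ⟨⌊(R : ℝ) * y⌋₊ + 1, by rw [h2]; push_cast; rfl⟩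
  · have h5 : ⌊u⌋₊ < m := lt_of_le_of_ne h3 (Ne.symm hne)
    have h4 : u - m ≤ 0 := by
      have h6 : ((⌊u⌋₊ : ℝ)) + 1 ≤ m := by exact_mod_cast h5
      have := Nat.lt_floor_add_one u
      linarith
    rw [clamp_of_nonpos h4] at h2
    exact ⟨⌊(R : ℝ) * y⌋₊, by rw [h2]; push_cast; ring⟩

theorem ww_Mul {R M m K : ℕ} (hR : 0 < R) (hK : R ∣ K) {y : ℝ} (h : Mul K y) :
    Mul K (ww R M m y) := by
  obtain ⟨K', rfl⟩ := hK
  obtain ⟨z, hz⟩ := h
  have hRr : (0 : ℝ) < R := by exact_mod_cast hR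
  have key : ∀ r : ℕ, ∃ q : ℤ, (K' : ℝ) * clamp (M * (R * y - r) - m) = q := by
    intro r
    refine ⟨max 0 (min (K' : ℤ) (M * (z - K' * r) - K' * m)), ?_⟩
    unfold clamp
    rw [mul_max_of_nonneg _ _ (by positivity), mul_min_of_nonneg _ _ (by positivity)]
    push_cast at hz ⊢
    congr 1
    · simp
    · congr 1
      · simp
      · rw [← hz]; ring
  choose q hq using key
  refine ⟨∑ r ∈ Finset.range R, q r, ?_⟩
  unfold ww
  push_cast
  simp only [← hq]
  rw [← Finset.mul_sum]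
  field_simp

/-! ### the functions `phi` and the offsets -/

noncomputable def Phi : ℕ → ℕ → ℝ → ℝ
  | 0, _ => fun y => y
  | j + 1, m => if m < Nj j then Phi j m else
      fun y => Phi j (m % Nj j) (ww (Rj j) (Nj (j + 1)) m y)

def off : ℕ → ℕ → ℕ
  | 0, _ => 0
  | j + 1, m => if m < Nj j then off j m else (m / Nj j - 1) + off j (m % Nj j)

noncomputable def phi (m : ℕ) : ℝ → ℝ := Phi m m

def ofs (m : ℕ) : ℕ := off m m

theorem Phi_stable {m j : ℕ} (h : m < Nj j) : ∀ j', j ≤ j' → Phi j' m = Phi j m := by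
  intro j' hj'
  induction j', hj' using Nat.le_induction with
  | base => rfl
  | succ j' hj' ih =>
    rw [Phi, if_pos (h.trans_le (Nj_mono hj')), ih]

theorem off_stable {m j : ℕ} (h : m < Nj j) : ∀ j', j ≤ j' → off j' m = off j m := by
  intro j' hj'
  induction j', hj' using Nat.le_induction with
  | base => rfl
  | succ j' hj' ih =>
    rw [off, if_pos (h.trans_le (Nj_mono hj')), ih]

theorem Phi_eq {m j : ℕ} (h : m < Nj j) : Phi j m = phi m := by
  rw [phi, ← Phi_stable h (max j m) (le_max_left _ _),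
    ← Phi_stable (lt_Nj m) (max j m) (le_max_right _ _)]

theorem off_eq {m j : ℕ} (h : m < Nj j) : off j m = ofs m := by
  rw [ofs, ← off_stable h (max j m) (le_max_left _ _),
    ← off_stable (lt_Nj m) (max j m) (le_max_right _ _)]

theorem idx_bounds {j τ c : ℕ} (hτ : τ < nj j) (hc : c < Nj j) :
    Nj j ≤ Nj j * (1 + τ) + c ∧ Nj j * (1 + τ) + c < Nj (j + 1) := by
  constructor
  · nlinarith [Nj_pos j]
  · rw [Nj]
    have : Nj j * (1 + τ + 1) ≤ Nj j * (1 + nj j) := Nat.mul_le_mul_left _ (by omega)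
    have h2 : Nj j * (1 + τ + 1) = Nj j * (1 + τ) + Nj j := by ring
    omega

theorem idx_mod {j τ c : ℕ} (hc : c < Nj j) : (Nj j * (1 + τ) + c) % Nj j = c := by
  rw [Nat.mul_add_mod, Nat.mod_eq_of_lt hc]

theorem idx_div {j τ c : ℕ} (hc : c < Nj j) : (Nj j * (1 + τ) + c) / Nj j = 1 + τ := by
  rw [Nat.mul_add_div (Nj_pos j), Nat.div_eq_of_lt hc, add_zero]

theorem idx_exists {j m : ℕ} (h1 : Nj j ≤ m) (h2 : m < Nj (j + 1)) :
    ∃ τ c, τ < nj j ∧ c < Nj j ∧ m = Nj j * (1 + τ) + c := by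
  have hpos := Nj_pos j
  have h3 : 1 ≤ m / Nj j := by
    rw [Nat.le_div_iff_mul_le hpos]
    simpa using h1
  refine ⟨m / Nj j - 1, m % Nj j, ?_, Nat.mod_lt _ hpos, ?_⟩
  · rw [Nj] at h2
    have : m / Nj j < 1 + nj j := by
      rw [Nat.div_lt_iff_lt_mul hpos, mul_comm]
      exact h2
    omega
  · have : 1 + (m / Nj j - 1) = m / Nj j := by omega
    rw [this]
    exact (Nat.div_add_mod m (Nj j)).symm

theorem phi_zero : phi 0 = fun y => y := by
  unfold phi; rfl

theorem phi_succ {j τ c : ℕ} (hτ : τ < nj j) (hc : c < Nj j) (y : ℝ) :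
    phi (Nj j * (1 + τ) + c) y =
      phi c (ww (Rj j) (Nj (j + 1)) (Nj j * (1 + τ) + c) y) := by
  obtain ⟨h1, h2⟩ := idx_bounds hτ hc
  rw [← Phi_eq h2, Phi, if_neg (not_lt.2 h1), idx_mod hc, Phi_eq hc]

theorem ofs_zero : ofs 0 = 0 := rfl

theorem ofs_succ {j τ c : ℕ} (hτ : τ < nj j) (hc : c < Nj j) :
    ofs (Nj j * (1 + τ) + c) = τ + ofs c := by
  obtain ⟨h1, h2⟩ := idx_bounds hτ hc
  rw [← off_eq h2, off, if_neg (not_lt.2 h1), idx_mod hc, idx_div hc, off_eq hc]
  omega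

theorem phi_lip : ∀ (j c : ℕ), c < Nj j → ∀ y y' : ℝ, |phi c y - phi c y'| ≤ Lj j * |y - y'|
  | 0, c, hc, y, y' => by
      have : c = 0 := by simpa [Nj] using hc
      subst this
      rw [phi_zero]
      simp [Lj]
  | j + 1, m, hm, y, y' => by
      rcases lt_or_ge m (Nj j) with h | h
      · refine (phi_lip j m h y y').trans ?_
        apply mul_le_mul_of_nonneg_right _ (abs_nonneg _)
        have : Lj j ≤ Lj (j + 1) := by
          rw [Lj_succ]
          exact Nat.le_mul_of_pos_right _ (Nat.mul_pos (Rj_pos j) (Nj_pos _))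
        exact_mod_cast this
      · obtain ⟨τ, c, hτ, hc, rfl⟩ := idx_exists h hm
        rw [phi_succ hτ hc, phi_succ hτ hc]
        refine (phi_lip j c hc _ _).trans ?_
        rw [Lj_succ]
        have := ww_lip (Rj_pos j) (Nj (j + 1)) (Nj j * (1 + τ) + c) y y'
        push_cast
        calc (Lj j : ℝ) * |_| ≤ Lj j * ((Rj j) * (Nj (j + 1)) * |y - y'|) := by gcongr
          _ = _ := by ring

theorem phi_cont (c : ℕ) : Continuous (phi c) := by
  have h := phi_lip c c (lt_Nj c)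
  have : LipschitzWith (Lj c) (phi c) := by
    apply LipschitzWith.of_dist_le_mul
    intro y y'
    rw [Real.dist_eq, Real.dist_eq]
    simpa using h y y'
  exact this.continuous

theorem phi_mem : ∀ (j c : ℕ), c < Nj j → ∀ y : ℝ, 0 ≤ y → y ≤ 1 → 0 ≤ phi c y ∧ phi c y ≤ 1
  | 0, c, hc, y, h0, h1 => by
      have : c = 0 := by simpa [Nj] using hc
      subst this
      rw [phi_zero]
      exact ⟨h0, h1⟩
  | j + 1, m, hm, y, h0, h1 => by
      rcases lt_or_ge m (Nj j) with h | h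
      · exact phi_mem j m h y h0 h1
      · obtain ⟨τ, c, hτ, hc, rfl⟩ := idx_exists h hm
        rw [phi_succ hτ hc]
        have := ww_mem (M := Nj (j + 1)) (m := Nj j * (1 + τ) + c) (Rj_pos j) y
        exact phi_mem j c hc _ this.1 this.2

theorem phi_Mul : ∀ (j c : ℕ), c < Nj j → ∀ (K : ℕ), Lj j ∣ K → ∀ y : ℝ, Mul K y → Mul K (phi c y)
  | 0, c, hc, K, _, y, h => by
      have : c = 0 := by simpa [Nj] using hc
      subst this
      rw [phi_zero]
      exact h
  | j + 1, m, hm, K, hK, y, hy => by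
      have hK1 : Lj j ∣ K := (Dvd.intro _ (Lj_succ j).symm).trans hK
      rcases lt_or_ge m (Nj j) with h | h
      · exact phi_Mul j m h K hK1 y hy
      · obtain ⟨τ, c, hτ, hc, rfl⟩ := idx_exists h hm
        rw [phi_succ hτ hc]
        apply phi_Mul j c hc K hK1
        apply ww_Mul (Rj_pos j) _ hy
        refine Dvd.dvd.trans ?_ hK
        rw [Lj_succ]
        exact Dvd.intro_left (Lj j * Nj (j + 1)) (by ring)

theorem phi_off {j m : ℕ} (h1 : Nj j ≤ m) (h2 : m < Nj (j + 1)) {y : ℝ} (hy0 : 0 ≤ y)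
    (hy1 : y ≤ 1) (h : ¬ Mul (Rj j) (phi m y)) :
    m = ⌊Nj (j + 1) * Int.fract ((Rj j : ℝ) * y)⌋₊ := by
  apply ww_off (Rj_pos j) h2 hy0 hy1
  intro h3
  apply h
  obtain ⟨τ, c, hτ, hc, rfl⟩ := idx_exists h1 h2
  rw [phi_succ hτ hc]
  exact phi_Mul j c hc (Rj j) (Lj_dvd_Rj j) _ h3

theorem phi_close {j τ c : ℕ} (hτ : τ < nj j) (hc : c < Nj j) {y : ℝ} (hy0 : 0 ≤ y)
    (hy1 : y ≤ 1) : |phi (Nj j * (1 + τ) + c) y - phi c y| ≤ 1 / ((j : ℝ) + 1) := by
  rw [phi_succ hτ hc]
  refine (phi_lip j c hc _ _).trans ?_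
  have h1 := ww_close (Rj_pos j) (idx_bounds hτ hc).2 hy0 hy1
  have hL : (0 : ℝ) < Lj j := by exact_mod_cast Lj_pos j
  calc (Lj j : ℝ) * |ww (Rj j) (Nj (j + 1)) (Nj j * (1 + τ) + c) y - y| ≤
        Lj j * (1 / Rj j) := by gcongr
    _ = 1 / ((j : ℝ) + 1) := by
        rw [Rj]
        push_cast
        field_simp

end Pool.Agent.Work.MP_cda452_an
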