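import Pool.Agent.Work.MP_cda452_an.Theta

set_option autoImplicit false
set_option linter.unusedSectionVars false

namespace Pool.Agent.Work.MP_cda452_an

open Finsupp

/-- Points with coordinates indexed by `ZMod p`. -/
abbrev Pt (p : ℕ) := ZMod p → ℝ

/-- Rotation of coordinates. -/
def rot {p : ℕ} (j : ZMod p) (t : Pt p) : Pt p := fun i => t (i + j)

theorem rot_rot {p : ℕ} (j k : ZMod p) (t : Pt p) : rot j (rot k t) = rot (j + k) t := by
  funext i; simp [rot, add_assoc]

theorem rot_comp {p : ℕ} (j k : ZMod p) :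
    (rot j : Pt p → Pt p) ∘ rot k = rot (j + k) := by
  funext t; exact rot_rot j k t

section
variable {p : ℕ} [Fact p.Prime]

/-- The boundary of the simplex. -/
def Sph (p : ℕ) [Fact p.Prime] : Set (Pt p) :=
  {t | (∀ i, 0 ≤ t i) ∧ ∑ i, t i = 1 ∧ ∃ i, t i = 0}

theorem rot_Sph (j : ZMod p) {t : Pt p} (ht : t ∈ Sph p) : rot j t ∈ Sph p := by
  obtain ⟨h1, h2, i, h3⟩ := ht
  refine ⟨fun i => h1 _, ?_, i - j, ?_⟩
  · rw [← h2]
    exact Fintype.sum_equiv (Equiv.addRight j) _ _ (fun i => rfl)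
  · simp [rot, h3]

/-- A face of the simplex. -/
def face (J : Finset (ZMod p)) : Set (Pt p) :=
  {t | (∀ i, 0 ≤ t i) ∧ ∑ i, t i = 1 ∧ ∀ i, i ∉ J → t i = 0}

theorem face_convex (J : Finset (ZMod p)) : Convex ℝ (face J) := by
  intro x hx y hy a b ha hb hab
  refine ⟨fun i => ?_, ?_, fun i hi => ?_⟩
  · have := hx.1 i
    have := hy.1 i
    simp only [Pi.add_apply, Pi.smul_apply, smul_eq_mul]
    positivity
  · simp only [Pi.add_apply, Pi.smul_apply, smul_eq_mul, Finset.sum_add_distrib,
      ← Finset.mul_sum, hx.2.1, hy.2.1]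
    linarith
  · simp [hx.2.2 i hi, hy.2.2 i hi]

theorem face_Sph {J : Finset (ZMod p)} (hJ : J.card < p) : face J ⊆ Sph p := by
  intro t ht
  refine ⟨ht.1, ht.2.1, ?_⟩
  have : ∃ i, i ∉ J := by
    by_contra h
    push Not at h
    have : J = Finset.univ := Finset.eq_univ_iff_forall.2 h
    rw [this, Finset.card_univ, ZMod.card] at hJ
    exact lt_irrefl _ hJ
  obtain ⟨i, hi⟩ := this
  exact ⟨i, ht.2.2 i hi⟩

/-- A vertex of the simplex. -/
noncomputable def ee (j : ZMod p) : Pt p := Pi.single j 1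

theorem rot_ee (j k : ZMod p) : rot j (ee k) = ee (k - j) := by
  funext i
  simp only [rot, ee, Pi.single_apply]
  congr 1
  exact propext ⟨fun h => by rw [← h]; ring, fun h => by rw [h]; ring⟩

theorem ee_face (j : ZMod p) {J : Finset (ZMod p)} (h : j ∈ J) : ee j ∈ face J := by
  refine ⟨fun i => ?_, ?_, fun i hi => ?_⟩
  · simp only [ee, Pi.single_apply]; split_ifs <;> norm_num
  · simp [ee]
  · simp only [ee, Pi.single_apply]
    rw [if_neg]
    rintro rfl
    exact hi h

theorem dist_ee (j k : ZMod p) : dist (ee j) (ee k) ≤ 1 := by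
  rw [dist_pi_le_iff zero_le_one]
  intro i
  simp only [ee, Pi.single_apply, Real.dist_eq]
  split_ifs <;> norm_num

/-- The coarse chains. -/
noncomputable def cc : ℕ → Ch p (Pt p)
  | 0 => single [ee 0] 1
  | i + 1 => cone (ee 0) (Dop rot i (cc i))

theorem dd_cc_zero : dd (cc 0 : Ch p (Pt p)) = single [] 1 := by
  simp [cc, dL]

theorem dd_cc_succ (i : ℕ) : dd (cc (i + 1) : Ch p (Pt p)) = Dop rot i (cc i) := by
  rw [cc, dd_cone, dd_Dop]
  have : Dop rot i (dd (cc i : Ch p (Pt p))) = 0 := by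
    cases i with
    | zero => rw [dd_cc_zero, Dop_nil]
    | succ i => rw [dd_cc_succ i, Dop_Dop rot rot_comp]
  rw [this]
  simp

theorem cc_Sup : ∀ i : ℕ, (cc i : Ch p (Pt p)) ∈
    Sup p {l : List (Pt p) | l.length = i + 1 ∧ ∀ v ∈ l, ∃ j, v = ee j}
  | 0 => by
      rw [cc]
      apply single_mem_Sup
      refine ⟨rfl, ?_⟩
      intro v hv
      simp only [List.mem_singleton] at hv
      exact ⟨0, hv⟩
  | i + 1 => by
      rw [cc]
      apply cone_Sup (A := {l : List (Pt p) | l.length = i + 1 ∧ ∀ v ∈ l, ∃ j, v = ee j})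
      · rintro l ⟨h1, h2⟩
        refine ⟨by simp [h1], ?_⟩
        intro v hv
        rcases List.mem_cons.1 hv with rfl | hv
        · exact ⟨0, rfl⟩
        · exact h2 v hv
      · apply Dop_Sup _ _ _ (cc_Sup i)
        rintro j l ⟨h1, h2⟩
        refine ⟨by simp [h1], ?_⟩
        intro v hv
        rw [List.mem_map] at hv
        obtain ⟨w, hw, rfl⟩ := hv
        obtain ⟨k, rfl⟩ := h2 w hw
        exact ⟨_, rot_ee j k⟩

/-- Barycenter of a list. -/
noncomputable def bary (l : List (Pt p)) : Pt p := (l.length : ℝ)⁻¹ • l.sum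

theorem bary_rot (j : ZMod p) (l : List (Pt p)) : bary (l.map (rot j)) = rot j (bary l) := by
  have h : ∀ l : List (Pt p), (l.map (rot j)).sum = rot j l.sum := by
    intro l
    induction l with
    | nil => funext i; simp [rot]
    | cons v l ih =>
      rw [List.map_cons, List.sum_cons, List.sum_cons, ih]
      funext i; simp [rot]
  unfold bary
  rw [h]
  funext i; simp [rot]

theorem bary_mem {C : Set (Pt p)} (hC : Convex ℝ C) (l : List (Pt p)) (hl : l ≠ [])
    (h : ∀ v ∈ l, v ∈ C) : bary l ∈ C := by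
  have h1 : l.sum = ∑ i : Fin l.length, l.get i := by
    rw [← List.sum_ofFn, List.ofFn_get]
  have h2 : bary l = ∑ i : Fin l.length, (l.length : ℝ)⁻¹ • l.get i := by
    rw [bary, h1, Finset.smul_sum]
  rw [h2]
  have h3 : (l.length : ℝ) ≠ 0 := by
    simpa using hl
  apply hC.sum_mem
  · intro i _; positivity
  · simp [h3]
  · intro i _
    exact h _ (List.get_mem _ _)

theorem dist_bary {δ : ℝ} (l : List (Pt p)) (h : ∀ v ∈ l, ∀ w ∈ l, dist v w ≤ δ)
    (w : Pt p) (hw : w ∈ l) :
    dist w (bary l) ≤ (1 - 1 / (l.length : ℝ)) * δ := by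
  have h1 : l.sum = ∑ i : Fin l.length, l.get i := by
    rw [← List.sum_ofFn, List.ofFn_get]
  have hl : l ≠ [] := by rintro rfl; simp at hw
  have h3 : (l.length : ℝ) ≠ 0 := by simpa using hl
  have hpos : 0 < (l.length : ℝ) := by
    have := List.length_pos_iff.2 hl
    exact_mod_cast this
  have h4 : w - bary l = ∑ i : Fin l.length, (l.length : ℝ)⁻¹ • (w - l.get i) := by
    rw [← Finset.smul_sum, Finset.sum_sub_distrib, ← h1, bary]
    simp only [Finset.sum_const, Finset.card_univ, Fintype.card_fin, smul_sub]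
    congr 1
    rw [← Nat.cast_smul_eq_nsmul ℝ, smul_smul, inv_mul_cancel₀ h3, one_smul]
  obtain ⟨i0, hi0⟩ := List.get_of_mem hw
  rw [dist_eq_norm, h4]
  calc ‖∑ i : Fin l.length, (l.length : ℝ)⁻¹ • (w - l.get i)‖
      ≤ ∑ i : Fin l.length, ‖(l.length : ℝ)⁻¹ • (w - l.get i)‖ := norm_sum_le _ _
    _ ≤ ∑ i : Fin l.length, (if i = i0 then 0 else (l.length : ℝ)⁻¹ * δ) := by
        apply Finset.sum_le_sum
        intro i _
        split_ifs with hi
        · rw [hi, hi0]; simp
        · rw [norm_smul, norm_inv, Real.norm_natCast]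
          apply mul_le_mul_of_nonneg_left _ (by positivity)
          rw [← dist_eq_norm]
          exact h _ hw _ (List.get_mem _ _)
    _ = (1 - 1 / (l.length : ℝ)) * δ := by
        rw [Finset.sum_ite, Finset.sum_const_zero, zero_add, Finset.sum_const,
          Finset.filter_ne' , Finset.card_erase_of_mem (Finset.mem_univ _), Finset.card_univ,
          Fintype.card_fin, nsmul_eq_mul, Nat.cast_sub (by exact List.length_pos_iff.2 hl)]
        field_simp
        simp only [Nat.cast_one]
        ring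

theorem sub_bary_Sup {δ : ℝ} : ∀ (k : ℕ), k ≤ p → ∀ (l : List (Pt p)), l.length = k →
    (∀ v ∈ l, ∀ w ∈ l, dist v w ≤ δ) →
    sub bary k (single l (1 : ZMod p)) ∈ Sup p {m : List (Pt p) | m.length = k ∧
      (∀ v ∈ m, v ∈ convexHull ℝ {w | w ∈ l}) ∧
      ∀ v ∈ m, ∀ w ∈ m, dist v w ≤ (1 - 1 / (p : ℝ)) * δ} := by
  intro k
  induction k with
  | zero =>
    intro _ l _ _
    rw [sub_zero_single]
    apply single_mem_Sup
    simp
  | succ k ih =>
    intro hk l hl hd
    rw [sub_succ_single]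
    have hlne : l ≠ [] := by rintro rfl; simp at hl
    have hδ : 0 ≤ δ := by
      obtain ⟨v, hv⟩ := List.exists_mem_of_ne_nil l hlne
      simpa using hd v hv v hv
    have h1 := map_Sup (A := {m : List (Pt p) | m.length + 1 = k + 1 ∧ m.Sublist l})
      (cone (bary l) ∘ₗ sub bary k) (Sup p {m : List (Pt p) | m.length = k + 1 ∧
      (∀ v ∈ m, v ∈ convexHull ℝ {w | w ∈ l}) ∧
      ∀ v ∈ m, ∀ w ∈ m, dist v w ≤ (1 - 1 / (p : ℝ)) * δ}) (p := p) (by
        rintro m ⟨hm1, hm2⟩
        rw [LinearMap.comp_apply]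
        have h2 := ih (by omega) m (by omega)
          (fun v hv w hw => hd v (hm2.subset hv) w (hm2.subset hw))
        apply cone_Sup _ _ h2
        rintro q ⟨hq1, hq2, hq3⟩
        have hsub : convexHull ℝ {w | w ∈ m} ⊆ convexHull ℝ {w | w ∈ l} :=
          convexHull_mono (fun w hw => hm2.subset hw)
        have hball : convexHull ℝ {w | w ∈ l} ⊆
            Metric.closedBall (bary l) ((1 - 1 / (p : ℝ)) * δ) := by
          apply convexHull_min _ (convex_closedBall _ _)
          intro w hw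
          rw [Metric.mem_closedBall]
          refine (dist_bary l hd w hw).trans ?_
          apply mul_le_mul_of_nonneg_right _ hδ
          have : (0 : ℝ) < l.length := by rw [hl]; positivity
          have h5 : (l.length : ℝ) ≤ p := by rw [hl]; exact_mod_cast hk
          have := one_div_le_one_div_of_le this h5
          linarith
        have hp0 : 0 ≤ (1 - 1 / (p : ℝ)) * δ := by
          apply mul_nonneg _ hδ
          have : (1 : ℝ) ≤ p := by exact_mod_cast (Fact.out : p.Prime).one_lt.le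
          have := (div_le_one (by linarith)).2 this
          linarith
        refine ⟨by simp [hq1], ?_, ?_⟩
        · intro v hv
          rcases List.mem_cons.1 hv with rfl | hv
          · exact bary_mem (convex_convexHull ℝ _) l hlne (fun v hv => subset_convexHull ℝ _ hv)
          · exact hsub (hq2 v hv)
        · intro v hv w hw
          rcases List.mem_cons.1 hv with rfl | hv
          · rcases List.mem_cons.1 hw with rfl | hw
            · simpa using hp0
            · rw [dist_comm]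
              exact hball (hsub (hq2 w hw))
          · rcases List.mem_cons.1 hw with rfl | hw
            · exact hball (hsub (hq2 v hv))
            · exact hq3 v hv w hw) (x := dL l) (by
        have := dL_Sup (p := p) l
        rw [hl] at this
        refine Finsupp.supported_mono ?_ this
        rintro m ⟨h1, h2⟩
        exact ⟨h1, h2⟩)
    exact h1

/-- Good small lists. -/
def QQ (p : ℕ) [Fact p.Prime] (k : ℕ) (δ : ℝ) : Set (List (Pt p)) :=
  {l | l.length = k ∧ (∃ J : Finset (ZMod p), J.card ≤ k ∧ ∀ v ∈ l, v ∈ face J) ∧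
    ∀ v ∈ l, ∀ w ∈ l, dist v w ≤ δ}

theorem sub_bary_QQ {δ : ℝ} {k : ℕ} (hk : k ≤ p) {x : Ch p (Pt p)} (hx : x ∈ Sup p (QQ p k δ)) :
    sub bary k x ∈ Sup p (QQ p k ((1 - 1 / (p : ℝ)) * δ)) := by
  apply map_Sup _ _ _ hx
  rintro l ⟨h1, ⟨J, hJ1, hJ2⟩, h3⟩
  refine Finsupp.supported_mono ?_ (sub_bary_Sup k hk l h1 h3)
  rintro m ⟨hm1, hm2, hm3⟩
  refine ⟨hm1, ⟨J, hJ1, fun v hv => ?_⟩, hm3⟩
  exact (convexHull_min (fun w hw => hJ2 w hw) (face_convex J)) (hm2 v hv)

theorem cc_QQ (i : ℕ) : (cc i : Ch p (Pt p)) ∈ Sup p (QQ p (i + 1) 1) := by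
  classical
  refine Finsupp.supported_mono ?_ (cc_Sup i)
  rintro l ⟨h1, h2⟩
  choose! j hj using h2
  refine ⟨h1, ⟨(l.map j).toFinset, ?_, ?_⟩, ?_⟩
  · refine (List.toFinset_card_le _).trans ?_
    simp [h1]
  · intro v hv
    rw [hj v hv]
    apply ee_face
    rw [List.mem_toFinset, List.mem_map]
    exact ⟨v, hv, rfl⟩
  · intro v hv w hw
    rw [hj v hv, hj w hw]
    exact dist_ee _ _

/-- Iterated subdivision. -/
noncomputable def sdr (k : ℕ) : ℕ → Ch p (Pt p) → Ch p (Pt p)
  | 0, x => x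
  | r + 1, x => sub bary k (sdr k r x)

theorem dd_sdr (k r : ℕ) (x : Ch p (Pt p)) : dd (sdr (k + 1) r x) = sdr k r (dd x) := by
  induction r with
  | zero => rfl
  | succ r ih => rw [sdr, sdr, dd_sub, ih]

theorem sdr_Dop (k r i : ℕ) (x : Ch p (Pt p)) : sdr k r (Dop rot i x) = Dop rot i (sdr k r x) := by
  induction r with
  | zero => rfl
  | succ r ih =>
    rw [sdr, sdr, ih]
    exact sub_Dop rot rot bary (fun j l _ => bary_rot j l) k i _

theorem sdr_QQ {k : ℕ} (hk : k ≤ p) (r : ℕ) {x : Ch p (Pt p)} (hx : x ∈ Sup p (QQ p k 1)) :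
    sdr k r x ∈ Sup p (QQ p k ((1 - 1 / (p : ℝ)) ^ r)) := by
  induction r with
  | zero => simpa [sdr] using hx
  | succ r ih =>
    rw [sdr, pow_succ']
    exact sub_bary_QQ hk ih

theorem sdr_nil (r : ℕ) : sdr 0 r (single [] 1 : Ch p (Pt p)) = single [] 1 := by
  induction r with
  | zero => rfl
  | succ r ih => rw [sdr, ih]; simp

end

end Pool.Agent.Work.MP_cda452_an
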