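import Pool.Agent.Work.MP_cda452_an.Chain

set_option autoImplicit false

namespace Pool.Agent.Work.MP_cda452_an

open Finsupp

section Ops
variable {p : ℕ} [Fact p.Prime] {V W : Type}

/-- The alternating operators `T - 1` and `N`. -/
noncomputable def Dop (r : ZMod p → V → V) (i : ℕ) : Ch p V →ₗ[ZMod p] Ch p V :=
  if Even i then mapc (r 1) - LinearMap.id else ∑ j : ZMod p, mapc (r j)

theorem Dop_even (r : ZMod p → V → V) {i : ℕ} (h : Even i) (x : Ch p V) :
    Dop r i x = mapc (r 1) x - x := by
  simp [Dop, h]

theorem Dop_odd (r : ZMod p → V → V) {i : ℕ} (h : ¬ Even i) (x : Ch p V) :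
    Dop r i x = ∑ j : ZMod p, mapc (r j) x := by
  simp [Dop, h]

theorem Dop_Dop (r : ZMod p → V → V) (hr : ∀ j k, r j ∘ r k = r (j + k)) (i : ℕ) (x : Ch p V) :
    Dop r (i + 1) (Dop r i x) = 0 := by
  by_cases h : Even i
  · have h' : ¬ Even (i + 1) := by simpa [Nat.even_add_one] using h
    rw [Dop_odd r h', Dop_even r h]
    simp only [map_sub, mapc_mapc, hr, Finset.sum_sub_distrib]
    rw [sub_eq_zero]
    exact Fintype.sum_equiv (Equiv.addRight (1 : ZMod p)) _ _ (fun j => by simp)
  · have h' : Even (i + 1) := by simpa [Nat.even_add_one] using h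
    rw [Dop_even r h', Dop_odd r h]
    simp only [map_sum, mapc_mapc, hr]
    rw [sub_eq_zero]
    exact Fintype.sum_equiv (Equiv.addLeft (1 : ZMod p)) _ _ (fun j => by simp)

theorem dd_Dop (r : ZMod p → V → V) (i : ℕ) (x : Ch p V) :
    dd (Dop r i x) = Dop r i (dd x) := by
  by_cases h : Even i
  · rw [Dop_even r h, Dop_even r h, map_sub, dd_mapc]
  · rw [Dop_odd r h, Dop_odd r h, map_sum]
    simp only [dd_mapc]

theorem Dop_nil (r : ZMod p → V → V) (i : ℕ) : Dop r i (single [] (1 : ZMod p)) = 0 := by
  by_cases h : Even i
  · rw [Dop_even r h]; simp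
  · rw [Dop_odd r h]
    simp

theorem sub_Dop (r : ZMod p → V → V) (r' : ZMod p → W → W) (b : List V → W)
    (h : ∀ j l, l ≠ [] → b (l.map (r j)) = r' j (b l)) (k i : ℕ) (x : Ch p V) :
    sub b k (Dop r i x) = Dop r' i (sub b k x) := by
  have h1 : ∀ j, ∀ x : Ch p V, sub b k (mapc (r j) x) = mapc (r' j) (sub b k x) := by
    intro j x
    exact sub_mapc b b (r j) (r' j) (h j) k x
  by_cases hi : Even i
  · rw [Dop_even r hi, Dop_even r' hi, map_sub, h1]
  · rw [Dop_odd r hi, Dop_odd r' hi, map_sum]
    simp only [h1]

theorem mapc_Dop (r : ZMod p → V → V) (r' : ZMod p → W → W) (f : V → W)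
    (S : Set V) (h : ∀ j, ∀ v ∈ S, f (r j v) = r' j (f v)) (i : ℕ) {x : Ch p V}
    (hx : x ∈ Sup p {l : List V | ∀ v ∈ l, v ∈ S}) :
    mapc f (Dop r i x) = Dop r' i (mapc f x) := by
  have h1 : ∀ j, mapc f (mapc (r j) x) = mapc (r' j) (mapc f x) := by
    intro j
    have := eq_on_Sup (A := {l : List V | ∀ v ∈ l, v ∈ S}) (mapc f ∘ₗ mapc (r j))
      (mapc (r' j) ∘ₗ mapc f) (p := p) (by
        intro l hl
        simp only [LinearMap.comp_apply, mapc_single, List.map_map]
        congr 1
        apply List.map_congr_left
        intro v hv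
        simp [h j v (hl v hv)]) hx
    simpa using this
  by_cases hi : Even i
  · rw [Dop_even r hi, Dop_even r' hi, map_sub, h1]
  · rw [Dop_odd r hi, Dop_odd r' hi, map_sum]
    simp only [h1]

theorem Dop_Sup (r : ZMod p → V → V) (i : ℕ) {A : Set (List V)}
    (h : ∀ j, ∀ l ∈ A, l.map (r j) ∈ A) {x : Ch p V} (hx : x ∈ Sup p A) :
    Dop r i x ∈ Sup p A := by
  by_cases hi : Even i
  · rw [Dop_even r hi]
    exact Submodule.sub_mem _ (mapc_Sup _ (h 1) hx) hx
  · rw [Dop_odd r hi]
    exact Submodule.sum_mem _ (fun j _ => mapc_Sup _ (h j) hx)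

end Ops

section Theta
variable {p : ℕ} [Fact p.Prime]

/-- Translation of phases. -/
def tr (j : ZMod p) : ZMod p → ZMod p := fun g => g + j

theorem tr_comp (j k : ZMod p) : tr j ∘ tr k = tr (j + k) := by
  funext g; simp [tr]; ring

theorem tr_Deg (j : ZMod p) (l : List (ZMod p)) (h : l ∈ Deg (ZMod p)) :
    l.map (tr j) ∈ Deg (ZMod p) := by
  intro hc
  apply h
  rw [List.isChain_map] at hc
  refine hc.imp ?_
  intro a b hab hab'
  exact hab (by rw [hab'])

theorem inv_all (θ : Ch p (ZMod p) →ₗ[ZMod p] ZMod p)
    (hT : ∀ x, θ (mapc (tr 1) x) = θ x) (j : ZMod p) (x : Ch p (ZMod p)) :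
    θ (mapc (tr j) x) = θ x := by
  have h1 : ∀ n : ℕ, ∀ x, θ (mapc (tr (n : ZMod p)) x) = θ x := by
    intro n
    induction n with
    | zero =>
      intro x
      have : (tr ((0 : ℕ) : ZMod p)) = id := by funext g; simp [tr]
      rw [this]
      congr 1
      simp [mapc]
    | succ n ih =>
      intro x
      have : (tr ((n + 1 : ℕ) : ZMod p)) = tr 1 ∘ tr (n : ZMod p) := by
        rw [tr_comp]; push_cast; rw [add_comm]
      rw [this, ← mapc_mapc, hT, ih]
  have h2 := h1 j.val x
  rwa [ZMod.natCast_zmod_val] at h2

theorem H1 (θ : Ch p (ZMod p) →ₗ[ZMod p] ZMod p) (h0 : θ (single [] 1) = 0)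
    (hT : ∀ x, θ (mapc (tr 1) x) = θ x) (hD : ∀ x ∈ Sup p (Deg (ZMod p)), θ x = 0) :
    ∃ η : Ch p (ZMod p) →ₗ[ZMod p] ZMod p, (∀ x, η (∑ j, mapc (tr j) x) = θ x) ∧
      ∀ x ∈ Sup p (Deg (ZMod p)), η x = 0 := by
  classical
  refine ⟨Finsupp.linearCombination (ZMod p)
    (fun l => if l.head? = some 0 then θ (single l 1) else 0), ?_, ?_⟩
  · intro x
    have key : (Finsupp.linearCombination (ZMod p)
      (fun l => if l.head? = some (0 : ZMod p) then θ (single l 1) else 0)) ∘ₗ
        (∑ j : ZMod p, mapc (tr j)) = θ := by
      apply ch_ext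
      intro l
      simp only [LinearMap.comp_apply, LinearMap.sum_apply, mapc_single, map_sum,
        Finsupp.linearCombination_single, one_smul]
      rcases l with _ | ⟨g, l⟩
      · simp [h0]
      · have h2 : ∀ j : ZMod p, (List.map (tr j) (g :: l)).head? = some 0 ↔ j = -g := by
          intro j
          simp only [List.map_cons, List.head?_cons, Option.some.injEq, tr]
          constructor
          · intro h; linear_combination h
          · intro h; rw [h]; ring
        simp only [h2]
        rw [Finset.sum_ite_eq']
        simp only [Finset.mem_univ, if_true]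
        rw [← inv_all θ hT (-g) (single (g :: l) 1)]
        simp
    have := LinearMap.congr_fun key x
    simpa using this
  · intro x hx
    have := map_Sup (Finsupp.linearCombination (ZMod p)
      (fun l => if l.head? = some (0 : ZMod p) then θ (single l 1) else 0)) ⊥ (by
        intro l hl
        simp only [Finsupp.linearCombination_single, one_smul, Submodule.mem_bot]
        rw [hD _ (single_mem_Sup hl 1)]
        simp) hx
    simpa using this

theorem H2 (θ : Ch p (ZMod p) →ₗ[ZMod p] ZMod p) (h0 : θ (single [] 1) = 0)
    (hN : ∀ x, θ (∑ j, mapc (tr j) x) = 0) (hD : ∀ x ∈ Sup p (Deg (ZMod p)), θ x = 0) :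
    ∃ η : Ch p (ZMod p) →ₗ[ZMod p] ZMod p, (∀ x, η (mapc (tr 1) x - x) = θ x) ∧
      ∀ x ∈ Sup p (Deg (ZMod p)), η x = 0 := by
  classical
  let F : List (ZMod p) → ZMod p := fun l =>
    ∑ j ∈ Finset.range (l.headD 0).val,
      θ (single (l.map (tr ((j : ZMod p) - l.headD 0))) 1)
  have hF : ∀ g : ZMod p, ∀ l, F (g :: l) =
      ∑ j ∈ Finset.range g.val, θ (single ((g :: l).map (tr ((j : ZMod p) - g))) 1) := by
    intro g l; rfl
  refine ⟨Finsupp.linearCombination (ZMod p) F, ?_, ?_⟩
  · intro x
    have key : (Finsupp.linearCombination (ZMod p) F) ∘ₗ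
        (mapc (tr 1) - LinearMap.id) = θ := by
      apply ch_ext
      intro l
      simp only [LinearMap.comp_apply, LinearMap.sub_apply, LinearMap.id_apply, mapc_single,
        map_sub, Finsupp.linearCombination_single, one_smul]
      rcases l with _ | ⟨g, l⟩
      · simp [h0]
      · rw [List.map_cons, hF, hF]
        have h3 : ∀ j : ℕ, (tr (1 : ZMod p) g :: List.map (tr 1) l).map
            (tr ((j : ZMod p) - tr 1 g)) = (g :: l).map (tr ((j : ZMod p) - g)) := by
          intro j
          rw [← List.map_cons, List.map_map, tr_comp]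
          congr 2
          simp only [tr]
          ring
        simp only [h3]
        have hva : (g + 1).val = (g.val + 1) % p := by
          have : Fact (1 < p) := ⟨(Fact.out : p.Prime).one_lt⟩
          rw [ZMod.val_add, ZMod.val_one]
        have hlt : g.val + 1 ≤ p := ZMod.val_lt g
        by_cases hg : g + 1 = 0
        · have h4 : (tr (1 : ZMod p) g).val = 0 := by
            simp [tr, hg]
          rw [h4]
          simp only [Finset.range_zero, Finset.sum_empty, zero_sub]
          have h5 := hN (single ((g :: l).map (tr (-g))) 1)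
          simp only [map_sum, mapc_single, List.map_map, tr_comp] at h5
          have h6 : (g.val : ℕ) + 1 = p := by
            rw [hg, ZMod.val_zero] at hva
            have := Nat.le_of_dvd (Nat.succ_pos _) (Nat.dvd_of_mod_eq_zero hva.symm)
            omega
          have h7 : ∑ j : ZMod p, θ (single ((g :: l).map (tr (j + -g))) 1) =
              ∑ j ∈ Finset.range (g.val + 1), θ (single ((g :: l).map (tr ((j : ZMod p) - g))) 1) := by
            rw [h6]
            symm
            apply Finset.sum_bij (fun (j : ℕ) _ => (j : ZMod p))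
            · intro a _; simp
            · intro a ha b hb hab
              have := (ZMod.natCast_eq_natCast_iff a b p).1 hab
              rw [Nat.ModEq, Nat.mod_eq_of_lt (Finset.mem_range.1 ha),
                Nat.mod_eq_of_lt (Finset.mem_range.1 hb)] at this
              exact this
            · intro b _
              exact ⟨b.val, Finset.mem_range.2 (ZMod.val_lt b), ZMod.natCast_zmod_val b⟩
            · intro a _
              rw [sub_eq_add_neg]
          rw [h7, Finset.sum_range_succ] at h5
          have h8 : List.map (tr ((g.val : ZMod p) - g)) (g :: l) = g :: l := by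
            have : tr ((g.val : ZMod p) - g) = id := by
              funext a; simp [tr]
            rw [this, List.map_id]
          rw [h8] at h5
          linear_combination -h5
        · have h4 : (tr (1 : ZMod p) g).val = g.val + 1 := by
            simp only [tr]
            rw [hva]
            rcases Nat.lt_or_ge (g.val + 1) p with h10 | h10
            · exact Nat.mod_eq_of_lt h10
            · exfalso
              apply hg
              have h11 : g.val + 1 = p := le_antisymm hlt h10
              have h12 : ((g.val + 1 : ℕ) : ZMod p) = 0 := by rw [h11]; simp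
              push_cast at h12
              rwa [ZMod.natCast_zmod_val] at h12
          rw [h4, Finset.sum_range_succ]
          have h8 : List.map (tr ((g.val : ZMod p) - g)) (g :: l) = g :: l := by
            have : tr ((g.val : ZMod p) - g) = id := by
              funext a; simp [tr]
            rw [this, List.map_id]
          rw [h8]
          ring
    have := LinearMap.congr_fun key x
    simpa using this
  · intro x hx
    have := map_Sup (Finsupp.linearCombination (ZMod p) F) ⊥ (by
        intro l hl
        simp only [Finsupp.linearCombination_single, one_smul, Submodule.mem_bot]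
        apply Finset.sum_eq_zero
        intro j _
        exact hD _ (single_mem_Sup (tr_Deg _ l hl) 1)) hx
    simpa using this

/-- The algebraic obstruction: a resolution-like sequence cannot become degenerate. -/
theorem theta_main (M : ℕ) (z : ℕ → Ch p (ZMod p))
    (h0 : dd (z 0) = single [] 1)
    (hs : ∀ i < M, dd (z (i + 1)) = Dop tr i (z i)) : z M ∉ Sup p (Deg (ZMod p)) := by
  classical
  have key : ∀ i ≤ M, ∃ θ : Ch p (ZMod p) →ₗ[ZMod p] ZMod p, θ (z i) = 1 ∧
      θ (single [] 1) = 0 ∧ (∀ x, θ (dd x) = 0) ∧
      (∀ x, θ (Dop tr (i + 1) x) = 0) ∧ ∀ x ∈ Sup p (Deg (ZMod p)), θ x = 0 := by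
    intro i
    induction i with
    | zero =>
      intro _
      refine ⟨(Finsupp.lapply []) ∘ₗ dd, ?_, ?_, ?_, ?_, ?_⟩
      · simp [h0]
      · simp [dL]
      · intro x; simp [dd_dd]
      · intro x
        simp only [LinearMap.comp_apply]
        rw [dd_Dop, Dop_odd _ (by decide), map_sum]
        have h1 : ∀ j : ZMod p, ∀ y : Ch p (ZMod p),
            Finsupp.lapply (R := ZMod p) [] (mapc (tr j) y) = Finsupp.lapply (R := ZMod p) [] y := by
          intro j y
          have : (Finsupp.lapply (R := ZMod p) []) ∘ₗ (mapc (tr j)) =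
              (Finsupp.lapply (R := ZMod p) (M := ZMod p) ([] : List (ZMod p))) := by
            apply ch_ext
            intro l
            simp only [LinearMap.comp_apply, mapc_single, Finsupp.lapply_apply,
              Finsupp.single_apply]
            simp
          exact LinearMap.congr_fun this y
        simp only [h1]
        simp
      · intro x hx
        have h2 := dd_Deg hx
        rw [Finsupp.mem_supported] at h2
        simp only [LinearMap.comp_apply, Finsupp.lapply_apply]
        by_contra h3
        have h4 : ([] : List (ZMod p)) ∈ (dd x).support := by simpa using h3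
        have := h2 h4
        exact this (by simp)
    | succ i ih =>
      intro hi
      obtain ⟨θ, t1, t2, t3, t4, t5⟩ := ih (by omega)
      have hz := hs i (by omega)
      by_cases he : Even i
      · have he' : ¬ Even (i + 1) := by simpa [Nat.even_add_one] using he
        have he2 : Even (i + 1 + 1) := by simpa [Nat.even_add_one] using he
        obtain ⟨η, e1, e2⟩ := H2 θ t2 (by
          intro x
          have := t4 x
          rwa [Dop_odd _ he'] at this) t5
        refine ⟨η ∘ₗ dd, ?_, ?_, ?_, ?_, ?_⟩
        · simp only [LinearMap.comp_apply]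
          rw [hz, Dop_even _ he, e1, t1]
        · simp [dL]
        · intro x; simp [dd_dd]
        · intro x
          simp only [LinearMap.comp_apply]
          rw [dd_Dop, Dop_even _ he2, e1, t3]
        · intro x hx
          exact e2 _ (dd_Deg hx)
      · have he' : Even (i + 1) := by simpa [Nat.even_add_one] using he
        have he2 : ¬ Even (i + 1 + 1) := by simpa [Nat.even_add_one] using he
        obtain ⟨η, e1, e2⟩ := H1 θ t2 (by
          intro x
          have := t4 x
          rw [Dop_even _ he', map_sub, sub_eq_zero] at this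
          exact this) t5
        refine ⟨η ∘ₗ dd, ?_, ?_, ?_, ?_, ?_⟩
        · simp only [LinearMap.comp_apply]
          rw [hz, Dop_odd _ he, e1, t1]
        · simp [dL]
        · intro x; simp [dd_dd]
        · intro x
          simp only [LinearMap.comp_apply]
          rw [dd_Dop, Dop_odd _ he2, e1, t3]
        · intro x hx
          exact e2 _ (dd_Deg hx)
  intro hz
  obtain ⟨θ, t1, -, -, -, t5⟩ := key M le_rfl
  rw [t5 _ hz] at t1
  exact zero_ne_one t1

end Theta

end Pool.Agent.Work.MP_cda452_an
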