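import Mathlib

set_option autoImplicit false
set_option linter.unusedSectionVars false

namespace Pool.Agent.Work.MP_cda452_an

theorem union_bound {ι Γ : Type} [Fintype Γ] [Nonempty Γ] (T : Finset ι) (B q a : ℕ)
    (Bad : ι → Fin B → Finset Γ) (Good : ι → Finset (Fin B))
    (hbad : ∀ t ∈ T, ∀ d ∈ Good t, (Bad t d).card * q ≤ Fintype.card Γ)
    (hlt : T.card * 2 ^ B < q ^ a) :
    ∃ g : Fin B → Γ, ∀ t ∈ T, ∀ A ⊆ Good t, A.card = a → ∃ d ∈ A, g d ∉ Bad t d := by
  classical
  by_contra hcon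
  push Not at hcon
  let P : ι → Finset (Fin B) → Finset (Fin B → Γ) := fun t A =>
    Fintype.piFinset (fun d => if d ∈ A then Bad t d else Finset.univ)
  have hP : ∀ t ∈ T, ∀ A ⊆ Good t, A.card = a → (P t A).card * q ^ a ≤ Fintype.card Γ ^ B := by
    intro t ht A hA hAa
    have h1 : q ^ a = ∏ d : Fin B, (if d ∈ A then q else 1) := by
      rw [Finset.prod_ite_mem, Finset.univ_inter, Finset.prod_const, hAa]
    simp only [P, Fintype.card_piFinset]
    rw [h1, ← Finset.prod_mul_distrib]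
    calc ∏ d : Fin B, ((if d ∈ A then Bad t d else Finset.univ).card * (if d ∈ A then q else 1))
        ≤ ∏ d : Fin B, Fintype.card Γ := by
          apply Finset.prod_le_prod'
          intro d _
          split_ifs with hd
          · exact hbad t ht d (hA hd)
          · simp
      _ = Fintype.card Γ ^ B := by simp
  have hcover : (Finset.univ : Finset (Fin B → Γ)) ⊆
      T.biUnion (fun t => ((Good t).powersetCard a).biUnion (fun A => P t A)) := by
    intro g _
    obtain ⟨t, ht, A, hA, hAa, hg⟩ := hcon g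
    simp only [Finset.mem_biUnion, Finset.mem_powersetCard]
    refine ⟨t, ht, A, ⟨hA, hAa⟩, ?_⟩
    simp only [P, Fintype.mem_piFinset]
    intro d
    split_ifs with hd
    · exact hg d hd
    · exact Finset.mem_univ _
  have h1 : Fintype.card Γ ^ B ≤ ∑ t ∈ T, ∑ A ∈ (Good t).powersetCard a, (P t A).card := by
    have h2 := Finset.card_le_card hcover
    rw [Finset.card_univ, Fintype.card_fun, Fintype.card_fin] at h2
    refine h2.trans (Finset.card_biUnion_le.trans ?_)
    exact Finset.sum_le_sum (fun t _ => Finset.card_biUnion_le)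
  have h2 : Fintype.card Γ ^ B * q ^ a ≤ T.card * 2 ^ B * Fintype.card Γ ^ B := by
    calc Fintype.card Γ ^ B * q ^ a
        ≤ (∑ t ∈ T, ∑ A ∈ (Good t).powersetCard a, (P t A).card) * q ^ a :=
          Nat.mul_le_mul_right _ h1
      _ = ∑ t ∈ T, ∑ A ∈ (Good t).powersetCard a, (P t A).card * q ^ a := by
          rw [Finset.sum_mul]
          exact Finset.sum_congr rfl (fun t _ => Finset.sum_mul _ _ _)
      _ ≤ ∑ t ∈ T, ∑ A ∈ (Good t).powersetCard a, Fintype.card Γ ^ B := by
          apply Finset.sum_le_sum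
          intro t ht
          apply Finset.sum_le_sum
          intro A hA
          rw [Finset.mem_powersetCard] at hA
          exact hP t ht A hA.1 hA.2
      _ ≤ ∑ t ∈ T, 2 ^ B * Fintype.card Γ ^ B := by
          apply Finset.sum_le_sum
          intro t _
          rw [Finset.sum_const, smul_eq_mul]
          apply Nat.mul_le_mul_right
          calc ((Good t).powersetCard a).card ≤ (Good t).powerset.card := by
                apply Finset.card_le_card
                intro A hA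
                exact Finset.mem_powerset.2 (Finset.mem_powersetCard.1 hA).1
            _ = 2 ^ (Good t).card := Finset.card_powerset _
            _ ≤ 2 ^ B := by
                apply Nat.pow_le_pow_right (by norm_num)
                have := Finset.card_le_univ (Good t)
                rwa [Fintype.card_fin] at this
      _ = T.card * 2 ^ B * Fintype.card Γ ^ B := by
          rw [Finset.sum_const, smul_eq_mul, mul_assoc]
  have h3 : 0 < Fintype.card Γ ^ B := pow_pos Fintype.card_pos _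
  have h4 : T.card * 2 ^ B * Fintype.card Γ ^ B < q ^ a * Fintype.card Γ ^ B :=
    Nat.mul_lt_mul_of_pos_right hlt h3
  rw [mul_comm (q ^ a)] at h4
  omega

theorem small_ball {Q : Type} [Fintype Q] [DecidableEq Q] (n : ℕ) (z : Q → ℂ) (ρ : ℝ) (q0 : Q)
    (h : ρ ≤ ‖z q0‖) :
    (Finset.univ.filter (fun γ : Q → Fin n => ‖∑ q, ((γ q : ℕ) : ℂ) * z q‖ < ρ / 2)).card * n ≤
      Fintype.card (Q → Fin n) := by
  classical
  set S := Finset.univ.filter (fun γ : Q → Fin n => ‖∑ q, ((γ q : ℕ) : ℂ) * z q‖ < ρ / 2) with hS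
  have h1 : S.card * n = (S ×ˢ (Finset.univ : Finset (Fin n))).card := by
    rw [Finset.card_product, Finset.card_univ, Fintype.card_fin]
  rw [h1, ← Finset.card_univ]
  apply Finset.card_le_card_of_injOn (fun x => Function.update x.1 q0 x.2)
  · intro x _; exact Finset.mem_coe.2 (Finset.mem_univ _)
  · rintro ⟨γ, k⟩ hx ⟨γ', k'⟩ hy hxy
    simp only at hxy
    have hk : k = k' := by
      have := congrFun hxy q0
      simpa using this
    have hoff : ∀ q, q ≠ q0 → γ q = γ' q := by
      intro q hq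
      have := congrFun hxy q
      simpa [hq] using this
    rw [Finset.mem_coe, Finset.mem_product] at hx hy
    simp only [hS, Finset.mem_filter, Finset.mem_univ, true_and] at hx hy
    have hd : (∑ q, ((γ q : ℕ) : ℂ) * z q) - ∑ q, ((γ' q : ℕ) : ℂ) * z q =
        (((γ q0 : ℕ) : ℂ) - ((γ' q0 : ℕ) : ℂ)) * z q0 := by
      rw [← Finset.sum_sub_distrib, Finset.sum_eq_single q0]
      · ring
      · intro q _ hq
        rw [hoff q hq]; ring
      · intro h; exact absurd (Finset.mem_univ _) h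
    have hq0 : γ q0 = γ' q0 := by
      by_contra hne
      have h2 : ‖(((γ q0 : ℕ) : ℂ) - ((γ' q0 : ℕ) : ℂ)) * z q0‖ < ρ := by
        rw [← hd]
        calc ‖_‖ ≤ ‖∑ q, ((γ q : ℕ) : ℂ) * z q‖ + ‖∑ q, ((γ' q : ℕ) : ℂ) * z q‖ :=
              norm_sub_le _ _
          _ < ρ := by linarith [hx.1, hy.1]
      rw [norm_mul] at h2
      have h3 : 1 ≤ ‖((γ q0 : ℕ) : ℂ) - ((γ' q0 : ℕ) : ℂ)‖ := by
        have h4 : ((γ q0 : ℕ) : ℂ) - ((γ' q0 : ℕ) : ℂ) =
            (((γ q0 : ℕ) : ℤ) - ((γ' q0 : ℕ) : ℤ) : ℤ) := by push_cast; rfl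
        rw [h4, Complex.norm_intCast]
        have h5 : (((γ q0 : ℕ) : ℤ) - ((γ' q0 : ℕ) : ℤ)) ≠ 0 := by
          intro h6
          apply hne
          apply Fin.ext
          omega
        exact_mod_cast Int.one_le_abs h5
      have h7 : 0 ≤ ‖z q0‖ := norm_nonneg _
      nlinarith
    have hγ : γ = γ' := by
      funext q
      by_cases hq : q = q0
      · rw [hq, hq0]
      · exact hoff q hq
    rw [hγ, hk]

theorem abs_prod_sub_prod_le {ι : Type} (s : Finset ι) (a b : ι → ℝ)
    (ha0 : ∀ i, 0 ≤ a i) (ha1 : ∀ i, a i ≤ 1) (hb0 : ∀ i, 0 ≤ b i) (hb1 : ∀ i, b i ≤ 1) :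
    |∏ i ∈ s, a i - ∏ i ∈ s, b i| ≤ ∑ i ∈ s, |a i - b i| := by
  classical
  induction s using Finset.induction_on with
  | empty => simp
  | insert i s hi ih =>
    rw [Finset.prod_insert hi, Finset.prod_insert hi, Finset.sum_insert hi]
    have hA0 : 0 ≤ ∏ i ∈ s, a i := Finset.prod_nonneg (fun i _ => ha0 i)
    have hA1 : ∏ i ∈ s, a i ≤ 1 := Finset.prod_le_one (fun i _ => ha0 i) (fun i _ => ha1 i)
    have h1 : a i * ∏ i ∈ s, a i - b i * ∏ i ∈ s, b i =
        (a i - b i) * ∏ i ∈ s, a i + b i * (∏ i ∈ s, a i - ∏ i ∈ s, b i) := by ring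
    rw [h1]
    calc |(a i - b i) * ∏ i ∈ s, a i + b i * (∏ i ∈ s, a i - ∏ i ∈ s, b i)|
        ≤ |(a i - b i) * ∏ i ∈ s, a i| + |b i * (∏ i ∈ s, a i - ∏ i ∈ s, b i)| := abs_add_le _ _
      _ = |a i - b i| * ∏ i ∈ s, a i + b i * |∏ i ∈ s, a i - ∏ i ∈ s, b i| := by
          rw [abs_mul, abs_mul, abs_of_nonneg hA0, abs_of_nonneg (hb0 i)]
      _ ≤ |a i - b i| * 1 + 1 * |∏ i ∈ s, a i - ∏ i ∈ s, b i| := by
          gcongr
          exact hb1 i
      _ ≤ _ := by linarith

theorem sqrt_sub_sq_le (x y : ℝ) (hx : 0 ≤ x) (hy : 0 ≤ y) :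
    (Real.sqrt x - Real.sqrt y) ^ 2 ≤ |x - y| := by
  have h1 := Real.sqrt_nonneg x
  have h2 := Real.sqrt_nonneg y
  have h3 := Real.sq_sqrt hx
  have h4 := Real.sq_sqrt hy
  have h5 : |x - y| = |Real.sqrt x - Real.sqrt y| * (Real.sqrt x + Real.sqrt y) := by
    rw [← abs_of_nonneg (add_nonneg h1 h2), ← abs_mul]
    congr 1
    nlinarith
  rw [h5, ← sq_abs, sq]
  apply mul_le_mul_of_nonneg_left _ (abs_nonneg _)
  rw [abs_le]
  constructor <;> linarith

end Pool.Agent.Work.MP_cda452_an
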