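import Pool.Agent.Work.MP_cda452_an.Omega
import Pool.Agent.Work.MP_cda452_an.Union

set_option autoImplicit false
set_option linter.unusedSectionVars false

namespace Pool.Agent.Work.MP_cda452_an

section
variable {p : ℕ} [Fact p.Prime]

/-! ### elementary features of a point -/

noncomputable def aF (t : Pt p) : ℝ := clamp (2 - 6 * nm t 0)

noncomputable def bF (t : Pt p) : ℝ := clamp (6 * nm t 0 - 4)

noncomputable def uF (t : Pt p) : ℝ := max (1 / 6 - nm t 0) 0

noncomputable def vF (t : Pt p) : ℝ := max (nm t 0 - 5 / 6) 0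

theorem nm0_cont : ContinuousOn (fun t : Pt p => nm t 0) (Sph p) :=
  (continuous_apply (0 : ZMod p)).comp_continuousOn nm_cont

theorem aF_cont : ContinuousOn (aF : Pt p → ℝ) (Sph p) :=
  clamp_cont.comp_continuousOn (continuousOn_const.sub (continuousOn_const.mul nm0_cont))

theorem bF_cont : ContinuousOn (bF : Pt p → ℝ) (Sph p) :=
  clamp_cont.comp_continuousOn ((continuousOn_const.mul nm0_cont).sub continuousOn_const)

theorem max0_cont : Continuous (fun x : ℝ => max x 0) := by fun_prop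

theorem uF_cont : ContinuousOn (uF : Pt p → ℝ) (Sph p) :=
  max0_cont.comp_continuousOn (continuousOn_const.sub nm0_cont)

theorem vF_cont : ContinuousOn (vF : Pt p → ℝ) (Sph p) :=
  max0_cont.comp_continuousOn (nm0_cont.sub continuousOn_const)

theorem nm_rot_zero (i : ZMod p) (t : Pt p) : nm (rot i t) 0 = nm t i := by
  rw [nm_rot]; simp [rot]

theorem cut_u : Cut p (p / 16)
    {t | p / 16 < (Finset.univ.filter (fun i : ZMod p => uF (rot i t) ≠ 0)).card} := by
  have hlt : p / 16 < p := Nat.div_lt_self (Fact.out : p.Prime).pos (by norm_num)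
  refine (cut_bch (fun t => ((uF t : ℝ) : ℂ))
      (Complex.continuous_ofReal.comp_continuousOn uF_cont) _ hlt).mono ?_
  intro t ht h
  by_contra hcon
  simp only [Set.mem_ofPred_eq, not_lt] at hcon
  obtain ⟨i, hi⟩ := nm_exists_zero ht
  have h2 := h (by simpa using hcon) i
  have h3 : uF (rot i t) = 0 := by exact_mod_cast h2
  rw [uF, nm_rot_zero, hi] at h3
  norm_num at h3

theorem cut_v : Cut p (p / 16)
    {t | p / 16 < (Finset.univ.filter (fun i : ZMod p => vF (rot i t) ≠ 0)).card} := by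
  have hlt : p / 16 < p := Nat.div_lt_self (Fact.out : p.Prime).pos (by norm_num)
  refine (cut_bch (fun t => ((vF t : ℝ) : ℂ))
      (Complex.continuous_ofReal.comp_continuousOn vF_cont) _ hlt).mono ?_
  intro t ht h
  by_contra hcon
  simp only [Set.mem_ofPred_eq, not_lt] at hcon
  obtain ⟨i, hi⟩ := nm_exists_one ht
  have h2 := h (by simpa using hcon) i
  have h3 : vF (rot i t) = 0 := by exact_mod_cast h2
  rw [vF, nm_rot_zero, hi] at h3
  norm_num at h3

theorem sum_ge_of_card {f g : ZMod p → ℝ} (h0 : ∀ i, 0 ≤ f i) (h1 : ∀ i, g i ≠ 0 → f i = 1)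
    (hc : p / 16 < (Finset.univ.filter (fun i : ZMod p => g i ≠ 0)).card) :
    1 / 16 * (p : ℝ) ≤ ∑ i, f i := by
  have h2 : ((Finset.univ.filter (fun i : ZMod p => g i ≠ 0)).card : ℝ) ≤ ∑ i, f i := by
    calc ((Finset.univ.filter (fun i : ZMod p => g i ≠ 0)).card : ℝ)
        = ∑ i ∈ Finset.univ.filter (fun i : ZMod p => g i ≠ 0), (1 : ℝ) := by simp
      _ = ∑ i ∈ Finset.univ.filter (fun i : ZMod p => g i ≠ 0), f i := by
          apply Finset.sum_congr rfl
          intro i hi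
          rw [h1 i (Finset.mem_filter.1 hi).2]
      _ ≤ ∑ i, f i := Finset.sum_le_sum_of_subset_of_nonneg (Finset.subset_univ _)
          (fun i _ _ => h0 i)
  have h3 : (p : ℝ) < 16 * ((p / 16 : ℕ) + 1) := by
    have := Nat.lt_div_mul_add (a := p) (b := 16) (by norm_num)
    have h4 : p < 16 * (p / 16 + 1) := by omega
    exact_mod_cast h4
  have h4 : ((p / 16 : ℕ) : ℝ) + 1 ≤
      ((Finset.univ.filter (fun i : ZMod p => g i ≠ 0)).card : ℝ) := by exact_mod_cast hc
  linarith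

/-! ### window features -/

noncomputable def eb (G : (ℤ → ℕ → ℝ) → ℝ) (b : Bool) (D : ℤ → ℕ → ℝ) : ℝ :=
  if b then Real.sqrt (G D) else Real.sqrt (1 - G D)

noncomputable def EQ (G : (ℤ → ℕ → ℝ) → ℝ) {l : ℕ} (q : Fin l → Bool) (t : Pt p) : ℝ :=
  ∏ j : Fin l, eb G (q j) (Om (nm (rot ((j : ℕ) : ZMod p) t)))

variable {G : (ℤ → ℕ → ℝ) → ℝ}

theorem eb_nonneg (b : Bool) (D : ℤ → ℕ → ℝ) : 0 ≤ eb G b D := by
  unfold eb; split_ifs <;> exact Real.sqrt_nonneg _

theorem eb_le_one (h01 : ∀ D, 0 ≤ G D ∧ G D ≤ 1) (b : Bool) (D : ℤ → ℕ → ℝ) : eb G b D ≤ 1 := by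
  unfold eb
  split_ifs
  · exact Real.sqrt_le_one.2 (h01 D).2
  · exact Real.sqrt_le_one.2 (by linarith [(h01 D).1])

theorem eb_cont (hG : Continuous G) (b : Bool) : Continuous (eb G b) := by
  unfold eb
  split_ifs
  · exact Real.continuous_sqrt.comp hG
  · exact Real.continuous_sqrt.comp (continuous_const.sub hG)

theorem eb_kernel_self (h01 : ∀ D, 0 ≤ G D ∧ G D ≤ 1) (D : ℤ → ℕ → ℝ) :
    ∑ b : Bool, eb G b D * eb G b D = 1 := by
  rw [Fintype.sum_bool]
  simp only [eb, if_true, Bool.false_eq_true, if_false]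
  rw [Real.mul_self_sqrt (h01 D).1, Real.mul_self_sqrt (by linarith [(h01 D).2])]
  ring

theorem eb_kernel_zero {D D' : ℤ → ℕ → ℝ} (h : G D = 0) (h' : G D' = 1) :
    ∑ b : Bool, eb G b D * eb G b D' = 0 := by
  rw [Fintype.sum_bool]
  simp [eb, h, h']

theorem eb_close (h01 : ∀ D, 0 ≤ G D ∧ G D ≤ 1) (b : Bool) (D D' : ℤ → ℕ → ℝ) :
    (eb G b D - eb G b D') ^ 2 ≤ |G D - G D'| := by
  unfold eb
  split_ifs
  · exact sqrt_sub_sq_le _ _ (h01 D).1 (h01 D').1
  · refine (sqrt_sub_sq_le _ _ (by linarith [(h01 D).2]) (by linarith [(h01 D').2])).trans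
      (le_of_eq ?_)
    have : 1 - G D - (1 - G D') = -(G D - G D') := by ring
    rw [this, abs_neg]

theorem EQ_nonneg {l : ℕ} (q : Fin l → Bool) (t : Pt p) : 0 ≤ EQ G q t :=
  Finset.prod_nonneg (fun _ _ => eb_nonneg _ _)

theorem EQ_le_one (h01 : ∀ D, 0 ≤ G D ∧ G D ≤ 1) {l : ℕ} (q : Fin l → Bool) (t : Pt p) :
    EQ G q t ≤ 1 :=
  Finset.prod_le_one (fun _ _ => eb_nonneg _ _) (fun _ _ => eb_le_one h01 _ _)

theorem EQ_cont (hG : Continuous G) {l : ℕ} (q : Fin l → Bool) :
    ContinuousOn (EQ G q : Pt p → ℝ) (Sph p) := by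
  apply continuousOn_finsetProd
  intro j _
  apply ((eb_cont hG (q j)).comp Om_cont).comp_continuousOn
  exact nm_cont.comp (continuous_rot _).continuousOn (fun t ht => rot_Sph _ ht)

theorem EQ_kernel {l : ℕ} (t t' : Pt p) :
    ∑ q : Fin l → Bool, EQ G q t * EQ G q t' =
      ∏ j : Fin l, ∑ b : Bool, eb G b (Om (nm (rot ((j : ℕ) : ZMod p) t))) *
        eb G b (Om (nm (rot ((j : ℕ) : ZMod p) t'))) := by
  rw [Finset.prod_univ_sum]
  simp only [Fintype.piFinset_univ]
  apply Finset.sum_congr rfl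
  intro q _
  rw [EQ, EQ, Finset.prod_mul_distrib]

/-- The orbit of a point of `XX`. -/
theorem Om_nm_rot (i : ZMod p) (t : Pt p) : Om (nm (rot i t)) = sft (i.val : ℤ) (Om (nm t)) := by
  rw [nm_rot, ← Om_rot]
  congr 2
  simp

theorem Om_zero_zero (x : Pt p) : Om x 0 0 = x 0 := by
  simp [Om, ofs_zero, phi_zero]

/-- Main energy estimate. -/
theorem window_energy (h01 : ∀ D, 0 ≤ G D ∧ G D ≤ 1)
    (hG0 : ∀ D ∈ XX, D 0 0 ≤ 1 / 3 → G D = 0) (hG1 : ∀ D ∈ XX, 2 / 3 ≤ D 0 0 → G D = 1)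
    {l : ℕ} (hl : 2 ^ 26 ≤ l) (hlp : l ≤ p) {t : Pt p} (hX : Om (nm t) ∈ XX)
    (hu : p / 16 < (Finset.univ.filter (fun i : ZMod p => uF (rot i t) ≠ 0)).card)
    (hv : p / 16 < (Finset.univ.filter (fun i : ZMod p => vF (rot i t) ≠ 0)).card)
    (ha : ∀ ξ ≠ 0, ‖FT (EE (fun t => ((aF t : ℝ) : ℂ)) t) ξ‖ ^ 2 ≤ 32 * p)
    (hb : ∀ ξ ≠ 0, ‖FT (EE (fun t => ((bF t : ℝ) : ℂ)) t) ξ‖ ^ 2 ≤ 32 * p) :
    (p : ℝ) * ((p / 16 + 1 : ℕ) : ℝ) / 4 ≤ ∑ d ∈ Finset.Ico 1 (p / 16 + 1),
      FF (fun (q : Fin l → Bool) (i : ZMod p) => EQ G q (rot i t)) (d : ZMod p) := by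
  classical
  have hp := p_pos p
  set E : (Fin l → Bool) → ZMod p → ℝ := fun q i => EQ G q (rot i t) with hE
  have hk0 : ∀ i j, 0 ≤ kk E i j := fun i j =>
    Finset.sum_nonneg (fun q _ => mul_nonneg (EQ_nonneg _ _) (EQ_nonneg _ _))
  have hkself : ∀ i, kk E i i = 1 := by
    intro i
    unfold kk
    rw [hE]
    simp only
    rw [EQ_kernel]
    apply Finset.prod_eq_one
    intro j _
    exact eb_kernel_self h01 _
  have hk1 : ∀ i j, kk E i j ≤ 1 := by
    intro i j
    have h1 : kk E i j ≤ ∑ q, (E q i * E q i + E q j * E q j) / 2 := by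
      apply Finset.sum_le_sum
      intro q _
      nlinarith [sq_nonneg (E q i - E q j)]
    have h2 : ∑ q, (E q i * E q i + E q j * E q j) / 2 = (kk E i i + kk E j j) / 2 := by
      rw [← Finset.sum_div, Finset.sum_add_distrib]
      rfl
    rw [h2, hkself, hkself] at h1
    linarith
  let J : Finset (ZMod p) := (Finset.univ : Finset (Fin l)).image (fun j : Fin l => ((j : ℕ) : ZMod p))
  have hJ : J.card = l := by
    rw [Finset.card_image_of_injective, Finset.card_univ, Fintype.card_fin]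
    intro a b hab
    have h1 : ((a : ℕ) : ZMod p) = ((b : ℕ) : ZMod p) := hab
    have h2 := (ZMod.natCast_eq_natCast_iff a b p).1 h1
    rw [Nat.ModEq, Nat.mod_eq_of_lt (a.2.trans_le hlp), Nat.mod_eq_of_lt (b.2.trans_le hlp)] at h2
    exact Fin.ext h2
  have hlpos : 0 < l := lt_of_lt_of_le (by norm_num) hl
  have hfew := few_pairs (fun i => aF (rot i t)) (fun i => bF (rot i t)) J (1 / 16) (32 * p)
    (by norm_num) (by positivity) (by rw [hJ]; exact hlpos)
    (fun i => clamp_nonneg _) (fun i => clamp_le_one _)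
    (sum_ge_of_card (fun i => clamp_nonneg _) (by
      intro i hi
      unfold aF
      apply clamp_of_one_le
      by_contra hcon
      apply hi
      unfold uF
      rw [max_eq_right]
      linarith) hu)
    (sum_ge_of_card (fun i => clamp_nonneg _) (by
      intro i hi
      unfold bF
      apply clamp_of_one_le
      by_contra hcon
      apply hi
      unfold vF
      rw [max_eq_right]
      linarith) hv)
    (by
      calc ∑ i : ZMod p, bF (rot i t) ≤ ∑ i : ZMod p, (1 : ℝ) :=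
            Finset.sum_le_sum (fun i _ => clamp_le_one _)
        _ = p := by simp [ZMod.card])
    ha hb
  rw [hJ] at hfew
  set U := Finset.univ.filter (fun x : ZMod p × ZMod p =>
      ∀ j ∈ J, aF (rot (x.1 + j) t) * bF (rot (x.2 + j) t) = 0) with hU
  have hkU : ∀ x : ZMod p × ZMod p, x ∉ U → kk E x.1 x.2 = 0 := by
    intro x hx
    simp only [hU, Finset.mem_filter, Finset.mem_univ, true_and] at hx
    push Not at hx
    obtain ⟨j, hj, hne⟩ := hx
    obtain ⟨j', -, rfl⟩ := Finset.mem_image.1 hj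
    have hane : aF (rot (x.1 + ((j' : ℕ) : ZMod p)) t) ≠ 0 := left_ne_zero_of_mul hne
    have hbne : bF (rot (x.2 + ((j' : ℕ) : ZMod p)) t) ≠ 0 := right_ne_zero_of_mul hne
    have hXi : ∀ i : ZMod p, Om (nm (rot i t)) ∈ XX := by
      intro i
      rw [Om_nm_rot]
      exact sft_mem _ hX
    have h1 : G (Om (nm (rot (x.1 + ((j' : ℕ) : ZMod p)) t))) = 0 := by
      apply hG0 _ (hXi _)
      rw [Om_zero_zero]
      by_contra hcon
      apply hane
      unfold aF
      apply clamp_of_nonpos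
      push Not at hcon
      linarith
    have h2 : G (Om (nm (rot (x.2 + ((j' : ℕ) : ZMod p)) t))) = 1 := by
      apply hG1 _ (hXi _)
      rw [Om_zero_zero]
      by_contra hcon
      apply hbne
      unfold bF
      apply clamp_of_nonpos
      push Not at hcon
      linarith
    unfold kk
    rw [hE]
    simp only
    rw [EQ_kernel]
    apply Finset.prod_eq_zero (Finset.mem_univ j')
    rw [rot_rot, rot_rot, add_comm _ x.1, add_comm _ x.2]
    exact eb_kernel_zero h1 h2
  have hdc : ∑ i, ∑ j, kk E i j ≤ (p : ℝ) * ((p / 16 + 1 : ℕ) : ℝ) / 2 := by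
    have h1 : ∑ i, ∑ j, kk E i j = ∑ x : ZMod p × ZMod p, kk E x.1 x.2 := by
      rw [← Finset.univ_product_univ, Finset.sum_product]
    have h2 : ∑ x : ZMod p × ZMod p, kk E x.1 x.2 ≤ U.card := by
      calc ∑ x : ZMod p × ZMod p, kk E x.1 x.2
          = ∑ x ∈ U, kk E x.1 x.2 := by
            symm
            apply Finset.sum_subset (Finset.subset_univ _)
            intro x _ hx
            exact hkU x hx
        _ ≤ ∑ x ∈ U, (1 : ℝ) := Finset.sum_le_sum (fun x _ => hk1 _ _)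
        _ = U.card := by simp
    rw [h1]
    refine h2.trans (hfew.trans ?_)
    have hlr : (67108864 : ℝ) ≤ l := by
      have : (67108864 : ℕ) ≤ l := by
        have h5 : (2 : ℕ) ^ 26 = 67108864 := by norm_num
        omega
      exact_mod_cast this
    have h3 : (p : ℝ) ≤ 16 * ((p / 16 + 1 : ℕ) : ℝ) := by
      have h4 : p ≤ 16 * (p / 16 + 1) := by omega
      exact_mod_cast h4
    have hl0 : (0 : ℝ) < l := by linarith
    rw [div_le_iff₀ (by positivity)]
    have h6 : (6 : ℝ) * (32 * p) * p ≤ (p * (p / 16) / 2) * (67108864 * (1 / 16) ^ 3) := by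
      have : 0 ≤ (p : ℝ) * p := by positivity
      nlinarith
    calc (6 : ℝ) * (32 * p) * p ≤ (p * (p / 16) / 2) * (67108864 * (1 / 16) ^ 3) := h6
      _ ≤ (p * ((p / 16 + 1 : ℕ) : ℝ) / 2) * (l * (1 / 16) ^ 3) := by
          gcongr
          linarith
  exact band_energy E (p / 16 + 1) (Nat.succ_pos _) hk0 hkself hdc

end

end Pool.Agent.Work.MP_cda452_an
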